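import Pool.Agent.Work.MP_9667ca_an.Defs

/-!
# MP_9667ca_an, module BALFROM: balanced families from convex hulls

`balFrom`: by `eq_pos_convex_span_of_mem_convexHull`, `0 = ∑ w_i z_i`, `w_i > 0`, `∑ w_i = 1`,
`z_i = bloch (p_i, q_i)` with `(p_i, q_i) ∈ C`; take `c_i = 2 w_i`.
`theta`: from `0 = ∑ w_j ω_j` (`ω_j ∈ Θ`): the points `(1, ω_j)/√2` with weights `w_j` and
`(1,0), (0,1)` with weights `1/2` (index type `κ ⊕ Fin 2`; `N ((1,ω)/√2) = 1` by homogeneity);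
the pair `(1,0)`, `(1,ω_j)/√2` has inner product of modulus `1/√2`.
-/

namespace Pool.MinMax

open scoped ComplexConjugate

/-- The Bloch vector of `(p, q)`. -/
noncomputable def bloch (x : ℂ × ℂ) : EuclideanSpace ℝ (Fin 3) :=
  !₂[2 * (x.1 * conj x.2).re, 2 * (x.1 * conj x.2).im, ‖x.1‖ ^ 2 - ‖x.2‖ ^ 2]

theorem balFrom {C : Set (ℂ × ℂ)} (hC : ∀ x ∈ C, ‖x.1‖ ^ 2 + ‖x.2‖ ^ 2 = 1)
    (h0 : (0 : EuclideanSpace ℝ (Fin 3)) ∈ convexHull ℝ (bloch '' C)) :
    ∃ (ι : Type) (_ : Fintype ι) (c : ι → ℝ) (p q : ι → ℂ), Bal c p q ∧ ∀ i, (p i, q i) ∈ C := by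
  obtain ⟨ι, hι, z, w, hz, -, hw, hw1, hx⟩ := eq_pos_convex_span_of_mem_convexHull h0
  have hch : ∀ i, ∃ x : ℂ × ℂ, x ∈ C ∧ bloch x = z i := by
    intro i
    obtain ⟨x, hx, hxz⟩ := hz (Set.mem_range_self i)
    exact ⟨x, hx, hxz⟩
  choose x hxC hxz using hch
  have hco : ∀ j, ∑ i, w i * (bloch (x i)) j = 0 := by
    intro j
    have h1 := congrArg (fun v : EuclideanSpace ℝ (Fin 3) => v j) hx
    simp only [PiLp.zero_apply] at h1
    rw [← h1, WithLp.ofLp_sum, Finset.sum_apply]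
    refine Finset.sum_congr rfl fun i _ => ?_
    rw [hxz]
    simp
  have h2 : ∑ i, w i * (2 * ((x i).1 * conj (x i).2).re) = 0 := hco 0
  have h3 : ∑ i, w i * (2 * ((x i).1 * conj (x i).2).im) = 0 := hco 1
  have h4 : ∑ i, w i * (‖(x i).1‖ ^ 2 - ‖(x i).2‖ ^ 2) = 0 := hco 2
  have h5 : ∑ i, w i * (‖(x i).1‖ ^ 2 + ‖(x i).2‖ ^ 2) = 1 := by
    rw [← hw1]
    refine Finset.sum_congr rfl fun i _ => ?_
    rw [hC _ (hxC i), mul_one]
  refine ⟨ι, hι, fun i => 2 * w i, fun i => (x i).1, fun i => (x i).2, ?_, fun i => hxC i⟩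
  constructor
  · intro i
    have := hw i
    positivity
  · intro i
    exact hC _ (hxC i)
  · have h6 : ∑ i, 2 * w i * ‖(x i).1‖ ^ 2 = ∑ i, w i * (‖(x i).1‖ ^ 2 + ‖(x i).2‖ ^ 2) +
        ∑ i, w i * (‖(x i).1‖ ^ 2 - ‖(x i).2‖ ^ 2) := by
      rw [← Finset.sum_add_distrib]
      refine Finset.sum_congr rfl fun i _ => ?_
      ring
    rw [h6, h5, h4, add_zero]
  · have h6 : ∑ i, 2 * w i * ‖(x i).2‖ ^ 2 = ∑ i, w i * (‖(x i).1‖ ^ 2 + ‖(x i).2‖ ^ 2) -
        ∑ i, w i * (‖(x i).1‖ ^ 2 - ‖(x i).2‖ ^ 2) := by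
      rw [← Finset.sum_sub_distrib]
      refine Finset.sum_congr rfl fun i _ => ?_
      ring
    rw [h6, h5, h4, sub_zero]
  · apply Complex.ext
    · rw [Complex.re_sum, Complex.zero_re, ← h2]
      refine Finset.sum_congr rfl fun i _ => ?_
      rw [Complex.re_ofReal_mul]
      ring
    · rw [Complex.im_sum, Complex.zero_im, ← h3]
      refine Finset.sum_congr rfl fun i _ => ?_
      rw [Complex.im_ofReal_mul]
      ring

theorem theta {N : ℂ → ℂ → ℝ} (hN : Good N) (h10 : N 1 0 = 1) (h01 : N 0 1 = 1)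
    (h0 : (0 : ℂ) ∈ convexHull ℝ {ω : ℂ | ‖ω‖ = 1 ∧ N 1 ω ^ 2 = 2}) :
    ∃ (ι : Type) (_ : Fintype ι) (c : ι → ℝ) (p q : ι → ℂ), Bal c p q ∧
      (∀ i, N (p i) (q i) = 1) ∧
      ∃ k l, p k * conj (p l) + q k * conj (q l) ≠ 0 ∧
        ‖p k * conj (p l) + q k * conj (q l)‖ ≠ 1 := by
  obtain ⟨κ, hκ, ω, w, hω, -, hw, hw1, hx⟩ := eq_pos_convex_span_of_mem_convexHull h0
  obtain ⟨r, hr⟩ : ∃ r : ℝ, r = (Real.sqrt 2)⁻¹ := ⟨_, rfl⟩
  have hr0 : 0 < r := by rw [hr]; positivity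
  have hr2 : r ^ 2 = 1 / 2 := by
    rw [hr, inv_pow, Real.sq_sqrt (by norm_num)]; norm_num
  have hωm : ∀ i, ‖ω i‖ = 1 ∧ N 1 (ω i) ^ 2 = 2 := fun i => hω (Set.mem_range_self i)
  have hr2c : ((r : ℝ) : ℂ) * (r : ℂ) = 1 / 2 := by
    rw [← Complex.ofReal_mul, ← sq, hr2]; push_cast; ring
  refine ⟨κ ⊕ Fin 2, inferInstance, Sum.elim w (fun _ => 1 / 2),
    Sum.elim (fun _ => (r : ℂ)) ![1, 0], Sum.elim (fun i => (r : ℂ) * ω i) ![0, 1], ?_, ?_, ?_⟩
  · constructor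
    · intro i
      rcases i with i | i
      · exact hw i
      · simp
    · intro i
      rcases i with i | i
      · simp only [Sum.elim_inl]
        rw [norm_mul, (hωm i).1, mul_one, Complex.norm_real, Real.norm_of_nonneg hr0.le, hr2]
        norm_num
      · fin_cases i <;> simp
    · rw [Fintype.sum_sum_type, Fin.sum_univ_two]
      simp only [Sum.elim_inl, Sum.elim_inr, Complex.norm_real, Real.norm_of_nonneg hr0.le, hr2]
      rw [← Finset.sum_mul, hw1]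
      simp
      norm_num
    · rw [Fintype.sum_sum_type, Fin.sum_univ_two]
      simp only [Sum.elim_inl, Sum.elim_inr, norm_mul, Complex.norm_real,
        Real.norm_of_nonneg hr0.le, (hωm _).1, mul_one, hr2]
      rw [← Finset.sum_mul, hw1]
      simp
      norm_num
    · rw [Fintype.sum_sum_type, Fin.sum_univ_two]
      have h1 : ∑ i, ((Sum.elim w (fun _ : Fin 2 => (1 : ℝ) / 2) (Sum.inl i) : ℝ) : ℂ) *
          ((Sum.elim (fun _ : κ => (r : ℂ)) ![1, 0] (Sum.inl i)) *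
            conj (Sum.elim (fun i => (r : ℂ) * ω i) ![0, 1] (Sum.inl i))) = 0 := by
        have h2 : ∀ i, ((Sum.elim w (fun _ : Fin 2 => (1 : ℝ) / 2) (Sum.inl i) : ℝ) : ℂ) *
            ((Sum.elim (fun _ : κ => (r : ℂ)) ![1, 0] (Sum.inl i)) *
            conj (Sum.elim (fun i => (r : ℂ) * ω i) ![0, 1] (Sum.inl i))) =
            1 / 2 * conj (w i • ω i) := by
          intro i
          simp only [Sum.elim_inl, map_mul, Complex.conj_ofReal, Complex.real_smul]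
          rw [← hr2c]
          ring
        rw [Finset.sum_congr rfl fun i _ => h2 i, ← Finset.mul_sum, ← map_sum, hx]
        simp
      rw [h1]
      simp
  · intro i
    rcases i with i | i
    · simp only [Sum.elim_inl]
      have h1 := hN.homog (r : ℂ) 1 (ω i)
      rw [mul_one] at h1
      rw [h1, Complex.norm_real, Real.norm_of_nonneg hr0.le]
      have h2 := hN.nonneg 1 (ω i)
      have h3 : N 1 (ω i) = Real.sqrt 2 := by
        rw [← (hωm i).2, Real.sqrt_sq h2]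
      rw [h3, hr]
      exact inv_mul_cancel₀ (by positivity)
    · fin_cases i
      · simpa using h10
      · simpa using h01
  · have hne : Nonempty κ := by
      by_contra hcon
      rw [not_nonempty_iff] at hcon
      simp at hw1
    obtain ⟨i⟩ := hne
    refine ⟨Sum.inr 0, Sum.inl i, ?_, ?_⟩
    · simp [hr0.ne']
    · simp only [Sum.elim_inr, Sum.elim_inl, Matrix.cons_val_zero, Complex.conj_ofReal, one_mul,
        zero_mul, add_zero, Complex.norm_real, Real.norm_of_nonneg hr0.le]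
      intro h
      rw [h] at hr2
      norm_num at hr2

end Pool.MinMax
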