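import Pool.Agent.Work.MP_9667ca_an.Defs

/-!
# MP_9667ca_an: basic inequalities in a C⋆-algebra
-/

namespace Pool.MinMax

open scoped ComplexConjugate
open Complex (I)

variable {A : Type*} [CStarAlgebra A]

theorem one_eq_smul_one : (1 : A) = (1 : ℝ) • (1 : A) := (one_smul _ _).symm

section order

variable [PartialOrder A] [StarOrderedRing A]

theorem star_mul_self_le_smul {x : A} {r : ℝ} (hx : ‖x‖ ^ 2 ≤ r) : star x * x ≤ r • (1 : A) := by
  have h := CStarAlgebra.star_mul_le_algebraMap_norm_sq (a := x)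
  refine h.trans ?_
  rw [Algebra.algebraMap_eq_smul_one]
  exact smul_le_smul_of_nonneg_right hx zero_le_one

theorem star_mul_self_le_one {x : A} (hx : ‖x‖ ≤ 1) : star x * x ≤ 1 := by
  have := star_mul_self_le_smul (x := x) (r := 1) (by nlinarith [norm_nonneg x])
  rwa [one_smul] at this

theorem norm_sq_le_of_star_mul_self_le {x : A} {r : ℝ} (hr : 0 ≤ r)
    (h : star x * x ≤ r • (1 : A)) : ‖x‖ ^ 2 ≤ r := by
  rw [sq, ← CStarRing.norm_star_mul_self]
  rw [CStarAlgebra.norm_le_iff_le_algebraMap _ hr (star_mul_self_nonneg x),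
    Algebra.algebraMap_eq_smul_one]
  exact h

end order

theorem SS_nonneg [PartialOrder A] [StarOrderedRing A] (a₁ a₂ : A) (p q : ℂ) :
    0 ≤ SS a₁ a₂ p q := star_mul_self_nonneg _

theorem BB_nonneg [PartialOrder A] [StarOrderedRing A] (b₁ b₂ : A) (p q : ℂ) :
    0 ≤ BB b₁ b₂ p q := star_mul_self_nonneg _

/-- Expansion of `S(p, q)`. -/
theorem SS_eq (a₁ a₂ : A) (p q : ℂ) :
    SS a₁ a₂ p q = (p * conj p) • (star a₁ * a₁) + (q * conj q) • (star a₂ * a₂)
      + (p * conj q) • (star a₁ * a₂) + (conj p * q) • (star a₂ * a₁) := by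
  unfold SS av
  simp only [star_add, star_smul, RCLike.star_def, Complex.conj_conj, add_mul, mul_add,
    smul_mul_assoc, mul_smul_comm, smul_smul]
  module

/-- Expansion of `B(p, q)`. -/
theorem BB_eq (b₁ b₂ : A) (p q : ℂ) :
    BB b₁ b₂ p q = (p * conj p) • (star b₁ * b₁) + (q * conj q) • (star b₂ * b₂)
      + (conj p * q) • (star b₁ * b₂) + (p * conj q) • (star b₂ * b₁) := by
  unfold BB bv
  simp only [star_add, star_smul, RCLike.star_def, add_mul, mul_add,
    smul_mul_assoc, mul_smul_comm, smul_smul]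
  module

namespace Com

variable {a₁ a₂ b₁ b₂ : A}

/-- every `a(p, q)` commutes with every `b(r, s)` -/
theorem av_bv (h : Com a₁ a₂ b₁ b₂) (p q r s : ℂ) :
    Commute (av a₁ a₂ p q) (bv b₁ b₂ r s) :=
  ((((h.h11.smul_left _).add_left (h.h21.smul_left _)).smul_right _).add_right
    (((h.h12.smul_left _).add_left (h.h22.smul_left _)).smul_right _))

theorem av_star_bv (h : Com a₁ a₂ b₁ b₂) (p q r s : ℂ) :
    Commute (av a₁ a₂ p q) (star (bv b₁ b₂ r s)) := by
  unfold bv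
  rw [star_add, star_smul, star_smul]
  exact ((((h.s11.smul_left _).add_left (h.s21.smul_left _)).smul_right _).add_right
    (((h.s12.smul_left _).add_left (h.s22.smul_left _)).smul_right _))

theorem star_av_bv (h : Com a₁ a₂ b₁ b₂) (p q r s : ℂ) :
    Commute (star (av a₁ a₂ p q)) (bv b₁ b₂ r s) := by
  have := (h.av_star_bv p q r s).star_star
  rwa [star_star] at this

theorem star_av_star_bv (h : Com a₁ a₂ b₁ b₂) (p q r s : ℂ) :
    Commute (star (av a₁ a₂ p q)) (star (bv b₁ b₂ r s)) := (h.av_bv p q r s).star_star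

theorem SS_BB (h : Com a₁ a₂ b₁ b₂) (p q r s : ℂ) :
    Commute (SS a₁ a₂ p q) (BB b₁ b₂ r s) :=
  ((h.star_av_star_bv p q r s).mul_left (h.av_star_bv p q r s)).mul_right
    ((h.star_av_bv p q r s).mul_left (h.av_bv p q r s))

end Com

theorem star_mul_mul_mul {x y b b' : A} (h1 : Commute x b) (h2 : Commute y (star b)) :
    star (x * b) * (y * b') = (star x * y) * (star b * b') := by
  have h3 : star b * star x = star x * star b := (h1.star_star).symm.eq
  calc star (x * b) * (y * b') = (star b * star x) * y * b' := by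
        rw [star_mul]; simp only [mul_assoc]
    _ = star x * (star b * y) * b' := by rw [h3]; simp only [mul_assoc]
    _ = (star x * y) * (star b * b') := by rw [← h2.eq]; simp only [mul_assoc]

/-- `star T * T` in terms of the products. -/
theorem star_TT_mul_TT {a₁ a₂ b₁ b₂ : A} (h : Com a₁ a₂ b₁ b₂) :
    star (TT a₁ a₂ b₁ b₂) * TT a₁ a₂ b₁ b₂ =
      (star a₁ * a₁) * (star b₁ * b₁) + (star a₂ * a₂) * (star b₂ * b₂)
      + (star a₁ * a₂) * (star b₁ * b₂) + (star a₂ * a₁) * (star b₂ * b₁) := by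
  unfold TT
  rw [star_add, add_mul, mul_add, mul_add, star_mul_mul_mul h.h11 h.s11,
    star_mul_mul_mul h.h11 h.s21, star_mul_mul_mul h.h22 h.s12, star_mul_mul_mul h.h22 h.s22]
  abel

/-- `(p, q) ↦ D(p, q)` is nonnegative. -/
theorem dd_nonneg [PartialOrder A] [StarOrderedRing A] {a₁ a₂ b₁ b₂ : A} (h : Com a₁ a₂ b₁ b₂)
    (hb : ∀ p q : ℂ, ‖bv b₁ b₂ p q‖ ^ 2 ≤ ‖p‖ ^ 2 + ‖q‖ ^ 2) (p q : ℂ) :
    0 ≤ DD a₁ a₂ b₁ b₂ p q := by
  unfold DD
  refine Commute.mul_nonneg (SS_nonneg _ _ _ _) ?_ ?_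
  · exact sub_nonneg.2 (star_mul_self_le_smul (hb p q))
  · exact ((Commute.one_right _).smul_right _).sub_right (h.SS_BB p q p q)

/-- Homogeneity of `D`. -/
theorem dd_smul (a₁ a₂ b₁ b₂ : A) (z p q : ℂ) :
    DD a₁ a₂ b₁ b₂ (z * p) (z * q) = (‖z‖ ^ 4) • DD a₁ a₂ b₁ b₂ p q := by
  have hz : z * conj z = ((‖z‖ ^ 2 : ℝ) : ℂ) := by
    rw [Complex.mul_conj, Complex.normSq_eq_norm_sq]
  have h1 : SS a₁ a₂ (z * p) (z * q) = (‖z‖ ^ 2) • SS a₁ a₂ p q := by
    rw [SS_eq, SS_eq, ← Complex.coe_smul, ← hz]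
    simp only [map_mul, smul_add, smul_smul]
    congr 1
    · congr 1
      · congr 1
        · congr 1; ring
        · congr 1; ring
      · congr 1; ring
    · congr 1; ring
  have h2 : BB b₁ b₂ (z * p) (z * q) = (‖z‖ ^ 2) • BB b₁ b₂ p q := by
    rw [BB_eq, BB_eq, ← Complex.coe_smul, ← hz]
    simp only [map_mul, smul_add, smul_smul]
    congr 1
    · congr 1
      · congr 1
        · congr 1; ring
        · congr 1; ring
      · congr 1; ring
    · congr 1; ring
  unfold DD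
  rw [h1, h2, norm_mul, norm_mul, smul_mul_assoc]
  have h3 : ((‖z‖ * ‖p‖) ^ 2 + (‖z‖ * ‖q‖) ^ 2 : ℝ) • (1 : A) - ‖z‖ ^ 2 • BB b₁ b₂ p q
      = (‖z‖ ^ 2) • ((‖p‖ ^ 2 + ‖q‖ ^ 2 : ℝ) • (1 : A) - BB b₁ b₂ p q) := by
    rw [smul_sub, smul_smul]; congr 2; ring
  rw [h3, mul_smul_comm, smul_smul]; congr 1; ring

end Pool.MinMax
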