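import Pool.Agent.Work.MP_9667ca_an.Defs

/-!
# MP_9667ca_an, module DEFECT

For a polynomial `r(z) = ∑_{j≤n} r_j z^j` with `r_0 = 1` and a contraction `c`:
`1 - c c⋆ ≤ Φ(|r|²) := ∑_{j,l≤n} r_j conj(r_l) c^(j-l)` and `1 - c⋆ c ≤ ∑ r_j conj(r_l) c^(l-j)`.

Proof.
(1) For every polynomial `q = ∑_{j<n} q_j z^j`: `Φ(|q|²) ≥ q(c)⋆ q(c)`. Induction on `n` (shift the
coefficients: `q = q_0 + z q'`):
`Φ(|q|²) = |q_0|² + conj(q_0) c q'(c) + q_0 (c q'(c))⋆ + Φ(|q'|²)`
(note `cz c (j+1-(l+1)) = cz c (j-l)`, `cz c (j+1) = c * c^j`) and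
`q(c)⋆ q(c) = |q_0|² + conj(q_0) c q'(c) + q_0 (c q'(c))⋆ + q'(c)⋆ c⋆ c q'(c)`, and
`q'⋆ c⋆ c q' ≤ q'⋆ q' ≤ Φ(|q'|²)` (`c⋆ c ≤ 1`).
(2) With `r = 1 + z q`: `Φ(|r|²) = 1 + c q(c) + (c q(c))⋆ + Φ(|q|²)
≥ 1 + c q(c) + (c q(c))⋆ + q(c)⋆ q(c) = 1 - c c⋆ + (q(c) + c⋆)⋆ (q(c) + c⋆) ≥ 1 - c c⋆`.
(3) The second inequality is the first one for `star c`: `cz (star c) n = cz c (-n)`.
-/

namespace Pool.MinMax

open scoped ComplexConjugate

variable {A : Type*} [CStarAlgebra A] [PartialOrder A] [StarOrderedRing A]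

omit [PartialOrder A] [StarOrderedRing A] in
private theorem defect_cz_succ (c : A) (j l : ℕ) :
    cz c (((j + 1 : ℕ) : ℤ) - ((l + 1 : ℕ) : ℤ)) = cz c ((j : ℤ) - l) := by
  congr 1
  push_cast
  ring

omit [PartialOrder A] [StarOrderedRing A] in
private theorem defect_cz_pos (c : A) (j : ℕ) : cz c (((j + 1 : ℕ) : ℤ) - ((0 : ℕ) : ℤ)) = c * c ^ j := by
  unfold cz
  rw [if_pos (by push_cast; linarith [Int.natCast_nonneg j])]
  have : (((j + 1 : ℕ) : ℤ) - ((0 : ℕ) : ℤ)).toNat = j + 1 := by simp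
  rw [this, pow_succ']

omit [PartialOrder A] [StarOrderedRing A] in
private theorem defect_cz_neg (c : A) (l : ℕ) :
    cz c (((0 : ℕ) : ℤ) - ((l + 1 : ℕ) : ℤ)) = star (c * c ^ l) := by
  unfold cz
  rw [if_neg (by push_cast; linarith [Int.natCast_nonneg l])]
  have : (-(((0 : ℕ) : ℤ) - ((l + 1 : ℕ) : ℤ))).toNat = l + 1 := by simp
  rw [this, ← star_pow, pow_succ']

omit [PartialOrder A] [StarOrderedRing A] in
private theorem defect_cz_zero (c : A) : cz c (((0 : ℕ) : ℤ) - ((0 : ℕ) : ℤ)) = 1 := by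
  unfold cz
  simp

/-- `Φ(|q|²)` -/
private noncomputable def dPhi (c : A) (n : ℕ) (q : ℕ → ℂ) : A :=
  ∑ j ∈ Finset.range n, ∑ l ∈ Finset.range n, (q j * conj (q l)) • cz c ((j : ℤ) - l)

/-- `q(c)` -/
private noncomputable def dEv (c : A) (n : ℕ) (q : ℕ → ℂ) : A :=
  ∑ j ∈ Finset.range n, q j • c ^ j

private theorem dPhi_succ (c : A) (n : ℕ) (q : ℕ → ℂ) :
    dPhi c (n + 1) q = (q 0 * conj (q 0)) • (1 : A) +
      conj (q 0) • (c * dEv c n (fun j => q (j + 1))) +
      q 0 • star (c * dEv c n (fun j => q (j + 1))) + dPhi c n (fun j => q (j + 1)) := by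
  unfold dPhi
  rw [Finset.sum_range_succ']
  rw [Finset.sum_range_succ' (fun l => (q 0 * conj (q l)) • cz c (((0 : ℕ) : ℤ) - l)), defect_cz_zero]
  have h1 : ∀ j ∈ Finset.range n, ∑ l ∈ Finset.range (n + 1),
      (q (j + 1) * conj (q l)) • cz c (((j + 1 : ℕ) : ℤ) - l) =
      ∑ l ∈ Finset.range n, (q (j + 1) * conj (q (l + 1))) • cz c ((j : ℤ) - l) +
        (q (j + 1) * conj (q 0)) • (c * c ^ j) := by
    intro j _
    rw [Finset.sum_range_succ', defect_cz_pos]
    congr 1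
    refine Finset.sum_congr rfl fun l _ => ?_
    rw [defect_cz_succ]
  rw [Finset.sum_congr rfl h1, Finset.sum_add_distrib]
  have h2 : ∑ j ∈ Finset.range n, (q (j + 1) * conj (q 0)) • (c * c ^ j) =
      conj (q 0) • (c * dEv c n (fun j => q (j + 1))) := by
    unfold dEv
    rw [Finset.mul_sum, Finset.smul_sum]
    refine Finset.sum_congr rfl fun j _ => ?_
    rw [mul_smul_comm, smul_smul, mul_comm]
  have h3 : ∑ l ∈ Finset.range n, (q 0 * conj (q (l + 1))) • cz c (((0 : ℕ) : ℤ) - ((l + 1 : ℕ) : ℤ)) =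
      q 0 • star (c * dEv c n (fun j => q (j + 1))) := by
    unfold dEv
    rw [Finset.mul_sum, star_sum, Finset.smul_sum]
    refine Finset.sum_congr rfl fun j _ => ?_
    rw [defect_cz_neg, mul_smul_comm, star_smul, smul_smul]
    rfl
  rw [h2, h3]
  abel

omit [PartialOrder A] [StarOrderedRing A] in
private theorem dEv_succ (c : A) (n : ℕ) (q : ℕ → ℂ) :
    dEv c (n + 1) q = q 0 • (1 : A) + c * dEv c n (fun j => q (j + 1)) := by
  unfold dEv
  rw [Finset.sum_range_succ', pow_zero, add_comm, Finset.mul_sum]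
  congr 1
  refine Finset.sum_congr rfl fun j _ => ?_
  rw [mul_smul_comm, pow_succ']

omit [PartialOrder A] [StarOrderedRing A] in
private theorem dEv_sq (c x : A) (a : ℂ) :
    star (a • (1 : A) + c * x) * (a • (1 : A) + c * x) = (a * conj a) • (1 : A) +
      conj a • (c * x) + a • star (c * x) + star x * (star c * c) * x := by
  rw [star_add, star_smul, star_one, add_mul, mul_add, mul_add]
  simp only [smul_mul_assoc, mul_smul_comm, one_mul, mul_one, smul_smul, star_mul, mul_assoc]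
  have h2 : (star a : ℂ) = conj a := rfl
  rw [h2]
  abel

private theorem defect_star_mul_le {c : A} (hc : ‖c‖ ≤ 1) : star c * c ≤ 1 := by
  have h1 : ‖star c * c‖ ≤ 1 := by
    rw [CStarRing.norm_star_mul_self]
    nlinarith [norm_nonneg c]
  exact (CStarAlgebra.norm_le_one_iff_of_nonneg _ (star_mul_self_nonneg c)).1 h1

private theorem dPhi_ge {c : A} (hc : ‖c‖ ≤ 1) (n : ℕ) : ∀ q : ℕ → ℂ,
    star (dEv c n q) * dEv c n q ≤ dPhi c n q := by
  induction n with
  | zero =>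
    intro q
    simp [dEv, dPhi]
  | succ n ih =>
    intro q
    rw [dPhi_succ, dEv_succ, dEv_sq]
    refine add_le_add le_rfl ?_
    refine le_trans ?_ (ih _)
    have h1 := star_left_conjugate_le_conjugate (defect_star_mul_le hc)
      (dEv c n (fun j => q (j + 1)))
    rw [mul_one] at h1
    exact h1

theorem defect {c : A} (hc : ‖c‖ ≤ 1) (n : ℕ) (r : ℕ → ℂ) (hr : r 0 = 1) :
    1 - c * star c ≤ ∑ j ∈ Finset.range (n + 1), ∑ l ∈ Finset.range (n + 1),
      (r j * conj (r l)) • cz c ((j : ℤ) - l) := by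
  have h1 := dPhi_succ c n r
  have h2 := dPhi_ge hc n (fun j => r (j + 1))
  set x : A := dEv c n (fun j => r (j + 1)) with hx
  change 1 - c * star c ≤ dPhi c (n + 1) r
  rw [h1, hr]
  simp only [map_one, mul_one, one_smul]
  refine le_trans ?_ (add_le_add le_rfl h2)
  have h3 : 0 ≤ star (x + star c) * (x + star c) := star_mul_self_nonneg _
  have h4 : 1 + c * x + star (c * x) + star x * x =
      1 - c * star c + star (x + star c) * (x + star c) := by
    rw [star_add, star_star, star_mul]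
    noncomm_ring
  rw [h4]
  exact le_add_of_nonneg_right h3

theorem defect_star {c : A} (hc : ‖c‖ ≤ 1) (n : ℕ) (r : ℕ → ℂ) (hr : r 0 = 1) :
    1 - star c * c ≤ ∑ j ∈ Finset.range (n + 1), ∑ l ∈ Finset.range (n + 1),
      (r j * conj (r l)) • cz c ((l : ℤ) - j) := by
  have h1 := defect (c := star c) (by rwa [norm_star]) n r hr
  rw [star_star] at h1
  refine h1.trans (le_of_eq ?_)
  refine Finset.sum_congr rfl fun j _ => Finset.sum_congr rfl fun l _ => ?_
  congr 1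
  unfold cz
  rw [star_star]
  rcases lt_trichotomy (l : ℤ) j with h | h | h
  · rw [if_pos (by linarith), if_neg (by linarith)]
    congr 2
    ring
  · have h0 : (l : ℤ) - j = 0 := by linarith
    have h0' : (j : ℤ) - l = 0 := by linarith
    rw [h0, h0']
    simp
  · rw [if_neg (by linarith), if_pos (by linarith)]
    congr 2
    ring

end Pool.MinMax
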