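import Pool.Agent.Work.MP_9667ca_an.Defs

/-!
# MP_9667ca_an, module FEJER: operator-valued trigonometric polynomials

`fejer`: if `c` is a contraction commuting (with its adjoint) with the coefficients `F i` and
`∑ ω^(k i) F i ≥ 0` for all `|ω| = 1`, then `∑ F i * c^(k i) ≥ 0`, where `c^(n)` is `cz c n`
(`c ^ n` for `n ≥ 0`, `(star c) ^ (-n)` for `n < 0`).

Proof.
(1) `toeplitz`: for a contraction `c` and `Q_n = ∑_{j,l<n} c^(j-l)`, `s_n = ∑_{j<n} c^j`:
`Q_n ≥ s_n⋆ s_n ≥ 0`, by induction: `Q_{n+1} = Q_n + s_{n+1} + s_{n+1}⋆ - 1` and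
`s_{n+1} = 1 + c s_n`.
(2) For `|ω| = 1` the element `P_ω = ∑_{j,l<M} ω^(l-j) c^(j-l)` is `≥ 0`: it is `Q_M` of the
contraction `ω⁻¹ c`. It commutes with `F(ω) = ∑ ω^(k i) F i ≥ 0`, so `F(ω) P_ω ≥ 0`.
(3) Sum over the `N`-th roots of unity, `N` larger than `M + |k i|`: only the pairs `j - l = k i`
survive, so `0 ≤ ∑_i (M - |k i|) F i c^(k i)`.
(4) Divide by `M` and let `M` tend to infinity; the cone `{x | 0 ≤ x}` is closed.
-/

namespace Pool.MinMax

open scoped ComplexConjugate
open Finset Filter Topology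

variable {A : Type*} [CStarAlgebra A] [PartialOrder A] [StarOrderedRing A]

section algebra

variable {B : Type*} [CStarAlgebra B]

private theorem cz_nat (c : B) (n : ℕ) : cz c (n : ℤ) = c ^ n := by
  simp [cz]

private theorem cz_neg_nat (c : B) (n : ℕ) : cz c (-(n : ℤ)) = (star c) ^ n := by
  rcases Nat.eq_zero_or_pos n with h | h
  · subst h; simp [cz]
  · have : ¬ (0 : ℤ) ≤ -(n : ℤ) := by omega
    unfold cz
    rw [if_neg this]
    simp

private theorem cz_smul (c : B) (z : ℂ) (hz : ‖z‖ = 1) (n : ℤ) :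
    cz (z • c) n = z ^ n • cz c n := by
  have hconj : (starRingEnd ℂ) z = z⁻¹ := by
    apply eq_inv_of_mul_eq_one_left
    rw [Complex.conj_mul', hz]
    norm_num
  rcases le_total 0 n with h | h
  · obtain ⟨m, rfl⟩ := Int.eq_ofNat_of_zero_le h
    rw [cz_nat, cz_nat, smul_pow, zpow_natCast]
  · obtain ⟨m, hm⟩ := Int.exists_eq_neg_ofNat h
    subst hm
    rw [cz_neg_nat, cz_neg_nat, star_smul, smul_pow, zpow_neg, zpow_natCast, ← inv_pow]
    rw [RCLike.star_def, hconj]

/-- partial geometric sums -/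
private noncomputable def gs (c : B) (n : ℕ) : B := ∑ j ∈ range n, c ^ j

/-- the sum of the entries of the Toeplitz matrix -/
private noncomputable def QQ (c : B) (n : ℕ) : B :=
  ∑ j ∈ range n, ∑ l ∈ range n, cz c ((j : ℤ) - l)

private theorem gs_succ (c : B) (n : ℕ) : gs c (n + 1) = 1 + c * gs c n := by
  unfold gs
  rw [Finset.sum_range_succ', pow_zero, Finset.mul_sum, add_comm]
  congr 1
  apply Finset.sum_congr rfl
  intro j _
  rw [pow_succ']

private theorem QQ_succ (c : B) (n : ℕ) :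
    QQ c (n + 1) = QQ c n + c * gs c n + star (c * gs c n) + 1 := by
  have h1 : ∑ l ∈ range n, cz c ((n : ℤ) - l) = c * gs c n := by
    unfold gs
    rw [Finset.mul_sum, ← Finset.sum_range_reflect]
    apply Finset.sum_congr rfl
    intro l hl
    have hl' := Finset.mem_range.mp hl
    have : (n : ℤ) - ((n - 1 - l : ℕ) : ℤ) = ((l + 1 : ℕ) : ℤ) := by omega
    rw [this, cz_nat, pow_succ']
  have h2 : ∑ j ∈ range n, cz c ((j : ℤ) - n) = star (c * gs c n) := by
    unfold gs
    rw [Finset.mul_sum, star_sum, ← Finset.sum_range_reflect]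
    apply Finset.sum_congr rfl
    intro l hl
    have hl' := Finset.mem_range.mp hl
    have : ((n - 1 - l : ℕ) : ℤ) - n = -((l + 1 : ℕ) : ℤ) := by omega
    rw [this, cz_neg_nat, ← pow_succ', star_pow]
  have h3 : cz c ((n : ℤ) - n) = 1 := by
    rw [sub_self]; simp [cz]
  unfold QQ
  rw [Finset.sum_range_succ, Finset.sum_range_succ, h1, h3]
  have h4 : ∑ j ∈ range n, ∑ l ∈ range (n + 1), cz c ((j : ℤ) - l) =
      ∑ j ∈ range n, ∑ l ∈ range n, cz c ((j : ℤ) - l) + ∑ j ∈ range n, cz c ((j : ℤ) - n) := by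
    rw [← Finset.sum_add_distrib]
    apply Finset.sum_congr rfl
    intro j _
    rw [Finset.sum_range_succ]
  rw [h4, h2]
  abel

end algebra

private theorem toeplitz {c : A} (hc : ‖c‖ ≤ 1) (n : ℕ) : star (gs c n) * gs c n ≤ QQ c n := by
  have hcc : star c * c ≤ 1 := by
    have h := CStarAlgebra.star_mul_le_algebraMap_norm_sq (a := c)
    refine h.trans ?_
    rw [← map_one (algebraMap ℝ A)]
    apply algebraMap_mono A
    have := norm_nonneg c
    nlinarith
  induction n with
  | zero => simp [gs, QQ]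
  | succ n ih =>
    rw [QQ_succ, gs_succ]
    have h1 : star (gs c n) * (star c * c) * gs c n ≤ star (gs c n) * 1 * gs c n :=
      star_left_conjugate_le_conjugate hcc (gs c n)
    rw [mul_one] at h1
    have h2 := h1.trans ih
    have e : star (1 + c * gs c n) * (1 + c * gs c n) =
        star (gs c n) * (star c * c) * gs c n + c * gs c n + star (c * gs c n) + 1 := by
      rw [star_add, star_one, add_mul, one_mul, mul_add, mul_one]
      rw [star_mul]
      simp only [mul_assoc]
      abel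
    rw [e]
    gcongr

private theorem QQ_nonneg {c : A} (hc : ‖c‖ ≤ 1) (n : ℕ) : 0 ≤ QQ c n :=
  (star_mul_self_nonneg _).trans (toeplitz hc n)

/-- the number of pairs with difference `k` -/
private theorem count_diff (M : ℕ) (k : ℤ) (hk : |k| ≤ M) :
    ∑ j ∈ range M, ∑ l ∈ range M, (if (j : ℤ) - l = k then (1 : ℂ) else 0) =
      (M : ℂ) - (|k| : ℤ) := by
  rw [← Finset.sum_product', ← Finset.sum_filter, Finset.sum_const, nsmul_eq_mul, mul_one]
  have hcard : ((range M ×ˢ range M).filter (fun x : ℕ × ℕ => (x.1 : ℤ) - x.2 = k)).card =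
      M - k.natAbs := by
    rw [← Finset.card_range (M - k.natAbs)]
    symm
    rcases le_total 0 k with h | h
    · apply Finset.card_nbij' (fun l => (l + k.natAbs, l)) (fun x => x.2)
      · intro l hl
        simp only [coe_range, Set.mem_Iio] at hl
        simp only [coe_filter, mem_product, mem_range, Set.mem_ofPred_eq]
        omega
      · intro x hx
        simp only [coe_filter, mem_product, mem_range, Set.mem_ofPred_eq] at hx
        simp only [coe_range, Set.mem_Iio]
        omega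
      · intro l _
        rfl
      · intro x hx
        simp only [coe_filter, mem_product, mem_range, Set.mem_ofPred_eq] at hx
        apply Prod.ext
        · simp only; omega
        · rfl
    · apply Finset.card_nbij' (fun l => (l, l + k.natAbs)) (fun x => x.1)
      · intro l hl
        simp only [coe_range, Set.mem_Iio] at hl
        simp only [coe_filter, mem_product, mem_range, Set.mem_ofPred_eq]
        omega
      · intro x hx
        simp only [coe_filter, mem_product, mem_range, Set.mem_ofPred_eq] at hx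
        simp only [coe_range, Set.mem_Iio]
        omega
      · intro l _
        rfl
      · intro x hx
        simp only [coe_filter, mem_product, mem_range, Set.mem_ofPred_eq] at hx
        apply Prod.ext
        · rfl
        · simp only; omega
  rw [hcard]
  have h1 : k.natAbs ≤ M := by
    rw [Int.abs_eq_natAbs] at hk
    exact_mod_cast hk
  rw [Nat.cast_sub h1]
  congr 1
  rw [← Int.natCast_natAbs]
  simp

/-- sums over the roots of unity -/
private theorem root_sum (N : ℕ) (hN : N ≠ 0) {ζ : ℂ} (hζ : IsPrimitiveRoot ζ N) (m : ℤ)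
    (hm : |m| < N) : ∑ t ∈ range N, (ζ ^ t) ^ m = if m = 0 then (N : ℂ) else 0 := by
  split_ifs with h
  · subst h
    simp
  · have h1 : ∀ t ∈ range N, (ζ ^ t) ^ m = (ζ ^ m) ^ t := by
      intro t _
      rw [← zpow_natCast, ← zpow_mul, mul_comm, zpow_mul, zpow_natCast]
    rw [Finset.sum_congr rfl h1]
    have h2 : ζ ^ m ≠ 1 := by
      intro h3
      have h4 := (hζ.zpow_eq_one_iff_dvd m).mp h3
      exact h (Int.eq_zero_of_abs_lt_dvd h4 hm)
    rw [geom_sum_eq h2]
    have h5 : (ζ ^ m) ^ N = 1 := by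
      rw [← zpow_natCast, ← zpow_mul, mul_comm, zpow_mul, zpow_natCast, hζ.pow_eq_one, one_zpow]
    rw [h5, sub_self, zero_div]

private theorem fejer_fin {ι : Type} [Fintype ι] (F : ι → A) (k : ι → ℤ) {c : A} (hc : ‖c‖ ≤ 1)
    (h1 : ∀ i, Commute (F i) c) (h2 : ∀ i, Commute (F i) (star c))
    (hpos : ∀ ω : ℂ, ‖ω‖ = 1 → 0 ≤ ∑ i, ω ^ (k i) • F i) (M : ℕ) (hM : ∀ i, |k i| ≤ M) :
    0 ≤ ∑ i, ((M : ℝ) - (|k i| : ℤ)) • (F i * cz c (k i)) := by
  set N : ℕ := 2 * M + 1
  have hN0 : N ≠ 0 := by omega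
  obtain ⟨ζ, hζ⟩ : ∃ ζ : ℂ, IsPrimitiveRoot ζ N := ⟨_, Complex.isPrimitiveRoot_exp N hN0⟩
  have hζ1 : ‖ζ‖ = 1 := hζ.norm'_eq_one hN0
  -- commutation
  have hcz : ∀ i n, Commute (F i) (cz c n) := by
    intro i n
    unfold cz
    split_ifs
    · exact (h1 i).pow_right _
    · exact (h2 i).pow_right _
  have hterm : ∀ ω : ℂ, ‖ω‖ = 1 →
      0 ≤ (∑ i, ω ^ (k i) • F i) *
        (∑ j ∈ range M, ∑ l ∈ range M, ω ^ ((l : ℤ) - j) • cz c ((j : ℤ) - l)) := by
    intro ω hω
    apply Commute.mul_nonneg (hpos ω hω)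
    · have h3 : ‖ω⁻¹ • c‖ ≤ 1 := by
        rw [norm_smul, norm_inv, hω, inv_one, one_mul]; exact hc
      have h4 := QQ_nonneg h3 M
      unfold QQ at h4
      convert h4 using 1
      apply Finset.sum_congr rfl
      intro j _
      apply Finset.sum_congr rfl
      intro l _
      rw [cz_smul c ω⁻¹ (by rw [norm_inv, hω, inv_one]), inv_zpow', neg_sub]
    · apply Commute.sum_left
      intro i _
      apply Commute.sum_right
      intro j _
      apply Commute.sum_right
      intro l _
      exact ((hcz i _).smul_left _).smul_right _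
  have hsum : 0 ≤ ∑ t ∈ range N, (∑ i, (ζ ^ t) ^ (k i) • F i) *
      (∑ j ∈ range M, ∑ l ∈ range M, (ζ ^ t) ^ ((l : ℤ) - j) • cz c ((j : ℤ) - l)) := by
    apply Finset.sum_nonneg
    intro t _
    exact hterm _ (by rw [norm_pow, hζ1, one_pow])
  have hζt : ∀ t : ℕ, ζ ^ t ≠ 0 := fun t => pow_ne_zero _ (hζ.ne_zero hN0)
  have heq : ∑ t ∈ range N, (∑ i, (ζ ^ t) ^ (k i) • F i) *
      (∑ j ∈ range M, ∑ l ∈ range M, (ζ ^ t) ^ ((l : ℤ) - j) • cz c ((j : ℤ) - l)) =
      (N : ℝ) • ∑ i, ((M : ℝ) - (|k i| : ℤ)) • (F i * cz c (k i)) := by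
    have e1 : ∀ t ∈ range N, (∑ i, (ζ ^ t) ^ (k i) • F i) *
        (∑ j ∈ range M, ∑ l ∈ range M, (ζ ^ t) ^ ((l : ℤ) - j) • cz c ((j : ℤ) - l)) =
        ∑ i, ∑ j ∈ range M, ∑ l ∈ range M,
          (ζ ^ t) ^ (k i + ((l : ℤ) - j)) • (F i * cz c ((j : ℤ) - l)) := by
      intro t _
      rw [Finset.sum_mul]
      apply Finset.sum_congr rfl
      intro i _
      rw [Finset.mul_sum]
      apply Finset.sum_congr rfl
      intro j _
      rw [Finset.mul_sum]
      apply Finset.sum_congr rfl
      intro l _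
      rw [smul_mul_smul_comm, zpow_add₀ (hζt t)]
    rw [Finset.sum_congr rfl e1, Finset.sum_comm, Finset.smul_sum]
    apply Finset.sum_congr rfl
    intro i _
    rw [Finset.sum_comm]
    have e2 : ∀ j ∈ range M, ∑ t ∈ range N, ∑ l ∈ range M,
        (ζ ^ t) ^ (k i + ((l : ℤ) - j)) • (F i * cz c ((j : ℤ) - l)) =
        ∑ l ∈ range M, ((N : ℂ) * (if (j : ℤ) - l = k i then 1 else 0)) •
          (F i * cz c (k i)) := by
      intro j hj
      rw [Finset.sum_comm]
      apply Finset.sum_congr rfl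
      intro l hl
      rw [← Finset.sum_smul]
      have hj' := Finset.mem_range.mp hj
      have hl' := Finset.mem_range.mp hl
      have hk := hM i
      rw [root_sum N hN0 hζ _ (by rw [abs_lt]; rw [abs_le] at hk; omega)]
      by_cases h : (j : ℤ) - l = k i
      · rw [if_pos (by omega), if_pos h, mul_one, h]
      · rw [if_neg (by omega), if_neg h, mul_zero, zero_smul, zero_smul]
    rw [Finset.sum_congr rfl e2]
    simp only [← Finset.sum_smul, ← Finset.mul_sum]
    rw [count_diff M (k i) (hM i), smul_smul, ← Complex.coe_smul]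
    simp only [Complex.ofReal_mul, Complex.ofReal_sub, Complex.ofReal_natCast,
      Complex.ofReal_intCast]
  rw [heq] at hsum
  have hNpos : (0 : ℝ) < N := by positivity
  have := smul_nonneg (inv_nonneg.mpr hNpos.le) hsum
  rwa [smul_smul, inv_mul_cancel₀ hNpos.ne', one_smul] at this

theorem fejer {ι : Type} [Fintype ι] (F : ι → A) (k : ι → ℤ) {c : A} (hc : ‖c‖ ≤ 1)
    (h1 : ∀ i, Commute (F i) c) (h2 : ∀ i, Commute (F i) (star c))
    (hpos : ∀ ω : ℂ, ‖ω‖ = 1 → 0 ≤ ∑ i, ω ^ (k i) • F i) :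
    0 ≤ ∑ i, F i * cz c (k i) := by
  have hlim : Tendsto (fun M : ℕ => ∑ i, (1 - ((|k i| : ℤ) : ℝ) * (M : ℝ)⁻¹) • (F i * cz c (k i)))
      atTop (𝓝 (∑ i, (1 - ((|k i| : ℤ) : ℝ) * 0) • (F i * cz c (k i)))) := by
    apply tendsto_finsetSum
    intro i _
    apply Tendsto.smul_const
    apply Tendsto.sub tendsto_const_nhds
    exact Tendsto.const_mul _ tendsto_inv_atTop_nhds_zero_nat
  simp only [mul_zero, sub_zero, one_smul] at hlim
  refine ge_of_tendsto hlim ?_
  rw [eventually_atTop]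
  refine ⟨(∑ i, (k i).natAbs) + 1, fun M hM => ?_⟩
  have hk : ∀ i, |k i| ≤ M := by
    intro i
    have := Finset.single_le_sum (f := fun i => (k i).natAbs) (fun _ _ => Nat.zero_le _)
      (Finset.mem_univ i)
    rw [Int.abs_eq_natAbs]
    omega
  have h3 := fejer_fin F k hc h1 h2 hpos M hk
  have hM0 : (0 : ℝ) < M := by
    have : 0 < M := by omega
    exact_mod_cast this
  have h4 := smul_nonneg (inv_nonneg.mpr hM0.le) h3
  rw [Finset.smul_sum] at h4
  convert h4 using 1
  apply Finset.sum_congr rfl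
  intro i _
  rw [smul_smul]
  congr 1
  field_simp

end Pool.MinMax
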