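import Mathlib

/-!
# MP_9667ca_an, module MINPOINT: convex hulls of compact sets in finite dimension

`isCompact_convexHull`: Carathéodory (`convexHull_eq_union` or `eq_pos_convex_span_of_mem_convexHull`):
the hull is the image of the compact set `stdSimplex × s^(d+1)` under a continuous map.
`minpoint`: the point of minimal norm of the compact convex set `convexHull ℝ s`
(`exists_norm_eq_iInf_of_complete_convex`, `norm_eq_iInf_iff_real_inner_le_zero`).
-/

namespace Pool.MinMax

/-- the convex combinations of `n` points of `s` -/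
private def mpK {V : Type*} [AddCommGroup V] [Module ℝ V] (s : Set V) (n : ℕ) : Set V :=
  (fun x : (Fin n → ℝ) × (Fin n → V) => ∑ i, x.1 i • x.2 i) ''
    (stdSimplex ℝ (Fin n) ×ˢ Set.pi Set.univ (fun _ => s))

theorem isCompact_hull {V : Type*} [NormedAddCommGroup V] [NormedSpace ℝ V]
    [FiniteDimensional ℝ V] {s : Set V} (hs : IsCompact s) : IsCompact (convexHull ℝ s) := by
  have hK : ∀ n, IsCompact (mpK s n) := by
    intro n
    apply IsCompact.image
    · exact (isCompact_stdSimplex ℝ (Fin n)).prod (isCompact_univ_pi fun _ => hs)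
    · fun_prop
  have heq : convexHull ℝ s = ⋃ n ∈ Finset.range (Module.finrank ℝ V + 2), mpK s n := by
    apply Set.Subset.antisymm
    · intro x hx
      obtain ⟨ι, hι, z, w, hz, hai, hw, hw1, hx⟩ := eq_pos_convex_span_of_mem_convexHull hx
      have hcard : Fintype.card ι ≤ Module.finrank ℝ V + 1 := by
        refine hai.card_le_finrank_succ.trans ?_
        have := Submodule.finrank_le (vectorSpan ℝ (Set.range z))
        omega
      rw [Set.mem_iUnion₂]
      refine ⟨Fintype.card ι, Finset.mem_range.2 (by omega), ?_⟩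
      let e := Fintype.equivFin ι
      refine ⟨(fun i => w (e.symm i), fun i => z (e.symm i)), ⟨⟨fun i => (hw _).le, ?_⟩, ?_⟩, ?_⟩
      · rw [e.symm.sum_comp w]
        exact hw1
      · intro i _
        exact hz (Set.mem_range_self _)
      · simp only
        rw [e.symm.sum_comp (fun i => w i • z i)]
        exact hx
    · intro x hx
      rw [Set.mem_iUnion₂] at hx
      obtain ⟨n, -, ⟨w, z⟩, ⟨⟨hw0, hw1⟩, hz⟩, rfl⟩ := hx
      apply (convex_convexHull ℝ s).sum_mem (fun i _ => hw0 i) hw1
      intro i _
      exact subset_convexHull ℝ s (hz i (Set.mem_univ i))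
  rw [heq]
  exact (Finset.range _).isCompact_biUnion fun n _ => hK n

theorem minpoint {V : Type*} [NormedAddCommGroup V] [InnerProductSpace ℝ V]
    [FiniteDimensional ℝ V] {s : Set V} (hs : IsCompact s) (hne : s.Nonempty)
    (h0 : (0 : V) ∉ convexHull ℝ s) :
    ∃ v ∈ convexHull ℝ s, v ≠ 0 ∧ ∀ x ∈ s, ‖v‖ ^ 2 ≤ inner ℝ v x := by
  have hcomp := isCompact_hull hs
  obtain ⟨v, hv, hmin⟩ := exists_norm_eq_iInf_of_complete_convex
    (hne.mono (subset_convexHull ℝ s)) hcomp.isComplete (convex_convexHull ℝ s) 0
  rw [norm_eq_iInf_iff_real_inner_le_zero (convex_convexHull ℝ s) hv] at hmin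
  refine ⟨v, hv, fun h => h0 (h ▸ hv), fun x hx => ?_⟩
  have h1 := hmin x (subset_convexHull ℝ s hx)
  rw [zero_sub, inner_neg_left, inner_sub_right, real_inner_self_eq_norm_sq] at h1
  linarith

end Pool.MinMax
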