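import Pool.Agent.Work.MP_9667ca_an.Basics
import Pool.Agent.Work.MP_9667ca_an.Fejer
import Pool.Agent.Work.MP_9667ca_an.Defect
import Pool.Agent.Work.MP_9667ca_an.MinPoint

/-!
# MP_9667ca_an, module CTHREE: the degenerate case

`(1,0)` and `(0,1)` are contact points (so `‖a₁‖ ≤ 1`, `‖a₂‖ ≤ 1`), `Θ` = set of `ω` on the unit
circle with `N(1,ω)² = 2` (closed, so compact), `0 ∉ conv Θ`.  Put `φ(ω) = N(1,ω)² ≤ 2` on the
circle, `c = a₁⋆a₂` (`‖c‖ ≤ 1`, commutes with `b_j`, `b_j⋆`; so does `c⋆`), `S_j = a_j⋆a_j`,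
`B₀ = b₁⋆b₁ + b₂⋆b₂`, `β = b₁⋆b₂`, `Y = 2 - B₀ - c β - c⋆ β⋆`.
(1) `2 - T⋆T = Y + (1-S₁) B₁ + (1-S₂) B₂ ≥ Y` (`star_TT_mul_TT`, commuting products).
(2) For `|ω| = 1`: `2 - B₀ - ωβ - conj ω β⋆ = 2 - B(1,ω) ≥ 2 - φ(ω)` as `‖b(1,ω)‖ ≤ N 1 ω`.
(3) Compactness: if `h` is continuous on the unit circle and `h > 0` on `Θ` then there is
`C ≥ 0` with `h(ω) + C (2 - φ(ω)) ≥ 0` on the circle.
(4) If `Θ = ∅`: `2 - φ ≥ η > 0` on the circle, `fejer` (coefficients `2 - η - B₀`, `-β`, `-β⋆`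
with `k = 0, 1, -1`) gives `Y ≥ η`. Done.
(5) Otherwise let `v` be the point of `MinPoint` in `conv Θ`: `v ≠ 0`, `Re(conj v ω) ≥ |v|²` on `Θ`.
  (a) `h = 2 Re(conj v ω) - |v|²`: `fejer` with `k = 0, 1, -1` gives
      `conj v c + v c⋆ - |v|² + C₁ Y ≥ 0`.
  (b) Let `μ = |v|²/8`, `r(z) = (1 - τ conj u z)^n` with `u = v/|v|`; for `|ω| = 1`:
      `|r(ω)|² = (1 + τ² - 2τ Re(conj u ω))^n`, and `Re(conj u ω) ≥ |v|` on `Θ`; choose
      `0 < τ < 2|v|` (e.g. `τ = |v|`: base `≤ 1 - |v|²  < 1` and `≥ 0`) and `n` with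
      `|r|² < μ` on `Θ`. `h = μ - |r|²` gives, by `fejer` (index set `Fin 3 ⊕ (Fin (n+1) × Fin (n+1))`
      or similar), `Φ(|r|²) ≤ μ + C₂ Y` where `Φ(|r|²) = ∑ r_j conj r_l c^(j-l)`; with `defect`:
      `1 - c c⋆ ≤ μ + C₂ Y`. The same with `conj`-coefficients (`r(z) = (1 - τ u z)^n` in
      `defect_star`, whose right-hand side is the value of the same trigonometric polynomial
      `(1 + τ² - 2τ Re(conj u ω))^n`): `1 - c⋆ c ≤ μ + C₂' Y`.
  (c) `c c⋆ = a₁⋆ a₂ a₂⋆ a₁ ≤ S₁` and `c⋆ c = a₂⋆ a₁ a₁⋆ a₂ ≤ S₂`. So `2 - S₀ ≤ 2μ + (C₂ + C₂') Y`.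
  (d) For `ω ∈ Θ` the point `(1, ω)/√2` is a contact point, so `S(1, ω) = S₀ + conj ω c + ω c⋆ ≤ 2`;
      the set of `x ∈ ℂ` with `conj x c + x c⋆ ≤ 2 - S₀` is convex and contains `Θ`, so it
      contains `v`.
  (e) Hence `|v|² ≤ C₁ Y + conj v c + v c⋆ ≤ C₁ Y + 2 - S₀ ≤ 2μ + (C₁ + C₂ + C₂') Y`,
      `Y ≥ (3/4) |v|² / (C₁ + C₂ + C₂' + 1)` (`Y ≥ 0`). `η` depends on `N` only.
-/

namespace Pool.MinMax

open scoped ComplexConjugate

universe w

/-- The set of equatorial contact points. -/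
def Theta (N : ℂ → ℂ → ℝ) : Set ℂ := {ω : ℂ | ‖ω‖ = 1 ∧ N 1 ω ^ 2 = 2}

section scalar

variable {N : ℂ → ℂ → ℝ}

theorem ct_psi_nonneg (hN : Good N) {ω : ℂ} (hω : ‖ω‖ = 1) : 0 ≤ 2 - N 1 ω ^ 2 := by
  have := hN.le 1 ω
  rw [hω, norm_one] at this
  linarith

theorem ct_cont (hN : Good N) : Continuous fun ω : ℂ => N 1 ω :=
  hN.cont.comp (Continuous.prodMk continuous_const continuous_id)

/-- Compactness on the unit circle. -/
theorem ct_compact (hN : Good N) {h : ℂ → ℝ} (hh : Continuous h)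
    (hpos : ∀ ω ∈ Theta N, 0 < h ω) :
    ∃ C : ℝ, 0 ≤ C ∧ ∀ ω : ℂ, ‖ω‖ = 1 → 0 ≤ h ω + C * (2 - N 1 ω ^ 2) := by
  have hψ : Continuous fun ω : ℂ => 2 - N 1 ω ^ 2 := continuous_const.sub ((ct_cont hN).pow 2)
  set K : Set ℂ := Metric.sphere 0 1 ∩ {ω | h ω ≤ 0} with hK
  have hKc : IsCompact K := (isCompact_sphere 0 1).inter_right (isClosed_le hh continuous_const)
  rcases K.eq_empty_or_nonempty with hE | hE
  · refine ⟨0, le_rfl, fun ω hω => ?_⟩
    rw [zero_mul, add_zero]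
    by_contra hlt
    push Not at hlt
    have : ω ∈ K := ⟨by simpa using hω, hlt.le⟩
    rw [hE] at this
    exact this
  · obtain ⟨ω₁, h1, h1'⟩ := hKc.exists_isMinOn hE hψ.continuousOn
    obtain ⟨ω₂, h2, h2'⟩ := hKc.exists_isMinOn hE hh.continuousOn
    have hu1 : ‖ω₁‖ = 1 := by simpa using h1.1
    have hm : 0 < 2 - N 1 ω₁ ^ 2 := by
      refine lt_of_le_of_ne (ct_psi_nonneg hN hu1) fun h0 => ?_
      have : ω₁ ∈ Theta N := ⟨hu1, by linarith⟩
      have h3 := hpos _ this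
      have h4 : h ω₁ ≤ 0 := h1.2
      linarith
    have hM : h ω₂ ≤ 0 := h2.2
    refine ⟨-h ω₂ / (2 - N 1 ω₁ ^ 2), div_nonneg (by linarith) hm.le, fun ω hω => ?_⟩
    by_cases hωK : h ω ≤ 0
    · have hωm : ω ∈ K := ⟨by simpa using hω, hωK⟩
      have e1 : 2 - N 1 ω₁ ^ 2 ≤ 2 - N 1 ω ^ 2 := h1' hωm
      have e2 : h ω₂ ≤ h ω := h2' hωm
      have e3 : -h ω₂ / (2 - N 1 ω₁ ^ 2) * (2 - N 1 ω₁ ^ 2) = -h ω₂ := by
        field_simp
      have e4 : -h ω₂ / (2 - N 1 ω₁ ^ 2) * (2 - N 1 ω₁ ^ 2)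
          ≤ -h ω₂ / (2 - N 1 ω₁ ^ 2) * (2 - N 1 ω ^ 2) :=
        mul_le_mul_of_nonneg_left e1 (div_nonneg (by linarith) hm.le)
      linarith
    · push Not at hωK
      have := mul_nonneg (div_nonneg (by linarith : 0 ≤ -h ω₂) hm.le) (ct_psi_nonneg hN hω)
      linarith

end scalar

section alg

variable {A : Type*} [CStarAlgebra A]

/-- `Y = 2 - B₀ - β c - β⋆ c⋆` with `c = a₁⋆ a₂`. -/
noncomputable def ctY (a₁ a₂ b₁ b₂ : A) : A :=
  (2 : ℝ) • (1 : A) - (star b₁ * b₁ + star b₂ * b₂) - (star b₁ * b₂) * (star a₁ * a₂)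
    - (star b₂ * b₁) * (star a₂ * a₁)

theorem ct_star_left {x b : A} (h : Commute x (star b)) : Commute (star x) b := by
  have := h.star_star
  rwa [star_star] at this

variable [PartialOrder A] [StarOrderedRing A]

theorem ct_norm1 {N : ℂ → ℂ → ℝ} (h10 : N 1 0 = 1) {a₁ a₂ b₁ b₂ : A}
    (hd : Data N a₁ a₂ b₁ b₂) : ‖a₁‖ ≤ 1 := by
  have := hd.ha 1 0 (by simp) h10
  simpa [av] using this

theorem ct_norm2 {N : ℂ → ℂ → ℝ} (h01 : N 0 1 = 1) {a₁ a₂ b₁ b₂ : A}
    (hd : Data N a₁ a₂ b₁ b₂) : ‖a₂‖ ≤ 1 := by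
  have := hd.ha 0 1 (by simp) h01
  simpa [av] using this

/-- The general application of `fejer`. -/
theorem ct_fejer {N : ℂ → ℂ → ℝ} {a₁ a₂ b₁ b₂ : A} (hd : Data N a₁ a₂ b₁ b₂)
    (h10 : N 1 0 = 1) (h01 : N 0 1 = 1) {ι : Type} [Fintype ι]
    (g : ι → ℂ) (k : ι → ℤ) {m C : ℝ} (hC : 0 ≤ C)
    (hG : ∀ ω : ℂ, ‖ω‖ = 1 → ∃ y : ℝ, ∑ i, ω ^ (k i) * g i = y ∧
      0 ≤ y + m + C * (2 - N 1 ω ^ 2)) :
    0 ≤ ∑ i, g i • cz (star a₁ * a₂) (k i) + m • (1 : A) + C • ctY a₁ a₂ b₁ b₂ := by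
  have n1 := ct_norm1 h10 hd
  have n2 := ct_norm2 h01 hd
  have hc : ‖star a₁ * a₂‖ ≤ 1 := by
    refine (norm_mul_le _ _).trans ?_
    rw [norm_star]
    calc ‖a₁‖ * ‖a₂‖ ≤ 1 * 1 := mul_le_mul n1 n2 (norm_nonneg _) zero_le_one
      _ = 1 := one_mul 1
  have hsc : star (star a₁ * a₂) = star a₂ * a₁ := by rw [star_mul, star_star]
  have hcom := hd.com
  -- commutation of the b-part with c and c⋆
  have hx : ∀ x : A, (x = b₁ ∨ x = b₂ ∨ x = star b₁ ∨ x = star b₂) →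
      Commute x (star a₁ * a₂) ∧ Commute x (star (star a₁ * a₂)) := by
    intro x hx
    have key : Commute a₁ x ∧ Commute (star a₁) x ∧ Commute a₂ x ∧ Commute (star a₂) x := by
      rcases hx with rfl | rfl | rfl | rfl
      · exact ⟨hcom.h11, ct_star_left hcom.s11, hcom.h21, ct_star_left hcom.s21⟩
      · exact ⟨hcom.h12, ct_star_left hcom.s12, hcom.h22, ct_star_left hcom.s22⟩
      · exact ⟨hcom.s11, hcom.h11.star_star, hcom.s21, hcom.h21.star_star⟩
      · exact ⟨hcom.s12, hcom.h12.star_star, hcom.s22, hcom.h22.star_star⟩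
    obtain ⟨k1, k2, k3, k4⟩ := key
    rw [hsc]
    exact ⟨k2.symm.mul_right k3.symm, k4.symm.mul_right k1.symm⟩
  have x1 := hx b₁ (by simp)
  have x2 := hx b₂ (by simp)
  have x3 := hx (star b₁) (by simp)
  have x4 := hx (star b₂) (by simp)
  let F : ι ⊕ Fin 3 → A := Sum.elim (fun i => g i • (1 : A))
    ![m • (1 : A) + C • ((2 : ℝ) • (1 : A) - (star b₁ * b₁ + star b₂ * b₂)),
      -(C • (star b₁ * b₂)), -(C • (star b₂ * b₁))]
  let K : ι ⊕ Fin 3 → ℤ := Sum.elim k ![0, 1, -1]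
  have hF : ∀ (y : A), (Commute b₁ y ∧ Commute b₂ y ∧ Commute (star b₁) y ∧ Commute (star b₂) y) →
      ∀ i, Commute (F i) y := by
    rintro y ⟨y1, y2, y3, y4⟩ i
    rcases i with i | i
    · exact (Commute.one_left _).smul_left _
    · fin_cases i
      · exact ((Commute.one_left _).smul_left _).add_left (Commute.smul_left
          (((Commute.one_left _).smul_left _).sub_left ((y3.mul_left y1).add_left
            (y4.mul_left y2))) _)
      · exact ((y3.mul_left y2).smul_left _).neg_left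
      · exact ((y4.mul_left y1).smul_left _).neg_left
  have h := fejer F K hc (hF _ ⟨x1.1, x2.1, x3.1, x4.1⟩) (hF _ ⟨x1.2, x2.2, x3.2, x4.2⟩) ?_
  · rw [Fintype.sum_sum_type, Fin.sum_univ_three] at h
    simp only [F, K, Sum.elim_inl, Sum.elim_inr, Matrix.cons_val_zero, Matrix.cons_val_one,
      Matrix.cons_val, smul_mul_assoc, one_mul] at h
    have z0 : cz (star a₁ * a₂) 0 = 1 := by simp [cz]
    have z1 : cz (star a₁ * a₂) 1 = star a₁ * a₂ := by simp [cz]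
    have z2 : cz (star a₁ * a₂) (-1) = star a₂ * a₁ := by simp [cz]
    rw [z0, z1, z2, mul_one] at h
    refine h.trans (le_of_eq ?_)
    unfold ctY
    simp only [neg_mul, smul_mul_assoc]
    module
  · intro ω hω
    obtain ⟨y, hy, hy2⟩ := hG ω hω
    rw [Fintype.sum_sum_type, Fin.sum_univ_three]
    simp only [F, K, Sum.elim_inl, Sum.elim_inr, Matrix.cons_val_zero, Matrix.cons_val_one,
      Matrix.cons_val, smul_smul]
    rw [← Finset.sum_smul, hy]
    have hB : BB b₁ b₂ 1 ω ≤ (N 1 ω ^ 2) • (1 : A) :=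
      star_mul_self_le_smul (pow_le_pow_left₀ (norm_nonneg _) (hd.hb 1 ω) 2)
    have e : ((y : ℝ) : ℂ) • (1 : A) + (ω ^ (0 : ℤ) • (m • (1 : A) + C • ((2 : ℝ) • (1 : A)
        - (star b₁ * b₁ + star b₂ * b₂))) + ω ^ (1 : ℤ) • -(C • (star b₁ * b₂))
        + ω ^ (-1 : ℤ) • -(C • (star b₂ * b₁)))
        = (y + m + C * (2 - N 1 ω ^ 2)) • (1 : A)
          + C • ((N 1 ω ^ 2) • (1 : A) - BB b₁ b₂ 1 ω) := by
      have hinv : ω ^ (-1 : ℤ) = conj ω := by
        rw [zpow_neg_one, Complex.inv_def, Complex.normSq_eq_norm_sq, hω]; simp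
      have hωω : ω * conj ω = 1 := by rw [Complex.mul_conj', hω]; simp
      rw [BB_eq, hinv, hωω, zpow_zero, zpow_one, Complex.coe_smul]
      simp only [map_one, one_mul, one_smul]
      simp only [smul_comm ω, smul_comm (conj ω), smul_neg]
      module
    rw [e]
    exact add_nonneg (smul_nonneg hy2 zero_le_one) (smul_nonneg hC (sub_nonneg.2 hB))

theorem ct_final {N : ℂ → ℂ → ℝ} {a₁ a₂ b₁ b₂ : A} (hd : Data N a₁ a₂ b₁ b₂)
    (h10 : N 1 0 = 1) (h01 : N 0 1 = 1) {e K : ℝ} (hK : 0 < K)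
    (hY : e • (1 : A) ≤ K • ctY a₁ a₂ b₁ b₂) (he : e ≤ K) :
    ‖TT a₁ a₂ b₁ b₂‖ ^ 2 ≤ 2 - e / K := by
  have n1 := star_mul_self_le_one (ct_norm1 h10 hd)
  have n2 := star_mul_self_le_one (ct_norm2 h01 hd)
  have hcom := hd.com
  apply norm_sq_le_of_star_mul_self_le
  · have : e / K ≤ 1 := (div_le_one hK).2 he
    linarith
  have h1 : 0 ≤ (1 - star a₁ * a₁) * (star b₁ * b₁) := by
    refine Commute.mul_nonneg (sub_nonneg.2 n1) (star_mul_self_nonneg _) ?_
    exact (Commute.one_left _).sub_left (((hcom.h11.star_star).mul_left hcom.s11).mul_right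
      ((ct_star_left hcom.s11).mul_left hcom.h11))
  have h2 : 0 ≤ (1 - star a₂ * a₂) * (star b₂ * b₂) := by
    refine Commute.mul_nonneg (sub_nonneg.2 n2) (star_mul_self_nonneg _) ?_
    exact (Commute.one_left _).sub_left (((hcom.h22.star_star).mul_left hcom.s22).mul_right
      ((ct_star_left hcom.s22).mul_left hcom.h22))
  have h3 : (e / K) • (1 : A) ≤ ctY a₁ a₂ b₁ b₂ := by
    have := smul_le_smul_of_nonneg_left hY (inv_nonneg.2 hK.le)
    rw [smul_smul, smul_smul, inv_mul_cancel₀ hK.ne', one_smul, inv_mul_eq_div] at this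
    exact this
  have e1 : (star b₁ * b₂) * (star a₁ * a₂) = (star a₁ * a₂) * (star b₁ * b₂) :=
    ((((hcom.h11.star_star).mul_left hcom.s21).mul_right
      ((ct_star_left hcom.s12).mul_left hcom.h22)).symm).eq
  have e2 : (star b₂ * b₁) * (star a₂ * a₁) = (star a₂ * a₁) * (star b₂ * b₁) :=
    ((((hcom.h22.star_star).mul_left hcom.s12).mul_right
      ((ct_star_left hcom.s21).mul_left hcom.h11)).symm).eq
  rw [star_TT_mul_TT hcom]
  have h4 : (2 - e / K) • (1 : A) - ((star a₁ * a₁) * (star b₁ * b₁)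
      + (star a₂ * a₂) * (star b₂ * b₂) + (star a₁ * a₂) * (star b₁ * b₂)
      + (star a₂ * a₁) * (star b₂ * b₁))
      = (1 - star a₁ * a₁) * (star b₁ * b₁) + (1 - star a₂ * a₂) * (star b₂ * b₂)
        + (ctY a₁ a₂ b₁ b₂ - (e / K) • (1 : A)) := by
    unfold ctY
    rw [e1, e2, sub_mul, sub_mul, one_mul, one_mul]
    module
  rw [← sub_nonneg, h4]
  exact add_nonneg (add_nonneg h1 h2) (sub_nonneg.2 h3)

end alg

/-! ### the polynomial `(1 - v̄ z)^n` -/

/-- Coefficients of `(1 - x z)^n`. -/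
def ctr (x : ℂ) (n : ℕ) (j : ℕ) : ℂ := (-x) ^ j * (n.choose j : ℂ)

theorem ctr_zero (x : ℂ) (n : ℕ) : ctr x n 0 = 1 := by simp [ctr]

theorem ctr_sum (x ω : ℂ) (n : ℕ) :
    ∑ j ∈ Finset.range (n + 1), ctr x n j * ω ^ j = (1 - x * ω) ^ n := by
  have h := add_pow (-(x * ω)) 1 n
  rw [show -(x * ω) + 1 = 1 - x * ω by ring] at h
  rw [h]
  refine Finset.sum_congr rfl fun j _ => ?_
  rw [ctr, one_pow, mul_one, ← neg_mul, mul_pow]
  ring

theorem ctr_double (x ω : ℂ) (hω : ‖ω‖ = 1) (n : ℕ) :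
    ∑ i : Fin (n + 1) × Fin (n + 1), ω ^ (((i.1 : ℕ) : ℤ) - ((i.2 : ℕ) : ℤ))
      * (-(ctr x n i.1 * conj (ctr x n i.2))) = ((-(‖1 - x * ω‖ ^ (2 * n)) : ℝ) : ℂ) := by
  have hω0 : ω ≠ 0 := by
    intro h; rw [h, norm_zero] at hω; exact zero_ne_one hω
  have hinv : ∀ l : ℕ, (ω ^ l)⁻¹ = conj (ω ^ l) := by
    intro l
    rw [Complex.inv_def, Complex.normSq_eq_norm_sq, norm_pow, hω]; simp
  have h1 : ∀ i : Fin (n + 1) × Fin (n + 1), ω ^ (((i.1 : ℕ) : ℤ) - ((i.2 : ℕ) : ℤ))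
      * (-(ctr x n i.1 * conj (ctr x n i.2)))
      = -((ctr x n i.1 * ω ^ (i.1 : ℕ)) * conj (ctr x n i.2 * ω ^ (i.2 : ℕ))) := by
    intro i
    rw [zpow_sub₀ hω0, zpow_natCast, zpow_natCast, div_eq_mul_inv, hinv, map_mul]
    ring
  rw [Finset.sum_congr rfl fun i _ => h1 i, Finset.sum_neg_distrib, Fintype.sum_prod_type]
  have h2 : ∑ i : Fin (n + 1), ∑ l : Fin (n + 1),
      (ctr x n i * ω ^ (i : ℕ)) * conj (ctr x n l * ω ^ (l : ℕ))
      = (∑ i : Fin (n + 1), ctr x n i * ω ^ (i : ℕ))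
        * conj (∑ l : Fin (n + 1), ctr x n l * ω ^ (l : ℕ)) := by
    rw [map_sum, Finset.sum_mul_sum]
  rw [h2, ← Finset.sum_range (fun j => ctr x n j * ω ^ j), ctr_sum, Complex.mul_conj',
    norm_pow]
  push_cast
  ring

section alg2

variable {A : Type*} [CStarAlgebra A] [PartialOrder A] [StarOrderedRing A]

theorem ct_theta_le {N : ℂ → ℂ → ℝ} (hN : Good N) {a₁ a₂ b₁ b₂ : A}
    (hd : Data N a₁ a₂ b₁ b₂) {ω : ℂ} (hω : ω ∈ Theta N) :
    conj ω • (star a₁ * a₂) + ω • (star a₂ * a₁)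
      ≤ (2 : ℝ) • (1 : A) - (star a₁ * a₁ + star a₂ * a₂) := by
  obtain ⟨h1, h2⟩ := hω
  have hN1 : N 1 ω = √2 := by
    rw [← h2, Real.sqrt_sq (hN.nonneg _ _)]
  set s : ℂ := (((√2)⁻¹ : ℝ) : ℂ) with hs
  have hsn : ‖s‖ = (√2)⁻¹ := by
    rw [hs, Complex.norm_real, Real.norm_of_nonneg (by positivity)]
  have hs2 : ((√2)⁻¹ : ℝ) ^ 2 = 1 / 2 := by
    rw [inv_pow, Real.sq_sqrt (by norm_num)]; norm_num
  have h3 := hd.ha (s * 1) (s * ω) (by
    rw [norm_mul, norm_mul, hsn, h1, norm_one, mul_one, hs2]; norm_num) (by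
    rw [hN.homog, hsn, hN1]
    exact inv_mul_cancel₀ (by positivity))
  have h4 := star_mul_self_le_one h3
  have h5 : SS a₁ a₂ (s * 1) (s * ω) ≤ 1 := h4
  have hss : s * conj s = (1 / 2 : ℝ) := by
    rw [Complex.mul_conj', hsn]
    exact_mod_cast hs2
  have hωω : ω * conj ω = 1 := by rw [Complex.mul_conj', h1]; simp
  have h6 : SS a₁ a₂ (s * 1) (s * ω) = (1 / 2 : ℝ) • (star a₁ * a₁ + star a₂ * a₂
      + (conj ω • (star a₁ * a₂) + ω • (star a₂ * a₁))) := by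
    rw [SS_eq, ← Complex.coe_smul, ← hss]
    simp only [map_mul, map_one, mul_one, smul_add, smul_smul]
    have e1 : s * ω * (conj s * conj ω) = s * conj s := by
      rw [show s * ω * (conj s * conj ω) = s * conj s * (ω * conj ω) by ring, hωω, mul_one]
    rw [e1]
    have e2 : s * (conj s * conj ω) = s * conj s * conj ω := by ring
    have e3 : conj s * (s * ω) = s * conj s * ω := by ring
    rw [e2, e3]
    abel
  rw [h6] at h5
  have h7 := smul_le_smul_of_nonneg_left h5 (by norm_num : (0 : ℝ) ≤ 2)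
  rw [smul_smul] at h7
  norm_num at h7
  rw [le_sub_iff_add_le]
  refine le_trans (le_of_eq ?_) h7
  abel

theorem ct_hull_le {N : ℂ → ℂ → ℝ} (hN : Good N) {a₁ a₂ b₁ b₂ : A}
    (hd : Data N a₁ a₂ b₁ b₂) {v : ℂ} (hv : v ∈ convexHull ℝ (Theta N)) :
    conj v • (star a₁ * a₂) + v • (star a₂ * a₁)
      ≤ (2 : ℝ) • (1 : A) - (star a₁ * a₁ + star a₂ * a₂) := by
  set R : A := (2 : ℝ) • (1 : A) - (star a₁ * a₁ + star a₂ * a₂) with hR
  have hconv : Convex ℝ {x : ℂ | conj x • (star a₁ * a₂) + x • (star a₂ * a₁) ≤ R} := by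
    intro x hx y hy a b ha hb hab
    have h1 : conj (a • x + b • y) • (star a₁ * a₂) + (a • x + b • y) • (star a₂ * a₁)
        = a • (conj x • (star a₁ * a₂) + x • (star a₂ * a₁))
          + b • (conj y • (star a₁ * a₂) + y • (star a₂ * a₁)) := by
      simp only [map_add, Complex.real_smul, map_mul, Complex.conj_ofReal, add_smul, mul_smul,
        smul_add, Complex.coe_smul]
      abel
    show _ ≤ R
    rw [h1]
    have h2 : R = a • R + b • R := by rw [← add_smul, hab, one_smul]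
    rw [h2]
    exact add_le_add (smul_le_smul_of_nonneg_left hx ha) (smul_le_smul_of_nonneg_left hy hb)
  exact convexHull_min (fun ω hω => ct_theta_le hN hd hω) hconv hv

end alg2

theorem ct_theta_compact {N : ℂ → ℂ → ℝ} (hN : Good N) : IsCompact (Theta N) := by
  have h : Theta N = Metric.sphere (0 : ℂ) 1 ∩ {ω | N 1 ω ^ 2 = 2} := by
    ext ω; simp [Theta]
  rw [h]
  exact (isCompact_sphere 0 1).inter_right (isClosed_eq ((ct_cont hN).pow 2) continuous_const)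

theorem c3 {N : ℂ → ℂ → ℝ} (hN : Good N) (h10 : N 1 0 = 1) (h01 : N 0 1 = 1)
    (h0 : (0 : ℂ) ∉ convexHull ℝ {ω : ℂ | ‖ω‖ = 1 ∧ N 1 ω ^ 2 = 2}) : Concl.{w} N := by
  rcases (Theta N).eq_empty_or_nonempty with hE | hE
  · obtain ⟨C, hC, hC2⟩ := ct_compact hN (h := fun _ => -1) continuous_const
      (fun ω hω => by rw [hE] at hω; exact absurd hω (Set.notMem_empty _))
    refine ⟨1 / (C + 1), by positivity, fun A _ a₁ a₂ b₁ b₂ hd => ?_⟩
    let _ := CStarAlgebra.spectralOrder A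
    have _ := CStarAlgebra.spectralOrderedRing A
    have h1 := ct_fejer hd h10 h01 (ι := Fin 0) (fun _ => 0) (fun _ => 0) (m := -1) hC
      (fun ω hω => ⟨0, by simp, by simpa using hC2 ω hω⟩)
    have h2 := ct_fejer hd h10 h01 (ι := Fin 0) (fun _ => 0) (fun _ => 0) (m := 0) zero_le_one
      (fun ω hω => ⟨0, by simp, by simpa using ct_psi_nonneg hN hω⟩)
    simp only [Finset.univ_eq_empty, Finset.sum_empty, zero_add, zero_smul, one_smul,
      neg_smul] at h1 h2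
    refine ct_final hd h10 h01 (by positivity) ?_ (by linarith)
    rw [add_smul, one_smul, one_smul]
    have h3 := add_nonneg h1 h2
    rw [← sub_nonneg]
    refine h3.trans (le_of_eq ?_)
    abel
  · obtain ⟨v, hv, hv0, hv1⟩ := minpoint (ct_theta_compact hN) hE h0
    have hin : ∀ x : ℂ, inner ℝ v x = (conj v * x).re := by
      intro x
      rw [Complex.inner, mul_comm]
    have hvpos : 0 < ‖v‖ ^ 2 := by positivity
    have hvle : ‖v‖ ≤ 1 := by
      have h1 : convexHull ℝ (Theta N) ⊆ Metric.closedBall 0 1 :=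
        convexHull_min (fun ω hω => by simp [hω.1]) (convex_closedBall 0 1)
      simpa using h1 hv
    -- `|1 - v̄ ω|² = 1 + |v|² - 2 Re (v̄ ω)` on the circle
    have hnorm : ∀ ω : ℂ, ‖ω‖ = 1 → ‖1 - conj v * ω‖ ^ 2 = 1 + ‖v‖ ^ 2 - 2 * (conj v * ω).re := by
      intro ω hω
      rw [← Complex.normSq_eq_norm_sq, Complex.normSq_sub, Complex.normSq_mul,
        Complex.normSq_conj, Complex.normSq_eq_norm_sq v, Complex.normSq_eq_norm_sq ω, hω]
      simp
    obtain ⟨n, hn⟩ : ∃ n : ℕ, (1 - ‖v‖ ^ 2) ^ n < ‖v‖ ^ 2 / 8 :=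
      exists_pow_lt_of_lt_one (by positivity) (by linarith)
    obtain ⟨C₁, hC1, hC1'⟩ := ct_compact hN (h := fun ω => 2 * (conj v * ω).re - ‖v‖ ^ 2)
      (by fun_prop) (fun ω hω => by
        have := hv1 ω hω
        rw [hin] at this
        linarith)
    obtain ⟨C₂, hC2, hC2'⟩ := ct_compact hN
      (h := fun ω => ‖v‖ ^ 2 / 8 - ‖1 - conj v * ω‖ ^ (2 * n))
      (by fun_prop) (fun ω hω => by
        have h1 := hv1 ω hω
        rw [hin] at h1
        have h2 : ‖1 - conj v * ω‖ ^ 2 ≤ 1 - ‖v‖ ^ 2 := by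
          rw [hnorm ω hω.1]; linarith
        have h3 := pow_le_pow_left₀ (by positivity) h2 n
        rw [← pow_mul] at h3
        linarith)
    refine ⟨(3 / 4 * ‖v‖ ^ 2) / (C₁ + 2 * C₂ + 1), by positivity, fun A _ a₁ a₂ b₁ b₂ hd => ?_⟩
    let _ := CStarAlgebra.spectralOrder A
    have _ := CStarAlgebra.spectralOrderedRing A
    set Y := ctY a₁ a₂ b₁ b₂ with hY
    set c := star a₁ * a₂ with hc
    have hsc : star c = star a₂ * a₁ := by rw [hc, star_mul, star_star]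
    have n1 := ct_norm1 h10 hd
    have n2 := ct_norm2 h01 hd
    have hcn : ‖c‖ ≤ 1 := by
      refine (norm_mul_le _ _).trans ?_
      rw [norm_star]
      calc ‖a₁‖ * ‖a₂‖ ≤ 1 * 1 := mul_le_mul n1 n2 (norm_nonneg _) zero_le_one
        _ = 1 := one_mul 1
    -- Y ≥ 0
    have y0 : 0 ≤ Y := by
      have := ct_fejer hd h10 h01 (ι := Fin 0) (fun _ => 0) (fun _ => 0) (m := 0) zero_le_one
        (fun ω hω => ⟨0, by simp, by simpa using ct_psi_nonneg hN hω⟩)
      simpa using this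
    -- (a)
    have ya : 0 ≤ conj v • c + v • star c - (‖v‖ ^ 2) • (1 : A) + C₁ • Y := by
      have := ct_fejer hd h10 h01 (ι := Fin 2) ![conj v, v] ![1, -1] (m := -‖v‖ ^ 2) hC1
        (fun ω hω => ⟨2 * (conj v * ω).re, by
          have hinv : ω ^ (-1 : ℤ) = conj ω := by
            rw [zpow_neg_one, Complex.inv_def, Complex.normSq_eq_norm_sq, hω]; simp
          rw [Fin.sum_univ_two]
          simp only [Matrix.cons_val_zero, Matrix.cons_val_one, zpow_one, hinv]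
          have := Complex.add_conj (conj v * ω)
          rw [map_mul, Complex.conj_conj] at this
          rw [mul_comm ω, mul_comm (conj ω) v, this], by
          have := hC1' ω hω
          linarith⟩)
      rw [Fin.sum_univ_two] at this
      simp only [Matrix.cons_val_zero, Matrix.cons_val_one] at this
      have z1 : cz (star a₁ * a₂) 1 = star a₁ * a₂ := by simp [cz]
      have z2 : cz (star a₁ * a₂) (-1) = star a₂ * a₁ := by simp [cz]
      rw [z1, z2, neg_smul] at this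
      rw [hsc, sub_eq_add_neg]
      exact this
    -- (b)
    set Φ : A := ∑ j ∈ Finset.range (n + 1), ∑ l ∈ Finset.range (n + 1),
          (ctr (conj v) n j * conj (ctr (conj v) n l)) • cz c ((j : ℤ) - l) with hΦ
    have yb : Φ ≤ (‖v‖ ^ 2 / 8) • (1 : A) + C₂ • Y := by
      have := ct_fejer hd h10 h01 (ι := Fin (n + 1) × Fin (n + 1))
        (fun i => -(ctr (conj v) n i.1 * conj (ctr (conj v) n i.2)))
        (fun i => ((i.1 : ℕ) : ℤ) - ((i.2 : ℕ) : ℤ)) (m := ‖v‖ ^ 2 / 8) hC2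
        (fun ω hω => ⟨-(‖1 - conj v * ω‖ ^ (2 * n)), ctr_double (conj v) ω hω n, by
          have := hC2' ω hω
          linarith⟩)
      rw [Fintype.sum_prod_type] at this
      simp only [neg_smul, Finset.sum_neg_distrib] at this
      rw [hΦ, Finset.sum_range fun j => ∑ l ∈ Finset.range (n + 1),
          (ctr (conj v) n j * conj (ctr (conj v) n l)) • cz c ((j : ℤ) - l)]
      simp only [Finset.sum_range fun l =>
        (ctr (conj v) n _ * conj (ctr (conj v) n l)) • cz c (_ - (l : ℤ))]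
      rw [← sub_nonneg]
      refine this.trans (le_of_eq ?_)
      abel
    have d1 : 1 - c * star c ≤ Φ := defect hcn n _ (ctr_zero _ _)
    have d2 : 1 - star c * c ≤ Φ := by
      have h := defect_star hcn n (ctr v n) (ctr_zero _ _)
      refine h.trans (le_of_eq ?_)
      rw [Finset.sum_comm, hΦ]
      refine Finset.sum_congr rfl fun j _ => Finset.sum_congr rfl fun l _ => ?_
      have hct : ∀ j : ℕ, conj (ctr v n j) = ctr (conj v) n j := by
        intro j; simp [ctr]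
      have hct' : ∀ j : ℕ, conj (ctr (conj v) n j) = ctr v n j := by
        intro j; simp [ctr]
      rw [hct, hct', mul_comm]
    -- (c)
    have e1 : c * star c ≤ star a₁ * a₁ := by
      have h1 : a₂ * star a₂ ≤ 1 := by
        have := star_mul_self_le_one (x := star a₂) (by rwa [norm_star])
        rwa [star_star] at this
      have h2 := star_left_conjugate_le_conjugate h1 a₁
      rw [mul_one] at h2
      refine le_trans (le_of_eq ?_) h2
      rw [hsc, hc]; simp only [mul_assoc]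
    have e2 : star c * c ≤ star a₂ * a₂ := by
      have h1 : a₁ * star a₁ ≤ 1 := by
        have := star_mul_self_le_one (x := star a₁) (by rwa [norm_star])
        rwa [star_star] at this
      have h2 := star_left_conjugate_le_conjugate h1 a₂
      rw [mul_one] at h2
      refine le_trans (le_of_eq ?_) h2
      rw [hsc, hc]; simp only [mul_assoc]
    -- (d)
    have yd := ct_hull_le hN hd hv
    rw [← hc, ← hsc] at yd
    -- (e)
    have hv2 : ‖v‖ ^ 2 ≤ 1 := pow_le_one₀ (norm_nonneg _) hvle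
    refine ct_final hd h10 h01 (K := C₁ + 2 * C₂ + 1) (by positivity) ?_ (by linarith)
    have hsum := add_nonneg (add_nonneg (add_nonneg (add_nonneg (add_nonneg (add_nonneg
      (add_nonneg ya (sub_nonneg.2 yd)) (sub_nonneg.2 yb)) (sub_nonneg.2 yb)) (sub_nonneg.2 d1))
      (sub_nonneg.2 d2)) (sub_nonneg.2 (add_le_add e1 e2))) y0
    rw [← sub_nonneg]
    refine hsum.trans (le_of_eq ?_)
    rw [← hY]
    module

end Pool.MinMax
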