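import Pool.Agent.Work.MP_9667ca_an.Basics

/-!
# MP_9667ca_an, module INVAR: rotation invariance and the six-point sum

Purely algebraic identities in a C⋆-algebra (expand with `SS_eq`, `BB_eq`, `star_TT_mul_TT`).

* `dd_six`: with `S₀ = a₁⋆a₁ + a₂⋆a₂`, `B₀ = b₁⋆b₁ + b₂⋆b₂`:
  `¼ (D(1,1) + D(1,-1)) + ¼ (D(1,i) + D(1,-i)) + D(1,0) + D(0,1) = 3 S₀ - S₀ B₀ - T⋆T`.
  Proof: `S(1,±1) = S₀ ± (s + s⋆)`, `B(1,±1) = B₀ ± (β + β⋆)` with `s = a₁⋆a₂`, `β = b₁⋆b₂`,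
  `S(1,±i) = S₀ ± (-i) (s - s⋆)`, `B(1,±i) = B₀ ± i (β - β⋆)` (see `SS_eq`, `BB_eq`); multiply out.
* `TT_rot`, `S0_rot`, `B0_rot`: invariance of `T`, `S₀`, `B₀` under the unitary change of
  coordinates with `u₁ = (u, v)`, `u₂ = z (-conj v, conj u)`.
* `DD_rot`: `D` of the rotated quadruple at `(p, q)` is `D` at `p u₁ + q u₂`.
* `Com.rot`.
* `dd_le`: for a unit vector `(u, v)`: `D(u, v) ≤` the six-point sum.  Proof: apply `dd_six` to the
  rotated quadruple (`z = 1`), whose `D(1,0)` is `D(u,v)`; the other five terms are `≥ 0` by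
  `dd_nonneg` (the rotated `b` satisfies the same bound), and the right-hand side
  `3 S₀ - S₀ B₀ - T⋆T` is invariant.
-/

namespace Pool.MinMax

open scoped ComplexConjugate
open Complex (I)

variable {A : Type*} [CStarAlgebra A]

/-- The six-point sum. -/
noncomputable def six (a₁ a₂ b₁ b₂ : A) : A :=
  (1 / 4 : ℝ) • (DD a₁ a₂ b₁ b₂ 1 1 + DD a₁ a₂ b₁ b₂ 1 (-1))
    + (1 / 4 : ℝ) • (DD a₁ a₂ b₁ b₂ 1 I + DD a₁ a₂ b₁ b₂ 1 (-I))
    + (DD a₁ a₂ b₁ b₂ 1 0 + DD a₁ a₂ b₁ b₂ 0 1)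

private theorem nsq (z : ℂ) : ((‖z‖ ^ 2 : ℝ) : ℂ) = z * conj z := by
  rw [Complex.mul_conj, Complex.normSq_eq_norm_sq]

private theorem one_of {u v : ℂ} (huv : ‖u‖ ^ 2 + ‖v‖ ^ 2 = 1) : u * conj u + v * conj v = 1 := by
  rw [← nsq, ← nsq]
  exact_mod_cast huv

private theorem one_of' {z : ℂ} (hz : ‖z‖ = 1) : z * conj z = 1 := by
  rw [← nsq, hz]
  norm_num

theorem dd_six {a₁ a₂ b₁ b₂ : A} (h : Com a₁ a₂ b₁ b₂) :
    six a₁ a₂ b₁ b₂ = (3 : ℝ) • (star a₁ * a₁ + star a₂ * a₂)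
      - (star a₁ * a₁ + star a₂ * a₂) * (star b₁ * b₁ + star b₂ * b₂)
      - star (TT a₁ a₂ b₁ b₂) * TT a₁ a₂ b₁ b₂ := by
  rw [star_TT_mul_TT h]
  unfold six DD
  simp only [SS_eq, BB_eq]
  generalize star a₁ * a₁ = S1
  generalize star a₂ * a₂ = S2
  generalize star a₁ * a₂ = s
  generalize star a₂ * a₁ = s'
  generalize star b₁ * b₁ = B1
  generalize star b₂ * b₂ = B2
  generalize star b₁ * b₂ = t
  generalize star b₂ * b₁ = t'
  have n1 : ‖(1 : ℂ)‖ = 1 := norm_one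
  have n2 : ‖(-1 : ℂ)‖ = 1 := by rw [norm_neg, norm_one]
  have n3 : ‖I‖ = 1 := Complex.norm_I
  have n4 : ‖-I‖ = 1 := by rw [norm_neg, Complex.norm_I]
  have n5 : ‖(0 : ℂ)‖ = 0 := norm_zero
  simp only [n1, n2, n3, n4, n5, map_one, map_neg, Complex.conj_I, map_zero, mul_one, one_mul,
    mul_neg, neg_mul, neg_neg, Complex.I_mul_I, mul_zero, zero_mul, one_smul, zero_smul, add_zero,
    zero_add, one_pow, neg_smul]
  norm_num
  simp only [mul_add, add_mul, mul_sub, sub_mul, mul_neg, neg_mul, smul_mul_assoc, mul_smul_comm,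
    mul_one, one_mul, smul_add, smul_sub, smul_neg, smul_smul, neg_neg, Complex.I_mul_I]
  module

theorem TT_rot (a₁ a₂ b₁ b₂ : A) {u v z : ℂ} (huv : ‖u‖ ^ 2 + ‖v‖ ^ 2 = 1) (hz : ‖z‖ = 1) :
    TT (av a₁ a₂ u v) (av a₁ a₂ (-(z * conj v)) (z * conj u))
      (bv b₁ b₂ u v) (bv b₁ b₂ (-(z * conj v)) (z * conj u)) = TT a₁ a₂ b₁ b₂ := by
  have h1 := one_of huv
  have h2 := one_of' hz
  unfold TT av bv
  simp only [map_neg, map_mul, Complex.conj_conj, add_mul, mul_add, smul_mul_assoc,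
    mul_smul_comm]
  have e1 : ∀ x : A, (u * conj u + (z * conj z) * (v * conj v)) • x = x := by
    intro x
    rw [h2, one_mul, h1, one_smul]
  have e2 : ∀ x : A, (v * conj v + (z * conj z) * (u * conj u)) • x = x := by
    intro x
    rw [h2, one_mul, add_comm, h1, one_smul]
  have e3 : ∀ x : A, (v * conj u - (z * conj z) * (v * conj u)) • x = 0 := by
    intro x
    rw [h2, one_mul, sub_self, zero_smul]
  have e4 : ∀ x : A, (u * conj v - (z * conj z) * (u * conj v)) • x = 0 := by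
    intro x
    rw [h2, one_mul, sub_self, zero_smul]
  have f1 := e1 (a₁ * b₁)
  have f2 := e2 (a₂ * b₂)
  have f3 := e3 (a₁ * b₂)
  have f4 := e4 (a₂ * b₁)
  refine Eq.trans (b := (u * conj u + (z * conj z) * (v * conj v)) • (a₁ * b₁) +
    (v * conj v + (z * conj z) * (u * conj u)) • (a₂ * b₂) +
    (v * conj u - (z * conj z) * (v * conj u)) • (a₁ * b₂) +
    (u * conj v - (z * conj z) * (u * conj v)) • (a₂ * b₁)) ?_ ?_
  · module
  · rw [f1, f2, f3, f4, add_zero, add_zero]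

theorem S0_rot (a₁ a₂ : A) {u v z : ℂ} (huv : ‖u‖ ^ 2 + ‖v‖ ^ 2 = 1) (hz : ‖z‖ = 1) :
    SS a₁ a₂ u v + SS a₁ a₂ (-(z * conj v)) (z * conj u) = star a₁ * a₁ + star a₂ * a₂ := by
  have h1 := one_of huv
  have h2 := one_of' hz
  rw [SS_eq, SS_eq]
  simp only [map_neg, map_mul, Complex.conj_conj]
  have c1 : -(z * conj v) * -(conj z * v) = v * conj v := by linear_combination (v * conj v) * h2
  have c2 : z * conj u * (conj z * u) = u * conj u := by linear_combination (u * conj u) * h2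
  have c3 : -(z * conj v) * (conj z * u) = -(u * conj v) := by
    linear_combination (-(u * conj v)) * h2
  have c4 : -(conj z * v) * (z * conj u) = -(conj u * v) := by
    linear_combination (-(conj u * v)) * h2
  rw [c1, c2, c3, c4]
  have e1 : ∀ x : A, x = (u * conj u + v * conj v) • x := by
    intro x
    rw [h1, one_smul]
  conv_rhs => rw [e1 (star a₁ * a₁), e1 (star a₂ * a₂)]
  module

theorem B0_rot (b₁ b₂ : A) {u v z : ℂ} (huv : ‖u‖ ^ 2 + ‖v‖ ^ 2 = 1) (hz : ‖z‖ = 1) :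
    BB b₁ b₂ u v + BB b₁ b₂ (-(z * conj v)) (z * conj u) = star b₁ * b₁ + star b₂ * b₂ := by
  have h1 := one_of huv
  have h2 := one_of' hz
  rw [BB_eq, BB_eq]
  simp only [map_neg, map_mul, Complex.conj_conj]
  have c1 : -(z * conj v) * -(conj z * v) = v * conj v := by linear_combination (v * conj v) * h2
  have c2 : z * conj u * (conj z * u) = u * conj u := by linear_combination (u * conj u) * h2
  have c3 : -(z * conj v) * (conj z * u) = -(u * conj v) := by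
    linear_combination (-(u * conj v)) * h2
  have c4 : -(conj z * v) * (z * conj u) = -(conj u * v) := by
    linear_combination (-(conj u * v)) * h2
  rw [c1, c2, c3, c4]
  have e1 : ∀ x : A, x = (u * conj u + v * conj v) • x := by
    intro x
    rw [h1, one_smul]
  conv_rhs => rw [e1 (star b₁ * b₁), e1 (star b₂ * b₂)]
  module

theorem av_rot (a₁ a₂ : A) (u v z p q : ℂ) :
    av (av a₁ a₂ u v) (av a₁ a₂ (-(z * conj v)) (z * conj u)) p q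
      = av a₁ a₂ (p * u - q * (z * conj v)) (p * v + q * (z * conj u)) := by
  unfold av
  simp only [map_neg, map_mul, map_sub, map_add, Complex.conj_conj]
  module

theorem bv_rot (b₁ b₂ : A) (u v z p q : ℂ) :
    bv (bv b₁ b₂ u v) (bv b₁ b₂ (-(z * conj v)) (z * conj u)) p q
      = bv b₁ b₂ (p * u - q * (z * conj v)) (p * v + q * (z * conj u)) := by
  unfold bv
  module

theorem DD_rot (a₁ a₂ b₁ b₂ : A) {u v z : ℂ} (huv : ‖u‖ ^ 2 + ‖v‖ ^ 2 = 1) (hz : ‖z‖ = 1)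
    (p q : ℂ) :
    DD (av a₁ a₂ u v) (av a₁ a₂ (-(z * conj v)) (z * conj u))
      (bv b₁ b₂ u v) (bv b₁ b₂ (-(z * conj v)) (z * conj u)) p q
      = DD a₁ a₂ b₁ b₂ (p * u - q * (z * conj v)) (p * v + q * (z * conj u)) := by
  have h1 := one_of huv
  have h2 := one_of' hz
  have hn : ‖p‖ ^ 2 + ‖q‖ ^ 2 =
      ‖p * u - q * (z * conj v)‖ ^ 2 + ‖p * v + q * (z * conj u)‖ ^ 2 := by
    have : ((‖p‖ ^ 2 + ‖q‖ ^ 2 : ℝ) : ℂ) =
        ((‖p * u - q * (z * conj v)‖ ^ 2 + ‖p * v + q * (z * conj u)‖ ^ 2 : ℝ) : ℂ) := by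
      rw [Complex.ofReal_add, Complex.ofReal_add, nsq, nsq, nsq, nsq]
      simp only [map_mul, map_sub, map_add, Complex.conj_conj]
      linear_combination (-(p * conj p) - (q * conj q) * (z * conj z)) * h1 - (q * conj q) * h2
    exact_mod_cast this
  unfold DD SS BB
  rw [av_rot, bv_rot, hn]

theorem Com.rot {a₁ a₂ b₁ b₂ : A} (h : Com a₁ a₂ b₁ b₂) (p q r s p' q' r' s' : ℂ) :
    Com (av a₁ a₂ p q) (av a₁ a₂ p' q') (bv b₁ b₂ r s) (bv b₁ b₂ r' s') where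
  h11 := h.av_bv _ _ _ _
  h12 := h.av_bv _ _ _ _
  h21 := h.av_bv _ _ _ _
  h22 := h.av_bv _ _ _ _
  s11 := h.av_star_bv _ _ _ _
  s12 := h.av_star_bv _ _ _ _
  s21 := h.av_star_bv _ _ _ _
  s22 := h.av_star_bv _ _ _ _

theorem dd_le [PartialOrder A] [StarOrderedRing A] {a₁ a₂ b₁ b₂ : A} (h : Com a₁ a₂ b₁ b₂)
    (hb : ∀ p q : ℂ, ‖bv b₁ b₂ p q‖ ^ 2 ≤ ‖p‖ ^ 2 + ‖q‖ ^ 2) {u v : ℂ}
    (huv : ‖u‖ ^ 2 + ‖v‖ ^ 2 = 1) : DD a₁ a₂ b₁ b₂ u v ≤ six a₁ a₂ b₁ b₂ := by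
  have h1 := one_of huv
  have hz : ‖(1 : ℂ)‖ = 1 := norm_one
  set a₁' := av a₁ a₂ u v with ha1
  set a₂' := av a₁ a₂ (-(1 * conj v)) (1 * conj u) with ha2
  set b₁' := bv b₁ b₂ u v with hb1
  set b₂' := bv b₁ b₂ (-(1 * conj v)) (1 * conj u) with hb2
  have hC : Com a₁' a₂' b₁' b₂' := h.rot _ _ _ _ _ _ _ _
  have hrot : ∀ p q, DD a₁' a₂' b₁' b₂' p q =
      DD a₁ a₂ b₁ b₂ (p * u - q * (1 * conj v)) (p * v + q * (1 * conj u)) := fun p q =>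
    DD_rot a₁ a₂ b₁ b₂ huv hz p q
  have hnn : ∀ p q, 0 ≤ DD a₁' a₂' b₁' b₂' p q := by
    intro p q
    rw [hrot]
    exact dd_nonneg h hb _ _
  have hsix : six a₁' a₂' b₁' b₂' = six a₁ a₂ b₁ b₂ := by
    rw [dd_six hC, dd_six h]
    have e1 : star a₁' * a₁' + star a₂' * a₂' = star a₁ * a₁ + star a₂ * a₂ :=
      S0_rot a₁ a₂ huv hz
    have e2 : star b₁' * b₁' + star b₂' * b₂' = star b₁ * b₁ + star b₂ * b₂ :=
      B0_rot b₁ b₂ huv hz
    have e3 : TT a₁' a₂' b₁' b₂' = TT a₁ a₂ b₁ b₂ := TT_rot a₁ a₂ b₁ b₂ huv hz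
    rw [e1, e2, e3]
  have h10 : DD a₁' a₂' b₁' b₂' 1 0 = DD a₁ a₂ b₁ b₂ u v := by
    rw [hrot]
    simp
  rw [← hsix, ← h10]
  unfold six
  have n1 : 0 ≤ (1 / 4 : ℝ) • (DD a₁' a₂' b₁' b₂' 1 1 + DD a₁' a₂' b₁' b₂' 1 (-1)) :=
    smul_nonneg (by norm_num) (add_nonneg (hnn _ _) (hnn _ _))
  have n2 : 0 ≤ (1 / 4 : ℝ) • (DD a₁' a₂' b₁' b₂' 1 I + DD a₁' a₂' b₁' b₂' 1 (-I)) :=
    smul_nonneg (by norm_num) (add_nonneg (hnn _ _) (hnn _ _))
  calc DD a₁' a₂' b₁' b₂' 1 0 ≤ DD a₁' a₂' b₁' b₂' 1 0 + DD a₁' a₂' b₁' b₂' 0 1 :=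
        le_add_of_nonneg_right (hnn _ _)
    _ ≤ _ := le_add_of_nonneg_left (add_nonneg n1 n2)

end Pool.MinMax
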