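import Pool.Agent.Work.MP_9667ca_an.Basics

/-!
# MP_9667ca_an, module SZERO: `S₀ ≤ 2` for a balanced family

`∑ c_i S(x_i) = S₀` (expand `SS_eq`, use the moments of `Bal`; `∑ c_i conj p_i q_i = 0` is the
conjugate of `sumr`), `S(x_i) ≤ 1` (`star_mul_self_le_one`) and `∑ c_i = 2` (from `unit`, `sump`,
`sumq`).
-/

namespace Pool.MinMax

open scoped ComplexConjugate

variable {A : Type*} [CStarAlgebra A]

theorem Bal.sumc {ι : Type} [Fintype ι] {c : ι → ℝ} {p q : ι → ℂ} (hB : Bal c p q) :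
    ∑ i, c i = 2 := by
  calc ∑ i, c i = ∑ i, (c i * ‖p i‖ ^ 2 + c i * ‖q i‖ ^ 2) := by
        refine Finset.sum_congr rfl fun i _ => ?_
        rw [← mul_add, hB.unit i, mul_one]
    _ = 2 := by
        rw [Finset.sum_add_distrib, hB.sump, hB.sumq]
        norm_num

theorem s0_eq {ι : Type} [Fintype ι] {c : ι → ℝ} {p q : ι → ℂ} (hB : Bal c p q) (a₁ a₂ : A) :
    ∑ i, c i • SS a₁ a₂ (p i) (q i) = star a₁ * a₁ + star a₂ * a₂ := by
  have hnsq : ∀ z : ℂ, z * conj z = ((‖z‖ ^ 2 : ℝ) : ℂ) := by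
    intro z
    rw [Complex.mul_conj, Complex.normSq_eq_norm_sq]
  have h1 : ∀ i, c i • SS a₁ a₂ (p i) (q i) =
      (((c i * ‖p i‖ ^ 2 : ℝ) : ℂ)) • (star a₁ * a₁) +
        (((c i * ‖q i‖ ^ 2 : ℝ) : ℂ)) • (star a₂ * a₂) +
        ((c i : ℂ) * (p i * conj (q i))) • (star a₁ * a₂) +
        (conj ((c i : ℂ) * (p i * conj (q i)))) • (star a₂ * a₁) := by
    intro i
    rw [SS_eq, hnsq, hnsq, ← Complex.coe_smul]
    simp only [map_mul, Complex.conj_conj, Complex.conj_ofReal, Complex.ofReal_mul]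
    module
  rw [Finset.sum_congr rfl fun i _ => h1 i]
  simp only [Finset.sum_add_distrib, ← Finset.sum_smul]
  rw [← Complex.ofReal_sum, ← Complex.ofReal_sum, hB.sump, hB.sumq, ← map_sum, hB.sumr]
  simp

theorem s0_le [PartialOrder A] [StarOrderedRing A] {ι : Type} [Fintype ι] {c : ι → ℝ}
    {p q : ι → ℂ} (hB : Bal c p q) {a₁ a₂ : A} (ha : ∀ i, ‖av a₁ a₂ (p i) (q i)‖ ≤ 1) :
    star a₁ * a₁ + star a₂ * a₂ ≤ (2 : ℝ) • (1 : A) := by
  rw [← s0_eq hB a₁ a₂, ← hB.sumc, Finset.sum_smul]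
  refine Finset.sum_le_sum fun i _ => ?_
  exact smul_le_smul_of_nonneg_left (star_mul_self_le_one (ha i)) (hB.pos i).le

end Pool.MinMax
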