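import Pool.Agent.Work.MP_9667ca_an.Basics

/-!
# MP_9667ca_an, module UONE: slack at a non-contact point gives a strict inequality

`e = (u, v)`, `e' = (-conj v, conj u)`, `x = a(e)`, `y = a(e')`, `b = b(e)`, `b' = b(e')`;
`T = x b + y b'`.  Let `ν = N u v < 1`: `b⋆b ≤ ν²`, so `D(u,v) = x⋆x (1 - b⋆b) ≥ (1-ν²) x⋆x` and
(1) `T⋆T + δ' x⋆x ≤ 2` with `δ' = δ (1-ν²) > 0`.
(2) `(y b')⋆(y b') = y⋆y b'⋆b' ≤ X` with `1 ≤ X < 2`: let `ν' = N(e') ≤ 1`. If `ν' = 1` then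
`‖y‖ ≤ 1`, `X = 1`. If `ν' < 1`: `b'⋆b' ≤ ν'²` and `y⋆y ≤ x⋆x + y⋆y = S₀ ≤ 2`,
`X = max 1 (2 ν'²)`.
(3) `(x b)⋆(x b) = x⋆x b⋆b ≤ x⋆x`. For `t > 0`:
`T⋆T ≤ (1+t) (y b')⋆(y b') + (1+1/t) (x b)⋆(x b) ≤ (1+t) X + (1+1/t) x⋆x`. Take
`t = (2-X)/(2X)`, so `(1+t) X = (2+X)/2 < 2`.
(4) With `κ = (1+1/t)/δ'`: adding `κ` times (1): `(1+κ) T⋆T ≤ (2+X)/2 + 2κ`, i.e.
`T⋆T ≤ 2 - ((2-X)/2)/(1+κ)`. So `η = ((2-X)/2)/(1+κ)`, which depends on `N, u, v, δ` only.
-/

namespace Pool.MinMax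

open scoped ComplexConjugate

universe w

private theorem uo_sq (w : ℂ) : ((‖w‖ ^ 2 : ℝ) : ℂ) = w * conj w := by
  rw [Complex.mul_conj, Complex.normSq_eq_norm_sq]

private theorem uo_TT {A : Type*} [CStarAlgebra A] (a₁ a₂ b₁ b₂ : A) {u v : ℂ}
    (huv : ‖u‖ ^ 2 + ‖v‖ ^ 2 = 1) :
    TT a₁ a₂ b₁ b₂ = av a₁ a₂ u v * bv b₁ b₂ u v +
      av a₁ a₂ (-conj v) (conj u) * bv b₁ b₂ (-conj v) (conj u) := by
  have g1 : u * conj u + v * conj v = 1 := by
    rw [← uo_sq, ← uo_sq]; exact_mod_cast huv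
  unfold TT av bv
  simp only [map_neg, Complex.conj_conj, add_mul, mul_add, smul_mul_assoc,
    mul_smul_comm, smul_smul]
  match_scalars
  all_goals first | linear_combination g1 | linear_combination -g1 | ring

private theorem uo_SS {A : Type*} [CStarAlgebra A] (a₁ a₂ : A) {u v : ℂ}
    (huv : ‖u‖ ^ 2 + ‖v‖ ^ 2 = 1) :
    star (av a₁ a₂ u v) * av a₁ a₂ u v +
      star (av a₁ a₂ (-conj v) (conj u)) * av a₁ a₂ (-conj v) (conj u) =
      star a₁ * a₁ + star a₂ * a₂ := by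
  have g1 : u * conj u + v * conj v = 1 := by
    rw [← uo_sq, ← uo_sq]; exact_mod_cast huv
  unfold av
  simp only [star_add, star_smul, RCLike.star_def, map_neg, Complex.conj_conj, add_mul, mul_add,
    smul_mul_assoc, mul_smul_comm, smul_smul]
  match_scalars
  all_goals first | linear_combination g1 | linear_combination -g1 | ring

theorem u1 {N : ℂ → ℂ → ℝ} (hN : Good N) {u v : ℂ} (huv : ‖u‖ ^ 2 + ‖v‖ ^ 2 = 1)
    (hlt : N u v < 1) {δ : ℝ} (hδ : 0 < δ) :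
    ∃ η : ℝ, 0 < η ∧ ∀ (A : Type w) [CStarAlgebra A] [PartialOrder A] [StarOrderedRing A]
      (a₁ a₂ b₁ b₂ : A), Data N a₁ a₂ b₁ b₂ →
      star a₁ * a₁ + star a₂ * a₂ ≤ (2 : ℝ) • (1 : A) →
      star (TT a₁ a₂ b₁ b₂) * TT a₁ a₂ b₁ b₂ + δ • DD a₁ a₂ b₁ b₂ u v ≤ (2 : ℝ) • (1 : A) →
      star (TT a₁ a₂ b₁ b₂) * TT a₁ a₂ b₁ b₂ ≤ (2 - η) • (1 : A) := by
  classical
  set ν := N u v with hν
  have hν0 : 0 ≤ ν := hN.nonneg u v
  set ν' := N (-conj v) (conj u) with hν'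
  have hν'0 : 0 ≤ ν' := hN.nonneg _ _
  have hunit' : ‖-conj v‖ ^ 2 + ‖conj u‖ ^ 2 = 1 := by
    rw [norm_neg, RCLike.norm_conj, RCLike.norm_conj]; linarith
  have hν'1 : ν' ≤ 1 := by
    have h1 := hN.le (-conj v) (conj u)
    rw [hunit'] at h1
    nlinarith
  set X : ℝ := if ν' = 1 then 1 else max 1 (2 * ν' ^ 2) with hX
  have hX1 : 1 ≤ X := by rw [hX]; split_ifs; exact le_rfl; exact le_max_left _ _
  have hX2 : X < 2 := by
    rw [hX]; split_ifs with h
    · norm_num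
    · have h1 : ν' < 1 := lt_of_le_of_ne hν'1 h
      refine max_lt (by norm_num) ?_
      nlinarith
  set t : ℝ := (2 - X) / (2 * X) with ht
  have ht0 : 0 < t := div_pos (by linarith) (by linarith)
  have htX : (1 + t) * X = (2 + X) / 2 := by
    rw [ht]; field_simp; ring
  set δ' : ℝ := δ * (1 - ν ^ 2) with hδ'
  have hδ'0 : 0 < δ' := mul_pos hδ (by nlinarith)
  set κ : ℝ := (1 + 1 / t) / δ' with hκ
  have hκ0 : 0 < κ := div_pos (by positivity) hδ'0
  have hκδ : κ * δ' = 1 + 1 / t := by rw [hκ]; field_simp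
  refine ⟨((2 - X) / 2) / (1 + κ), div_pos (by linarith) (by linarith), ?_⟩
  intro A _ _ _ a₁ a₂ b₁ b₂ hd hS hT
  have hDD : DD a₁ a₂ b₁ b₂ u v = star (av a₁ a₂ u v) * av a₁ a₂ u v *
      ((1 : ℝ) • (1 : A) - star (bv b₁ b₂ u v) * bv b₁ b₂ u v) := by
    unfold DD SS BB
    rw [huv]
  rw [hDD] at hT
  rw [uo_TT a₁ a₂ b₁ b₂ huv] at hT ⊢
  rw [← uo_SS a₁ a₂ huv] at hS
  have c1 : Commute (av a₁ a₂ u v) (bv b₁ b₂ u v) := hd.com.av_bv _ _ _ _
  have c2 : Commute (av a₁ a₂ u v) (star (bv b₁ b₂ u v)) := hd.com.av_star_bv _ _ _ _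
  have c3 : Commute (star (av a₁ a₂ u v) * av a₁ a₂ u v) (star (bv b₁ b₂ u v) * bv b₁ b₂ u v) :=
    hd.com.SS_BB u v u v
  have hb1 : ‖bv b₁ b₂ u v‖ ≤ ν := hd.hb u v
  have hb2 : ‖bv b₁ b₂ (-conj v) (conj u)‖ ≤ ν' := hd.hb _ _
  have hy1 : ν' = 1 → ‖av a₁ a₂ (-conj v) (conj u)‖ ≤ 1 := fun h => hd.ha _ _ hunit' h
  set x := av a₁ a₂ u v with hx
  set y := av a₁ a₂ (-conj v) (conj u) with hy
  set b := bv b₁ b₂ u v with hb
  set b' := bv b₁ b₂ (-conj v) (conj u) with hb'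
  -- (2)
  have hyb : star (y * b') * (y * b') ≤ X • (1 : A) := by
    apply star_mul_self_le_smul
    have hn : ‖y * b'‖ ≤ ‖y‖ * ‖b'‖ := norm_mul_le _ _
    rw [hX]
    split_ifs with h
    · have h1 := hy1 h
      rw [h] at hb2
      have h2 : ‖y‖ * ‖b'‖ ≤ 1 := by nlinarith [norm_nonneg y, norm_nonneg b']
      nlinarith [norm_nonneg (y * b')]
    · refine le_trans ?_ (le_max_right _ _)
      have h1 : ‖y‖ ^ 2 ≤ 2 := by
        apply norm_sq_le_of_star_mul_self_le (by norm_num)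
        refine le_trans ?_ hS
        exact le_add_of_nonneg_left (star_mul_self_nonneg x)
      calc ‖y * b'‖ ^ 2 ≤ (‖y‖ * ‖b'‖) ^ 2 := pow_le_pow_left₀ (norm_nonneg _) hn 2
        _ = ‖y‖ ^ 2 * ‖b'‖ ^ 2 := mul_pow _ _ _
        _ ≤ 2 * ν' ^ 2 := mul_le_mul h1 (pow_le_pow_left₀ (norm_nonneg _) hb2 2)
            (by positivity) (by norm_num)
  have hP0 : 0 ≤ star x * x := star_mul_self_nonneg x
  have hbν : star b * b ≤ (ν ^ 2) • (1 : A) :=
    star_mul_self_le_smul (pow_le_pow_left₀ (norm_nonneg _) hb1 2)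
  have hb11 : star b * b ≤ (1 : A) := star_mul_self_le_one (hb1.trans hlt.le)
  -- (1)
  have h1 : star (x * b + y * b') * (x * b + y * b') + δ' • (star x * x) ≤ (2 : ℝ) • (1 : A) := by
    refine le_trans ?_ hT
    gcongr 1
    have h2 : 0 ≤ star x * x * ((ν ^ 2) • (1 : A) - star b * b) :=
      Commute.mul_nonneg hP0 (sub_nonneg.2 hbν)
        (((Commute.one_right _).smul_right _).sub_right c3)
    have h3 : δ • (star x * x * ((1 : ℝ) • (1 : A) - star b * b)) - δ' • (star x * x) =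
        δ • (star x * x * ((ν ^ 2) • (1 : A) - star b * b)) := by
      rw [hδ', mul_sub (star x * x), mul_sub (star x * x), mul_smul_comm, mul_smul_comm, mul_one]
      module
    have h4 := smul_nonneg hδ.le h2
    rw [← h3] at h4
    exact sub_nonneg.1 h4
  -- (3)
  have hxb : star (x * b) * (x * b) ≤ star x * x := by
    rw [star_mul_mul_mul c1 c2]
    have h2 : 0 ≤ star x * x * (1 - star b * b) :=
      Commute.mul_nonneg hP0 (sub_nonneg.2 hb11) ((Commute.one_right _).sub_right c3)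
    rw [mul_sub, mul_one] at h2
    exact sub_nonneg.1 h2
  have h3 : star (x * b + y * b') * (x * b + y * b') ≤
      (1 + 1 / t) • (star (x * b) * (x * b)) + (1 + t) • (star (y * b') * (y * b')) := by
    have h2 : 0 ≤ (1 / t) • (star (x * b - t • (y * b')) * (x * b - t • (y * b'))) :=
      smul_nonneg (by positivity) (star_mul_self_nonneg _)
    have h4 : (1 + 1 / t) • (star (x * b) * (x * b)) + (1 + t) • (star (y * b') * (y * b')) -
        star (x * b + y * b') * (x * b + y * b') =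
        (1 / t) • (star (x * b - t • (y * b')) * (x * b - t • (y * b'))) := by
      generalize x * b = Z₁
      generalize y * b' = Z₂
      simp only [star_add, star_sub, star_smul, star_trivial, add_mul, mul_add, sub_mul, mul_sub,
        smul_mul_assoc, mul_smul_comm, smul_smul, smul_sub]
      match_scalars <;> field_simp <;> ring
    rw [← h4] at h2
    exact sub_nonneg.1 h2
  have h5 : star (x * b + y * b') * (x * b + y * b') ≤
      (1 + 1 / t) • (star x * x) + ((1 + t) * X) • (1 : A) := by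
    refine h3.trans (add_le_add (smul_le_smul_of_nonneg_left hxb (by positivity)) ?_)
    rw [mul_smul]
    exact smul_le_smul_of_nonneg_left hyb (by positivity)
  set W := star (x * b + y * b') * (x * b + y * b') with hW
  have h6 : κ • (W + δ' • (star x * x)) ≤ κ • ((2 : ℝ) • (1 : A)) :=
    smul_le_smul_of_nonneg_left h1 hκ0.le
  have h7 : (1 + κ) • W ≤ ((2 + X) / 2 + 2 * κ) • (1 : A) := by
    have h8 := add_le_add h5 h6
    rw [smul_add, smul_smul κ δ', hκδ, htX] at h8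
    have h9 : W + (κ • W + (1 + 1 / t) • (star x * x)) =
        (1 + κ) • W + (1 + 1 / t) • (star x * x) := by module
    have h10 : (1 + 1 / t) • (star x * x) + ((2 + X) / 2) • (1 : A) + κ • ((2 : ℝ) • (1 : A)) =
        ((2 + X) / 2 + 2 * κ) • (1 : A) + (1 + 1 / t) • (star x * x) := by module
    rw [h9, h10] at h8
    exact le_of_add_le_add_right h8
  have h11 := smul_le_smul_of_nonneg_left h7 (show 0 ≤ (1 + κ)⁻¹ by positivity)
  rw [smul_smul, smul_smul, inv_mul_cancel₀ (by positivity), one_smul] at h11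
  refine h11.trans (le_of_eq ?_)
  congr 1
  field_simp
  ring

end Pool.MinMax
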