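import Pool.Agent.Work.MP_9667ca_an.CoreA
import Pool.Agent.Work.MP_9667ca_an.Invar
import Pool.Agent.Work.MP_9667ca_an.UOne
import Pool.Agent.Work.MP_9667ca_an.SZero

/-!
# MP_9667ca_an, module CASEONE

`coreA` holds with slack coefficients `(mz - 2ρ)/4, (mz + 2ρ)/4, 1 - 2 mz`, all positive;
with `μ = min (mz - 2ρ) (min (mz + 2ρ) (1 - 2 mz)) > 0` and `dd_nonneg`, `coreA` gives
`T⋆T + μ • six ≤ 2`, and `dd_le` gives `T⋆T + μ • D(u, v) ≤ 2` for the given unit vector with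
`N u v < 1`. Then `u1` and `s0_le`; pass to the norm with `norm_sq_le_of_star_mul_self_le` (put the
order `CStarAlgebra.spectralOrder A` / `CStarAlgebra.spectralOrderedRing A` on `A`); replace
`η` by `min η 1` so that `0 ≤ 2 - η`. `Data` gives `ha`, `hb` (`Good.le`: `‖b(p,q)‖² ≤ N² ≤ ...`).
-/

namespace Pool.MinMax

open scoped ComplexConjugate
open Complex (I)

universe w

/-- the bound for `b` in terms of the Euclidean norm -/
theorem Data.hb' {N : ℂ → ℂ → ℝ} (hN : Good N) {A : Type*} [CStarAlgebra A]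
    {a₁ a₂ b₁ b₂ : A} (hd : Data N a₁ a₂ b₁ b₂) (p q : ℂ) :
    ‖bv b₁ b₂ p q‖ ^ 2 ≤ ‖p‖ ^ 2 + ‖q‖ ^ 2 := by
  refine le_trans ?_ (hN.le p q)
  exact pow_le_pow_left₀ (norm_nonneg _) (hd.hb p q) 2

/-- conclusion from slack at a point which is not a contact point -/
theorem concl_of_slack {N : ℂ → ℂ → ℝ} (hN : Good N) {ι : Type} [Fintype ι] {c : ι → ℝ}
    {p q : ι → ℂ} (hB : Bal c p q) (hc : ∀ i, N (p i) (q i) = 1) {u v : ℂ}
    (huv : ‖u‖ ^ 2 + ‖v‖ ^ 2 = 1) (hlt : N u v < 1) {δ : ℝ} (hδ : 0 < δ)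
    (H : ∀ (A : Type w) [CStarAlgebra A] [PartialOrder A] [StarOrderedRing A]
      (a₁ a₂ b₁ b₂ : A), Data N a₁ a₂ b₁ b₂ →
      star (TT a₁ a₂ b₁ b₂) * TT a₁ a₂ b₁ b₂ + δ • DD a₁ a₂ b₁ b₂ u v ≤ (2 : ℝ) • (1 : A)) :
    Concl.{w} N := by
  obtain ⟨η, hη, h⟩ := u1.{w} hN huv hlt hδ
  refine ⟨min η 1, lt_min hη one_pos, ?_⟩
  intro A _ a₁ a₂ b₁ b₂ hd
  letI : PartialOrder A := CStarAlgebra.spectralOrder A
  letI : StarOrderedRing A := CStarAlgebra.spectralOrderedRing A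
  have h1 := h A a₁ a₂ b₁ b₂ hd
    (s0_le hB (fun i => hd.ha (p i) (q i) (hB.unit i) (hc i))) (H A a₁ a₂ b₁ b₂ hd)
  apply norm_sq_le_of_star_mul_self_le
  · have := min_le_right η 1
    linarith
  · refine h1.trans ?_
    apply smul_le_smul_of_nonneg_right _ zero_le_one
    have := min_le_left η 1
    linarith

theorem caseOne {N : ℂ → ℂ → ℝ} (hN : Good N) {ι : Type} [Fintype ι] {c : ι → ℝ} {p q : ι → ℂ}
    {mz ρ : ℝ} (hB : Bal c p q) (hc : ∀ i, N (p i) (q i) = 1) (hD : Diag c p q mz ρ)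
    (hmz : mz < 1 / 2) (hρ : |ρ| < mz / 2) {u v : ℂ} (huv : ‖u‖ ^ 2 + ‖v‖ ^ 2 = 1)
    (hlt : N u v < 1) : Concl.{w} N := by
  have hρ' := abs_lt.mp hρ
  set μ : ℝ := min (mz - 2 * ρ) (min (mz + 2 * ρ) (1 - 2 * mz)) with hμ
  have hμ0 : 0 < μ := by
    rw [hμ]
    refine lt_min (by linarith [hρ'.2]) (lt_min (by linarith [hρ'.1]) (by linarith))
  have m1 : μ ≤ mz - 2 * ρ := min_le_left _ _
  have m2 : μ ≤ mz + 2 * ρ := (min_le_right _ _).trans (min_le_left _ _)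
  have m3 : μ ≤ 1 - 2 * mz := (min_le_right _ _).trans (min_le_right _ _)
  refine concl_of_slack hN hB hc huv hlt hμ0 ?_
  intro A _ _ _ a₁ a₂ b₁ b₂ hd
  have hb := hd.hb' hN
  have h1 := coreA hB hD hd.com (fun i => hd.ha (p i) (q i) (hB.unit i) (hc i)) hb
  have h2 := dd_le hd.com hb huv
  have h3 := smul_le_smul_of_nonneg_left h2 hμ0.le
  refine le_trans ?_ h1
  refine add_le_add le_rfl (h3.trans ?_)
  have n := dd_nonneg hd.com hb
  unfold six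
  rw [smul_add, smul_add, smul_smul, smul_smul]
  have n1 : 0 ≤ DD a₁ a₂ b₁ b₂ 1 1 + DD a₁ a₂ b₁ b₂ 1 (-1) := add_nonneg (n _ _) (n _ _)
  have n2 : 0 ≤ DD a₁ a₂ b₁ b₂ 1 I + DD a₁ a₂ b₁ b₂ 1 (-I) := add_nonneg (n _ _) (n _ _)
  have n3 : 0 ≤ DD a₁ a₂ b₁ b₂ 1 0 + DD a₁ a₂ b₁ b₂ 0 1 := add_nonneg (n _ _) (n _ _)
  refine add_le_add (add_le_add ?_ ?_) ?_
  · exact smul_le_smul_of_nonneg_right (by linarith) n1
  · exact smul_le_smul_of_nonneg_right (by linarith) n2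
  · exact smul_le_smul_of_nonneg_right m3 n3

end Pool.MinMax
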