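import Pool.Agent.Work.MP_9667ca_an.Defs

/-!
# MP_9667ca_an: inequalities for the moments
-/

namespace Pool.MinMax

open scoped ComplexConjugate

variable {ι : Type} [Fintype ι] {c : ι → ℝ} {p q : ι → ℂ} {mz ρ : ℝ}

theorem Bal.sum_c (hB : Bal c p q) : ∑ i, c i = 2 := by
  have h : ∑ i, c i = ∑ i, (c i * ‖p i‖ ^ 2 + c i * ‖q i‖ ^ 2) :=
    Finset.sum_congr rfl fun i _ => by rw [← mul_add, hB.unit i, mul_one]
  rw [h, Finset.sum_add_distrib, hB.sump, hB.sumq]; norm_num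

theorem sum_r_sq (hB : Bal c p q) (hD : Diag c p q mz ρ) :
    ∑ i, c i * ‖p i * conj (q i)‖ ^ 2 = (1 - mz) / 2 := by
  have h : ∀ i, c i * ‖p i * conj (q i)‖ ^ 2 =
      (c i - c i * (‖p i‖ ^ 2 - ‖q i‖ ^ 2) ^ 2) / 4 := by
    intro i
    have hu := hB.unit i
    rw [norm_mul, RCLike.norm_conj, mul_pow]
    have : ‖q i‖ ^ 2 = 1 - ‖p i‖ ^ 2 := by linarith
    rw [this]; ring
  rw [Finset.sum_congr rfl fun i _ => h i, ← Finset.sum_div, Finset.sum_sub_distrib, hB.sum_c,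
    hD.hz]
  ring

theorem Diag.mz_le (hB : Bal c p q) (hD : Diag c p q mz ρ) : mz ≤ 1 := by
  have h := sum_r_sq hB hD
  have h2 : 0 ≤ ∑ i, c i * ‖p i * conj (q i)‖ ^ 2 :=
    Finset.sum_nonneg fun i _ => mul_nonneg (hB.pos i).le (sq_nonneg _)
  linarith

theorem Diag.mz_nonneg (hB : Bal c p q) (hD : Diag c p q mz ρ) : 0 ≤ mz := by
  have h2 : 0 ≤ ∑ i, c i * (‖p i‖ ^ 2 - ‖q i‖ ^ 2) ^ 2 :=
    Finset.sum_nonneg fun i _ => mul_nonneg (hB.pos i).le (sq_nonneg _)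
  rw [hD.hz] at h2
  linarith

theorem Diag.abs_rho_le (hB : Bal c p q) (hD : Diag c p q mz ρ) : |ρ| ≤ (1 - mz) / 2 := by
  have h : |ρ| = ‖∑ i, (c i : ℂ) * (p i * conj (q i)) ^ 2‖ := by
    rw [hD.hr, Complex.norm_real, Real.norm_eq_abs]
  rw [h, ← sum_r_sq hB hD]
  refine (norm_sum_le _ _).trans (le_of_eq ?_)
  refine Finset.sum_congr rfl fun i _ => ?_
  rw [norm_mul, Complex.norm_real, Real.norm_of_nonneg (hB.pos i).le, norm_pow]

/-- If `mz = 1` then all points of the family are at the poles. -/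
theorem Diag.pole (hB : Bal c p q) (hD : Diag c p q mz ρ) (h1 : mz = 1) (i : ι) :
    p i * conj (q i) = 0 := by
  have h := sum_r_sq hB hD
  rw [h1, sub_self, zero_div] at h
  have h2 := (Finset.sum_eq_zero_iff_of_nonneg
    (fun i _ => mul_nonneg (hB.pos i).le (sq_nonneg _))).1 h i (Finset.mem_univ i)
  rcases mul_eq_zero.1 h2 with h3 | h3
  · exact absurd h3 (hB.pos i).ne'
  · exact norm_eq_zero.1 (pow_eq_zero_iff two_ne_zero |>.1 h3)

end Pool.MinMax
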