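import Pool.Agent.Work.MP_9667ca_an.SZero
import Pool.Agent.Work.MP_9667ca_an.Fejer
import Pool.Agent.Work.MP_9667ca_an.Moments

/-!
# MP_9667ca_an, module COREB (case `mz > 1/2`)

Notation as in COREA.  `λ = 2 mz - 1 > 0`, `θ = λ / mz`, `W = θ - ½ (θ - λ) S₀`,
`w = (λ + ½ θ (1 - mz)) s + θ ρ s⋆`.
Identity (numerically checked):
`2 - T⋆T = ∑ c_i Δ_i (B(x_i) + (1 - θ)(1 - B⁻_i)) + ½ ((1-mz)/2 - ρ) (D(1,1) + D(1,-1))
  + ½ ((1-mz)/2 + ρ) (D(1,i) + D(1,-i)) + [W (2 - B₀) - w β - w⋆ β⋆]`.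
The first sum is `≥ 0` (`0 ≤ θ ≤ 1`). For the bracket:
* `x⋆ W x + x⋆ w y + y⋆ w⋆ x + y⋆ W y = λ (a₁x + a₂y)⋆(a₁x + a₂y)
   + θ ∑ c_i (p_i x - q_i y)⋆ Δ_i (p_i x - q_i y) ≥ 0` for all `x, y ∈ A`;
* `W ≥ λ` as `S₀ ≤ 2`, `θ ≥ λ`; let `R = CFC.sqrt W`, invertible, commuting with `b_j, b_j⋆`
  (`W` does), `κ = R⁻¹ w R⁻¹`; then `x = -R⁻¹ κ`, `y = R⁻¹` in the previous item gives
  `1 - κ⋆ κ ≥ 0`, so `‖κ‖ ≤ 1`;
* `fejer` (coefficients `2 - B₀` (k = 0), `-β` (k = 1), `-β⋆` (k = -1);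
  `2 - B₀ - ω β - conj ω β⋆ = 2 - B(1, ω) ≥ 0`) gives `2 - B₀ - β κ - β⋆ κ⋆ ≥ 0`, and
  `W (2 - B₀) - w β - w⋆ β⋆ = R (2 - B₀ - κ β - κ⋆ β⋆) R` (`κ` commutes with `b_j`, `b_j⋆`).
-/

namespace Pool.MinMax

open scoped ComplexConjugate
open Complex (I)

section expand

variable {A : Type*} [CStarAlgebra A]

private theorem cb_nsq (z : ℂ) : z * conj z = ((‖z‖ ^ 2 : ℝ) : ℂ) := by
  rw [Complex.mul_conj, Complex.normSq_eq_norm_sq]

/-- the combination of the values of `D` -/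
private theorem cb_dpart {a₁ a₂ b₁ b₂ : A} (mz ρ : ℝ) {S1 S2 s s' B1 B2 t t' : A}
    (hS1 : star a₁ * a₁ = S1) (hS2 : star a₂ * a₂ = S2) (hs : star a₁ * a₂ = s)
    (hs' : star a₂ * a₁ = s') (hB1 : star b₁ * b₁ = B1) (hB2 : star b₂ * b₂ = B2)
    (ht : star b₁ * b₂ = t) (ht' : star b₂ * b₁ = t') :
    (((1 - mz) / 2 - ρ) / 2) • (DD a₁ a₂ b₁ b₂ 1 1 + DD a₁ a₂ b₁ b₂ 1 (-1))
        + (((1 - mz) / 2 + ρ) / 2) • (DD a₁ a₂ b₁ b₂ 1 I + DD a₁ a₂ b₁ b₂ 1 (-I)) =
      (1 - mz) • ((S1 + S2) * ((2 : ℝ) • (1 : A) - (B1 + B2))) - (1 - mz) • (s * t + s' * t')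
        + (2 * ρ) • (s * t' + s' * t) := by
  unfold DD
  simp only [SS_eq, BB_eq]
  rw [hS1, hS2, hs, hs', hB1, hB2, ht, ht']
  have n1 : ‖(1 : ℂ)‖ = 1 := norm_one
  have n2 : ‖(-1 : ℂ)‖ = 1 := by rw [norm_neg, norm_one]
  have n3 : ‖I‖ = 1 := Complex.norm_I
  have n4 : ‖-I‖ = 1 := by rw [norm_neg, Complex.norm_I]
  simp only [n1, n2, n3, n4, map_one, map_neg, Complex.conj_I, mul_one, one_mul,
    mul_neg, neg_mul, neg_neg, Complex.I_mul_I, one_smul,
    one_pow, neg_smul]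
  norm_num
  simp only [mul_add, add_mul, mul_sub, sub_mul, mul_neg, neg_mul, smul_mul_assoc, mul_smul_comm,
    mul_one, one_mul, smul_add, smul_sub, smul_neg, smul_smul, neg_neg, Complex.I_mul_I]
  module

/-- one member of the family -/
private theorem cb_member {S1 S2 s s' B1 B2 t t' : A} {p q : ℂ} (hpq : ‖p‖ ^ 2 + ‖q‖ ^ 2 = 1)
    (c θ : ℝ) (T R : ℂ) (hT : T = ((‖p‖ ^ 2 - ‖q‖ ^ 2 : ℝ) : ℂ)) (hR : R = p * conj q) :
    c • ((1 - ((p * conj p) • S1 + (q * conj q) • S2 + (p * conj q) • s + (conj p * q) • s')) *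
      (((p * conj p) • B1 + (q * conj q) • B2 + (conj p * q) • t + (p * conj q) • t') +
        (1 - θ) • (1 - ((q * conj q) • B1 + (p * conj p) • B2 - (conj p * q) • t -
          (p * conj q) • t')))) =
    (c : ℂ) • ((1 - (1 / 2 : ℂ) • (S1 + S2)) -
        (θ : ℂ) • ((1 - (1 / 2 : ℂ) • (S1 + S2)) * (1 - (1 / 2 : ℂ) • (B1 + B2)))) +
      ((c : ℂ) * T) • ((1 - (1 / 2 : ℂ) • (S1 + S2)) * (B1 - B2) - (1 / 2 : ℂ) • (S1 - S2) -
        (θ : ℂ) • ((1 / 2 : ℂ) • ((1 - (1 / 2 : ℂ) • (S1 + S2)) * (B1 - B2)) -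
          (1 / 2 : ℂ) • ((S1 - S2) * (1 - (1 / 2 : ℂ) • (B1 + B2))))) +
      ((c : ℂ) * T ^ 2) • ((-(1 / 2 : ℂ) + (θ : ℂ) / 4) • ((S1 - S2) * (B1 - B2))) +
      ((c : ℂ) * R) • ((2 : ℂ) • ((1 - (1 / 2 : ℂ) • (S1 + S2)) * t') - s -
        (θ : ℂ) • ((1 - (1 / 2 : ℂ) • (S1 + S2)) * t' - s * (1 - (1 / 2 : ℂ) • (B1 + B2)))) +
      ((c : ℂ) * conj R) • ((2 : ℂ) • ((1 - (1 / 2 : ℂ) • (S1 + S2)) * t) - s' -
        (θ : ℂ) • ((1 - (1 / 2 : ℂ) • (S1 + S2)) * t - s' * (1 - (1 / 2 : ℂ) • (B1 + B2)))) +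
      ((c : ℂ) * (T * R)) • ((-1 + (θ : ℂ) / 2) • ((S1 - S2) * t' + s * (B1 - B2))) +
      ((c : ℂ) * (T * conj R)) • ((-1 + (θ : ℂ) / 2) • ((S1 - S2) * t + s' * (B1 - B2))) +
      ((c : ℂ) * R ^ 2) • ((-2 + (θ : ℂ)) • (s * t')) +
      ((c : ℂ) * (conj R) ^ 2) • ((-2 + (θ : ℂ)) • (s' * t)) +
      ((c : ℂ) * (R * conj R)) • ((-2 + (θ : ℂ)) • (s * t + s' * t')) := by
  have hp : p * conj p = (1 + T) / 2 := by
    rw [cb_nsq, hT]
    have h2 : ((‖p‖ : ℂ)) ^ 2 + (‖q‖ : ℂ) ^ 2 = 1 := by exact_mod_cast hpq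
    push_cast
    linear_combination (1 / 2 : ℂ) * h2
  have hq : q * conj q = (1 - T) / 2 := by
    rw [cb_nsq, hT]
    have h2 : ((‖p‖ : ℂ)) ^ 2 + (‖q‖ : ℂ) ^ 2 = 1 := by exact_mod_cast hpq
    push_cast
    linear_combination (1 / 2 : ℂ) * h2
  have hR' : conj p * q = conj R := by
    rw [hR, map_mul, Complex.conj_conj]
  rw [hp, hq, hR', ← hR, ← Complex.coe_smul c, ← Complex.coe_smul (1 - θ)]
  simp only [mul_add, add_mul, mul_sub, sub_mul, smul_mul_assoc, mul_smul_comm,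
    mul_one, one_mul, Complex.ofReal_sub, Complex.ofReal_one]
  module

end expand

section moments

variable {ι : Type} [Fintype ι] {c : ι → ℝ} {p q : ι → ℂ} {mz ρ : ℝ}

private structure CbM (c : ι → ℝ) (p q : ι → ℂ) (mz ρ : ℝ) : Prop where
  m0 : ∑ i, (c i : ℂ) = 2
  m1 : ∑ i, (c i : ℂ) * ((‖p i‖ ^ 2 - ‖q i‖ ^ 2 : ℝ) : ℂ) = 0
  m2 : ∑ i, (c i : ℂ) * ((‖p i‖ ^ 2 - ‖q i‖ ^ 2 : ℝ) : ℂ) ^ 2 = 2 * mz
  m3 : ∑ i, (c i : ℂ) * (p i * conj (q i)) = 0
  m3' : ∑ i, (c i : ℂ) * conj (p i * conj (q i)) = 0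
  m4 : ∑ i, (c i : ℂ) * (((‖p i‖ ^ 2 - ‖q i‖ ^ 2 : ℝ) : ℂ) * (p i * conj (q i))) = 0
  m4' : ∑ i, (c i : ℂ) * (((‖p i‖ ^ 2 - ‖q i‖ ^ 2 : ℝ) : ℂ) * conj (p i * conj (q i))) = 0
  m5 : ∑ i, (c i : ℂ) * (p i * conj (q i)) ^ 2 = ρ
  m5' : ∑ i, (c i : ℂ) * (conj (p i * conj (q i))) ^ 2 = ρ
  m6 : ∑ i, (c i : ℂ) * (p i * conj (q i) * conj (p i * conj (q i))) = (1 - mz) / 2

private theorem cb_moments (hB : Bal c p q) (hD : Diag c p q mz ρ) : CbM c p q mz ρ := by
  have m0 : ∑ i, (c i : ℂ) = 2 := by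
    rw [← Complex.ofReal_sum, hB.sumc]
    norm_num
  have m1 : ∑ i, (c i : ℂ) * ((‖p i‖ ^ 2 - ‖q i‖ ^ 2 : ℝ) : ℂ) = 0 := by
    have : ∑ i, c i * (‖p i‖ ^ 2 - ‖q i‖ ^ 2) = 0 := by
      simp only [mul_sub, Finset.sum_sub_distrib, hB.sump, hB.sumq, sub_self]
    have h2 := congrArg (fun x : ℝ => (x : ℂ)) this
    simp only [Complex.ofReal_sum, Complex.ofReal_mul, Complex.ofReal_zero] at h2
    exact h2
  have m2 : ∑ i, (c i : ℂ) * ((‖p i‖ ^ 2 - ‖q i‖ ^ 2 : ℝ) : ℂ) ^ 2 = 2 * mz := by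
    have h2 := congrArg (fun x : ℝ => (x : ℂ)) hD.hz
    simp only [Complex.ofReal_sum, Complex.ofReal_mul, Complex.ofReal_pow,
      Complex.ofReal_ofNat] at h2
    exact h2
  have m3 : ∑ i, (c i : ℂ) * (p i * conj (q i)) = 0 := hB.sumr
  have m3' : ∑ i, (c i : ℂ) * conj (p i * conj (q i)) = 0 := by
    have h2 := congrArg conj m3
    simpa [map_sum, map_mul] using h2
  have m4 : ∑ i, (c i : ℂ) * (((‖p i‖ ^ 2 - ‖q i‖ ^ 2 : ℝ) : ℂ) * (p i * conj (q i))) = 0 :=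
    hD.hzr
  have m4' : ∑ i, (c i : ℂ) * (((‖p i‖ ^ 2 - ‖q i‖ ^ 2 : ℝ) : ℂ) * conj (p i * conj (q i))) = 0 := by
    have h2 := congrArg conj m4
    rw [map_sum, map_zero] at h2
    rw [← h2]
    refine Finset.sum_congr rfl fun i _ => ?_
    simp only [map_mul, Complex.conj_ofReal]
  have m5 : ∑ i, (c i : ℂ) * (p i * conj (q i)) ^ 2 = ρ := hD.hr
  have m5' : ∑ i, (c i : ℂ) * (conj (p i * conj (q i))) ^ 2 = ρ := by
    have h2 := congrArg conj m5
    rw [map_sum, Complex.conj_ofReal] at h2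
    rw [← h2]
    refine Finset.sum_congr rfl fun i _ => ?_
    simp only [map_mul, map_pow, Complex.conj_ofReal]
  have m6 : ∑ i, (c i : ℂ) * (p i * conj (q i) * conj (p i * conj (q i))) = (1 - mz) / 2 := by
    have h2 : ∀ i, (c i : ℂ) * (p i * conj (q i) * conj (p i * conj (q i))) =
        (1 / 4 : ℂ) * ((c i : ℂ) - (c i : ℂ) * ((‖p i‖ ^ 2 - ‖q i‖ ^ 2 : ℝ) : ℂ) ^ 2) := by
      intro i
      have h3 : p i * conj (q i) * conj (p i * conj (q i)) =
          (p i * conj (p i)) * (q i * conj (q i)) := by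
        rw [map_mul, Complex.conj_conj]
        ring
      rw [h3, cb_nsq, cb_nsq]
      have h4 : ((‖p i‖ : ℂ)) ^ 2 + (‖q i‖ : ℂ) ^ 2 = 1 := by exact_mod_cast hB.unit i
      push_cast
      linear_combination ((c i : ℂ) / 4) * ((‖p i‖ : ℂ) ^ 2 + (‖q i‖ : ℂ) ^ 2 + 1) * h4
    rw [Finset.sum_congr rfl fun i _ => h2 i, ← Finset.mul_sum, Finset.sum_sub_distrib, m0, m2]
    ring
  exact ⟨m0, m1, m2, m3, m3', m4, m4', m5, m5', m6⟩

end moments

variable {A : Type*} [CStarAlgebra A] [PartialOrder A] [StarOrderedRing A]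

/-- one member of the quadratic form -/
private theorem cb_quad {S1 S2 s s' : A} (x y : A) {p q : ℂ} (hpq : ‖p‖ ^ 2 + ‖q‖ ^ 2 = 1)
    (c : ℝ) (T R : ℂ) (hT : T = ((‖p‖ ^ 2 - ‖q‖ ^ 2 : ℝ) : ℂ)) (hR : R = p * conj q) :
    c • (star (p • x - q • y) *
      (1 - ((p * conj p) • S1 + (q * conj q) • S2 + (p * conj q) • s + (conj p * q) • s')) *
      (p • x - q • y)) =
    (c : ℂ) • ((1 / 2 : ℂ) • (star x * (1 - (1 / 2 : ℂ) • (S1 + S2)) * x) +
        (1 / 2 : ℂ) • (star y * (1 - (1 / 2 : ℂ) • (S1 + S2)) * y)) +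
      ((c : ℂ) * T) • ((1 / 2 : ℂ) • (star x * (1 - (1 / 2 : ℂ) • (S1 + S2)) * x) -
        (1 / 2 : ℂ) • (star y * (1 - (1 / 2 : ℂ) • (S1 + S2)) * y) -
        (1 / 4 : ℂ) • (star x * (S1 - S2) * x) - (1 / 4 : ℂ) • (star y * (S1 - S2) * y)) +
      ((c : ℂ) * T ^ 2) • (-(1 / 4 : ℂ) • (star x * (S1 - S2) * x) +
        (1 / 4 : ℂ) • (star y * (S1 - S2) * y)) +
      ((c : ℂ) * R) • (-(star y * (1 - (1 / 2 : ℂ) • (S1 + S2)) * x) -
        (1 / 2 : ℂ) • (star x * s * x) - (1 / 2 : ℂ) • (star y * s * y)) +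
      ((c : ℂ) * conj R) • (-(star x * (1 - (1 / 2 : ℂ) • (S1 + S2)) * y) -
        (1 / 2 : ℂ) • (star x * s' * x) - (1 / 2 : ℂ) • (star y * s' * y)) +
      ((c : ℂ) * (T * R)) • ((1 / 2 : ℂ) • (star y * (S1 - S2) * x) -
        (1 / 2 : ℂ) • (star x * s * x) + (1 / 2 : ℂ) • (star y * s * y)) +
      ((c : ℂ) * (T * conj R)) • ((1 / 2 : ℂ) • (star x * (S1 - S2) * y) -
        (1 / 2 : ℂ) • (star x * s' * x) + (1 / 2 : ℂ) • (star y * s' * y)) +
      ((c : ℂ) * R ^ 2) • (star y * s * x) +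
      ((c : ℂ) * (conj R) ^ 2) • (star x * s' * y) +
      ((c : ℂ) * (R * conj R)) • (star y * s' * x + star x * s * y) := by
  have hp : p * conj p = (1 + T) / 2 := by
    rw [cb_nsq, hT]
    have h2 : ((‖p‖ : ℂ)) ^ 2 + (‖q‖ : ℂ) ^ 2 = 1 := by exact_mod_cast hpq
    push_cast
    linear_combination (1 / 2 : ℂ) * h2
  have hq : q * conj q = (1 - T) / 2 := by
    rw [cb_nsq, hT]
    have h2 : ((‖p‖ : ℂ)) ^ 2 + (‖q‖ : ℂ) ^ 2 = 1 := by exact_mod_cast hpq
    push_cast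
    linear_combination (1 / 2 : ℂ) * h2
  have hR' : conj p * q = conj R := by
    rw [hR, map_mul, Complex.conj_conj]
  have hexp : ∀ D : A, star (p • x - q • y) * D * (p • x - q • y) =
      (p * conj p) • (star x * D * x) + (q * conj q) • (star y * D * y) -
        (conj p * q) • (star x * D * y) - (p * conj q) • (star y * D * x) := by
    intro D
    rw [star_sub, star_smul, star_smul, RCLike.star_def]
    simp only [sub_mul, mul_sub, smul_mul_assoc, mul_smul_comm, smul_smul]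
    module
  rw [hexp, hp, hq, hR', ← hR, ← Complex.coe_smul c]
  simp only [mul_add, add_mul, mul_sub, sub_mul, smul_mul_assoc, mul_smul_comm,
    mul_one, one_mul]
  module

/-- the quadratic form is nonnegative -/
private theorem cb_form {ι : Type} [Fintype ι] {c : ι → ℝ} {p q : ι → ℂ} {mz ρ : ℝ}
    (hB : Bal c p q) (hD : Diag c p q mz ρ) {a₁ a₂ : A}
    (ha : ∀ i, ‖av a₁ a₂ (p i) (q i)‖ ≤ 1) {θ lam : ℝ} (hθ : 0 ≤ θ) (hlam : 0 ≤ lam)
    (hrel : θ * mz = lam) (hmz : lam = 2 * mz - 1) (x y : A) :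
    0 ≤ star x * (θ • (1 : A) - ((θ - lam) / 2) • (star a₁ * a₁ + star a₂ * a₂)) * x +
      star x * ((lam + θ * (1 - mz) / 2) • (star a₁ * a₂) + (θ * ρ) • (star a₂ * a₁)) * y +
      star y * ((lam + θ * (1 - mz) / 2) • (star a₂ * a₁) + (θ * ρ) • (star a₁ * a₂)) * x +
      star y * (θ • (1 : A) - ((θ - lam) / 2) • (star a₁ * a₁ + star a₂ * a₂)) * y := by
  have M := cb_moments hB hD
  have hnn : ∀ i, 0 ≤ c i • (star (p i • x - q i • y) * (1 - SS a₁ a₂ (p i) (q i)) *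
      (p i • x - q i • y)) := by
    intro i
    refine smul_nonneg (hB.pos i).le (star_left_conjugate_nonneg ?_ _)
    exact sub_nonneg.2 (star_mul_self_le_one (ha i))
  have hsum := Finset.sum_nonneg fun i (_ : i ∈ Finset.univ) => hnn i
  have hexp : ∀ i, c i • (star (p i • x - q i • y) * (1 - SS a₁ a₂ (p i) (q i)) *
      (p i • x - q i • y)) = c i • (star (p i • x - q i • y) *
      (1 - ((p i * conj (p i)) • (star a₁ * a₁) + (q i * conj (q i)) • (star a₂ * a₂) +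
        (p i * conj (q i)) • (star a₁ * a₂) + (conj (p i) * q i) • (star a₂ * a₁))) *
      (p i • x - q i • y)) := fun i => by
    rw [SS_eq]
  rw [Finset.sum_congr rfl fun i _ =>
    (hexp i).trans (cb_quad x y (hB.unit i) (c i) _ _ rfl rfl)] at hsum
  simp only [Finset.sum_add_distrib, ← Finset.sum_smul] at hsum
  rw [M.m0, M.m1, M.m2, M.m3, M.m3', M.m4, M.m4', M.m5, M.m5', M.m6] at hsum
  have hsq : 0 ≤ star (a₁ * x + a₂ * y) * (a₁ * x + a₂ * y) := star_mul_self_nonneg _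
  have h1 := add_nonneg (smul_nonneg hlam hsq) (smul_nonneg hθ hsum)
  refine h1.trans (le_of_eq ?_)
  have hsqe : star (a₁ * x + a₂ * y) * (a₁ * x + a₂ * y) =
      star x * (star a₁ * a₁) * x + star x * (star a₁ * a₂) * y +
      star y * (star a₂ * a₁) * x + star y * (star a₂ * a₂) * y := by
    rw [star_add, star_mul, star_mul]
    simp only [add_mul, mul_add, mul_assoc]
    abel
  rw [hsqe]
  generalize star a₁ * a₁ = S1
  generalize star a₂ * a₂ = S2
  generalize star a₁ * a₂ = s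
  generalize star a₂ * a₁ = s'
  have hrel' : (θ : ℂ) * (mz : ℂ) = (lam : ℂ) := by exact_mod_cast hrel
  simp only [← Complex.coe_smul, Complex.ofReal_mul, Complex.ofReal_sub, Complex.ofReal_one,
    Complex.ofReal_add, Complex.ofReal_div, Complex.ofReal_ofNat]
  simp only [mul_add, add_mul, mul_sub, sub_mul, smul_mul_assoc, mul_smul_comm,
    mul_one, one_mul]
  linear_combination (norm := module) hrel' • (-(1 / 2 : ℂ) • (star x * S1 * x) +
    (1 / 2 : ℂ) • (star x * S2 * x) + (1 / 2 : ℂ) • (star y * S1 * y) -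
    (1 / 2 : ℂ) • (star y * S2 * y))

/-- a commuting pair with a nonnegative quadratic form -/
private theorem cb_bracket {W w w' b₁ b₂ : A} {lam : ℝ} (hlam : 0 < lam)
    (hW : lam • (1 : A) ≤ W) (hw : star w = w')
    (hform : ∀ x y : A, 0 ≤ star x * W * x + star x * w * y + star y * w' * x + star y * W * y)
    (c1 : Commute W b₁) (c2 : Commute W b₂) (d1 : Commute w b₁) (d2 : Commute w b₂)
    (e1 : Commute w' b₁) (e2 : Commute w' b₂)
    (hb : ∀ p q : ℂ, ‖bv b₁ b₂ p q‖ ^ 2 ≤ ‖p‖ ^ 2 + ‖q‖ ^ 2) :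
    0 ≤ W * ((2 : ℝ) • (1 : A) - (star b₁ * b₁ + star b₂ * b₂)) - w * (star b₁ * b₂) -
      w' * (star b₂ * b₁) := by
  have hlam1 : IsStrictlyPositive (lam • (1 : A)) :=
    IsStrictlyPositive.smul hlam isStrictlyPositive_one
  have hWu : IsUnit W := CStarAlgebra.isUnit_of_le _ hW hlam1
  have hW0 : 0 ≤ W := hlam1.nonneg.trans hW
  have hWs : star W = W := (IsSelfAdjoint.of_nonneg hW0).star_eq
  obtain ⟨R, hR⟩ : ∃ R : A, R = CFC.sqrt W := ⟨_, rfl⟩
  have hR0 : 0 ≤ R := by rw [hR]; exact CFC.sqrt_nonneg W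
  have hRs : star R = R := (IsSelfAdjoint.of_nonneg hR0).star_eq
  have hRR : R * R = W := by rw [hR]; exact CFC.sqrt_mul_sqrt_self W hW0
  have hRu : IsUnit R := by rw [hR]; exact (CFC.isUnit_sqrt_iff W hW0).2 hWu
  obtain ⟨Q, hQ1, hQ2⟩ : ∃ Q : A, R * Q = 1 ∧ Q * R = 1 := by
    obtain ⟨u, hu⟩ := hRu
    exact ⟨((u⁻¹ : Aˣ) : A), by rw [← hu]; exact u.mul_inv, by rw [← hu]; exact u.inv_mul⟩
  have hcomm : ∀ z : A, Commute W z → Commute R z := by
    intro z hz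
    rw [hR, CFC.sqrt_eq_cfc]
    exact hz.cfc_nnreal _
  have hcommQ : ∀ z : A, Commute R z → Commute Q z := by
    intro z hz
    show Q * z = z * Q
    calc Q * z = Q * z * (R * Q) := by rw [hQ1, mul_one]
      _ = Q * (z * R) * Q := by simp only [mul_assoc]
      _ = Q * (R * z) * Q := by rw [hz.eq]
      _ = (Q * R) * z * Q := by simp only [mul_assoc]
      _ = z * Q := by rw [hQ2, one_mul]
  have hQs : star Q = Q := by
    have h1 : star Q * R = 1 := by rw [← hRs, ← star_mul, hQ1, star_one]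
    calc star Q = star Q * (R * Q) := by rw [hQ1, mul_one]
      _ = (star Q * R) * Q := by rw [mul_assoc]
      _ = Q := by rw [h1, one_mul]
  have hstar : ∀ z : A, Commute W z → Commute W (star z) := by
    intro z hz
    have := hz.star_star
    rwa [hWs] at this
  have R1 := hcomm b₁ c1
  have R2 := hcomm b₂ c2
  have R1s := hcomm _ (hstar b₁ c1)
  have R2s := hcomm _ (hstar b₂ c2)
  have Q1 := hcommQ _ R1
  have Q2 := hcommQ _ R2
  have Q1s := hcommQ _ R1s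
  have Q2s := hcommQ _ R2s
  have hw' : star w' = w := by rw [← hw, star_star]
  have d1s : Commute w' (star b₁) := by have := d1.star_star; rwa [hw] at this
  have d2s : Commute w' (star b₂) := by have := d2.star_star; rwa [hw] at this
  have e1s : Commute w (star b₁) := by have := e1.star_star; rwa [hw'] at this
  have e2s : Commute w (star b₂) := by have := e2.star_star; rwa [hw'] at this
  obtain ⟨κ, hκ⟩ : ∃ κ : A, κ = Q * w * Q := ⟨_, rfl⟩
  have hκs : star κ = Q * w' * Q := by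
    rw [hκ, star_mul, star_mul, hQs, hw, mul_assoc]
  have hκn : ‖κ‖ ≤ 1 := by
    have h1 := hform (-(Q * κ)) Q
    have hx1 : star (-(Q * κ)) * W * (-(Q * κ)) = star κ * κ := by
      rw [star_neg, star_mul, hQs, ← hRR]
      calc -(star κ * Q) * (R * R) * -(Q * κ) = star κ * ((Q * R) * (R * Q)) * κ := by
            simp only [neg_mul, mul_neg, neg_neg, mul_assoc]
        _ = star κ * κ := by rw [hQ1, hQ2, mul_one, mul_one]
    have hx2 : star (-(Q * κ)) * w * Q = -(star κ * κ) := by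
      rw [star_neg, star_mul, hQs]
      calc -(star κ * Q) * w * Q = -(star κ * (Q * w * Q)) := by
            simp only [neg_mul, mul_assoc]
        _ = -(star κ * κ) := by rw [← hκ]
    have hx3 : star Q * w' * (-(Q * κ)) = -(star κ * κ) := by
      rw [hQs]
      calc Q * w' * -(Q * κ) = -((Q * w' * Q) * κ) := by
            simp only [mul_neg, mul_assoc]
        _ = -(star κ * κ) := by rw [← hκs]
    have hx4 : star Q * W * Q = 1 := by
      rw [hQs, ← hRR]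
      calc Q * (R * R) * Q = (Q * R) * (R * Q) := by simp only [mul_assoc]
        _ = 1 := by rw [hQ1, hQ2, mul_one]
    rw [hx1, hx2, hx3, hx4] at h1
    have h2 : star κ * κ ≤ (1 : ℝ) • (1 : A) := by
      rw [one_smul, ← sub_nonneg]
      refine h1.trans (le_of_eq ?_)
      abel
    have h3 := norm_sq_le_of_star_mul_self_le zero_le_one h2
    nlinarith [norm_nonneg κ]
  -- commutation with κ
  have k1 : Commute κ b₁ := by rw [hκ]; exact (Q1.mul_left d1).mul_left Q1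
  have k2 : Commute κ b₂ := by rw [hκ]; exact (Q2.mul_left d2).mul_left Q2
  have k1s : Commute κ (star b₁) := by rw [hκ]; exact (Q1s.mul_left e1s).mul_left Q1s
  have k2s : Commute κ (star b₂) := by rw [hκ]; exact (Q2s.mul_left e2s).mul_left Q2s
  have l1 : Commute (star κ) b₁ := by rw [hκs]; exact (Q1.mul_left e1).mul_left Q1
  have l2 : Commute (star κ) b₂ := by rw [hκs]; exact (Q2.mul_left e2).mul_left Q2
  have l1s : Commute (star κ) (star b₁) := by rw [hκs]; exact (Q1s.mul_left d1s).mul_left Q1s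
  have l2s : Commute (star κ) (star b₂) := by rw [hκs]; exact (Q2s.mul_left d2s).mul_left Q2s
  obtain ⟨V, hV⟩ : ∃ V : A, V = (2 : ℝ) • (1 : A) - (star b₁ * b₁ + star b₂ * b₂) := ⟨_, rfl⟩
  have hcV : ∀ z : A, Commute z b₁ → Commute z b₂ → Commute z (star b₁) → Commute z (star b₂) →
      Commute z V := by
    intro z h1 h2 h3 h4
    rw [hV]
    exact ((Commute.one_right z).smul_right _).sub_right
      ((h3.mul_right h1).add_right (h4.mul_right h2))
  have hfej := fejer (ι := Fin 3) ![V, -(star b₁ * b₂), -(star b₂ * b₁)] ![0, 1, -1] hκn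
    (by
      intro i
      fin_cases i
      · exact (hcV κ k1 k2 k1s k2s).symm
      · exact ((k1s.mul_right k2).neg_right).symm
      · exact ((k2s.mul_right k1).neg_right).symm)
    (by
      intro i
      fin_cases i
      · exact (hcV _ l1 l2 l1s l2s).symm
      · exact ((l1s.mul_right l2).neg_right).symm
      · exact ((l2s.mul_right l1).neg_right).symm)
    (by
      intro ω hω
      have hω0 : ω ≠ 0 := by intro h; rw [h, norm_zero] at hω; norm_num at hω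
      have h1 : BB b₁ b₂ 1 ω ≤ (2 : ℝ) • (1 : A) := by
        apply star_mul_self_le_smul
        refine (hb 1 ω).trans (le_of_eq ?_)
        rw [norm_one, hω]
        norm_num
      have hωc : conj ω = ω⁻¹ := by
        have h2 := cb_nsq ω
        rw [hω] at h2
        field_simp
        rw [mul_comm, h2]
        norm_num
      have hωω : ω * conj ω = 1 := by
        rw [hωc, mul_inv_cancel₀ hω0]
      rw [BB_eq, map_one, one_mul, hωω, one_smul, one_smul, one_mul, one_mul] at h1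
      rw [Fin.sum_univ_three]
      simp only [Matrix.cons_val_zero, Matrix.cons_val_one, Matrix.cons_val, zpow_zero, zpow_one,
        zpow_neg, one_smul]
      rw [← hωc, hV]
      refine (sub_nonneg.2 h1).trans (le_of_eq ?_)
      module)
  rw [Fin.sum_univ_three] at hfej
  have z0 : cz κ 0 = 1 := by simp [cz]
  have z1 : cz κ 1 = κ := by simp [cz]
  have z2 : cz κ (-1) = star κ := by simp [cz]
  simp only [Matrix.cons_val_zero, Matrix.cons_val_one, Matrix.cons_val, z0, z1, z2,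
    mul_one] at hfej
  have hfin := star_left_conjugate_nonneg hfej R
  rw [hRs] at hfin
  refine hfin.trans (le_of_eq ?_)
  have g1 : R * V * R = W * V := by
    rw [mul_assoc, ← (hcV R R1 R2 R1s R2s).eq, ← mul_assoc, hRR]
  have g2 : R * (star b₁ * b₂ * κ) * R = w * (star b₁ * b₂) := by
    have h1 : Commute R (star b₁ * b₂) := R1s.mul_right R2
    have h2 : Commute w (star b₁ * b₂) := e1s.mul_right d2
    calc R * (star b₁ * b₂ * κ) * R = (R * (star b₁ * b₂)) * (κ * R) := by simp only [mul_assoc]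
      _ = (star b₁ * b₂) * R * (Q * w * Q * R) := by rw [h1.eq, hκ]
      _ = (star b₁ * b₂) * ((R * Q) * w * (Q * R)) := by simp only [mul_assoc]
      _ = (star b₁ * b₂) * w := by rw [hQ1, hQ2, one_mul, mul_one]
      _ = w * (star b₁ * b₂) := h2.eq.symm
  have g3 : R * (star b₂ * b₁ * star κ) * R = w' * (star b₂ * b₁) := by
    have h1 : Commute R (star b₂ * b₁) := R2s.mul_right R1
    have h2 : Commute w' (star b₂ * b₁) := d2s.mul_right e1
    calc R * (star b₂ * b₁ * star κ) * R = (R * (star b₂ * b₁)) * (star κ * R) := by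
          simp only [mul_assoc]
      _ = (star b₂ * b₁) * R * (Q * w' * Q * R) := by rw [h1.eq, hκs]
      _ = (star b₂ * b₁) * ((R * Q) * w' * (Q * R)) := by simp only [mul_assoc]
      _ = (star b₂ * b₁) * w' := by rw [hQ1, hQ2, one_mul, mul_one]
      _ = w' * (star b₂ * b₁) := h2.eq.symm
  rw [← hV, mul_add, mul_add, add_mul, add_mul, g1]
  simp only [neg_mul, mul_neg]
  rw [g2, g3]
  abel

theorem coreB {ι : Type} [Fintype ι] {c : ι → ℝ} {p q : ι → ℂ} {mz ρ : ℝ} (hB : Bal c p q)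
    (hD : Diag c p q mz ρ) (hmz : 1 / 2 < mz) {a₁ a₂ b₁ b₂ : A} (h : Com a₁ a₂ b₁ b₂)
    (ha : ∀ i, ‖av a₁ a₂ (p i) (q i)‖ ≤ 1)
    (hb : ∀ p q : ℂ, ‖bv b₁ b₂ p q‖ ^ 2 ≤ ‖p‖ ^ 2 + ‖q‖ ^ 2) :
    star (TT a₁ a₂ b₁ b₂) * TT a₁ a₂ b₁ b₂
      + ((((1 - mz) / 2 - ρ) / 2) • (DD a₁ a₂ b₁ b₂ 1 1 + DD a₁ a₂ b₁ b₂ 1 (-1))
        + (((1 - mz) / 2 + ρ) / 2) • (DD a₁ a₂ b₁ b₂ 1 I + DD a₁ a₂ b₁ b₂ 1 (-I)))
      ≤ (2 : ℝ) • (1 : A) := by
  have M := cb_moments hB hD
  have hmz1 : mz ≤ 1 := Diag.mz_le hB hD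
  have hmz0 : 0 < mz := by linarith
  obtain ⟨lam, hlam⟩ : ∃ lam : ℝ, lam = 2 * mz - 1 := ⟨_, rfl⟩
  have hlam0 : 0 < lam := by rw [hlam]; linarith
  obtain ⟨θ, hθ⟩ : ∃ θ : ℝ, θ = lam / mz := ⟨_, rfl⟩
  have hrel : θ * mz = lam := by rw [hθ]; field_simp
  have hθ0 : 0 < θ := by rw [hθ]; positivity
  have hθ1 : θ ≤ 1 := by rw [hθ, div_le_one hmz0]; linarith
  have hθlam : lam ≤ θ := by nlinarith
  -- each member is nonnegative
  have hnn : ∀ i, 0 ≤ c i • ((1 - SS a₁ a₂ (p i) (q i)) *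
      (BB b₁ b₂ (p i) (q i) + (1 - θ) • (1 - BB b₁ b₂ (-conj (q i)) (conj (p i))))) := by
    intro i
    refine smul_nonneg (hB.pos i).le (Commute.mul_nonneg ?_ ?_ ?_)
    · exact sub_nonneg.2 (star_mul_self_le_one (ha i))
    · refine add_nonneg (BB_nonneg _ _ _ _) (smul_nonneg (by linarith)
        (sub_nonneg.2 (star_mul_self_le_one ?_)))
      have h1 := hb (-conj (q i)) (conj (p i))
      rw [norm_neg, RCLike.norm_conj, RCLike.norm_conj, add_comm, hB.unit i] at h1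
      nlinarith [norm_nonneg (bv b₁ b₂ (-conj (q i)) (conj (p i)))]
    · have c1 := h.SS_BB (p i) (q i) (p i) (q i)
      have c2 := h.SS_BB (p i) (q i) (-conj (q i)) (conj (p i))
      exact (((Commute.one_left _).sub_left c1).add_right
        (((Commute.one_right _).sub_right ((Commute.one_left _).sub_left c2)).smul_right _))
  have hsum := Finset.sum_nonneg fun i (_ : i ∈ Finset.univ) => hnn i
  -- expansion
  have hexp : ∀ i, c i • ((1 - SS a₁ a₂ (p i) (q i)) *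
      (BB b₁ b₂ (p i) (q i) + (1 - θ) • (1 - BB b₁ b₂ (-conj (q i)) (conj (p i))))) =
      c i • ((1 - ((p i * conj (p i)) • (star a₁ * a₁) + (q i * conj (q i)) • (star a₂ * a₂) +
        (p i * conj (q i)) • (star a₁ * a₂) + (conj (p i) * q i) • (star a₂ * a₁))) *
      (((p i * conj (p i)) • (star b₁ * b₁) + (q i * conj (q i)) • (star b₂ * b₂) +
        (conj (p i) * q i) • (star b₁ * b₂) + (p i * conj (q i)) • (star b₂ * b₁)) +
        (1 - θ) • (1 - ((q i * conj (q i)) • (star b₁ * b₁) + (p i * conj (p i)) • (star b₂ * b₂) -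
          (conj (p i) * q i) • (star b₁ * b₂) - (p i * conj (q i)) • (star b₂ * b₁))))) := by
    intro i
    have e1 : BB b₁ b₂ (-conj (q i)) (conj (p i)) =
        (q i * conj (q i)) • (star b₁ * b₁) + (p i * conj (p i)) • (star b₂ * b₂)
          - (conj (p i) * q i) • (star b₁ * b₂) - (p i * conj (q i)) • (star b₂ * b₁) := by
      rw [BB_eq]
      simp only [map_neg, Complex.conj_conj]
      module
    rw [e1, SS_eq, BB_eq]
  rw [Finset.sum_congr rfl fun i _ =>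
    (hexp i).trans (cb_member (hB.unit i) (c i) θ _ _ rfl rfl)] at hsum
  simp only [Finset.sum_add_distrib, ← Finset.sum_smul] at hsum
  rw [M.m0, M.m1, M.m2, M.m3, M.m3', M.m4, M.m4', M.m5, M.m5', M.m6] at hsum
  -- the bracket
  obtain ⟨W, hW⟩ : ∃ W : A, W = θ • (1 : A) - ((θ - lam) / 2) • (star a₁ * a₁ + star a₂ * a₂) :=
    ⟨_, rfl⟩
  obtain ⟨w, hw⟩ : ∃ w : A, w = (lam + θ * (1 - mz) / 2) • (star a₁ * a₂) +
    (θ * ρ) • (star a₂ * a₁) := ⟨_, rfl⟩
  obtain ⟨w', hw'⟩ : ∃ w' : A, w' = (lam + θ * (1 - mz) / 2) • (star a₂ * a₁) +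
    (θ * ρ) • (star a₁ * a₂) := ⟨_, rfl⟩
  have hWle : lam • (1 : A) ≤ W := by
    have h1 := s0_le hB ha
    have h2 : ((θ - lam) / 2) • (star a₁ * a₁ + star a₂ * a₂) ≤
        ((θ - lam) / 2) • ((2 : ℝ) • (1 : A)) :=
      smul_le_smul_of_nonneg_left h1 (by linarith)
    rw [hW, le_sub_iff_add_le]
    calc lam • (1 : A) + ((θ - lam) / 2) • (star a₁ * a₁ + star a₂ * a₂)
        ≤ lam • (1 : A) + ((θ - lam) / 2) • ((2 : ℝ) • (1 : A)) := by gcongr
      _ = θ • (1 : A) := by module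
  have hws : star w = w' := by
    rw [hw, hw', star_add]
    congr 1
    · rw [star_smul, star_trivial, star_mul, star_star]
    · rw [star_smul, star_trivial, star_mul, star_star]
  have hb1 : ∀ b, Commute a₁ b → Commute a₂ b → Commute (star a₁) b → Commute (star a₂) b →
      Commute W b ∧ Commute w b ∧ Commute w' b := by
    intro b h1 h2 h3 h4
    refine ⟨?_, ?_, ?_⟩
    · rw [hW]
      exact ((Commute.one_left _).smul_left _).sub_left
        (((h3.mul_left h1).add_left (h4.mul_left h2)).smul_left _)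
    · rw [hw]
      exact ((h3.mul_left h2).smul_left _).add_left ((h4.mul_left h1).smul_left _)
    · rw [hw']
      exact ((h4.mul_left h1).smul_left _).add_left ((h3.mul_left h2).smul_left _)
  have s11 : Commute (star a₁) b₁ := by have := h.s11.star_star; rwa [star_star] at this
  have s12 : Commute (star a₁) b₂ := by have := h.s12.star_star; rwa [star_star] at this
  have s21 : Commute (star a₂) b₁ := by have := h.s21.star_star; rwa [star_star] at this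
  have s22 : Commute (star a₂) b₂ := by have := h.s22.star_star; rwa [star_star] at this
  obtain ⟨c1, d1, e1⟩ := hb1 b₁ h.h11 h.h21 s11 s21
  obtain ⟨c2, d2, e2⟩ := hb1 b₂ h.h12 h.h22 s12 s22
  have hbr := cb_bracket hlam0 hWle hws (fun x y => by
    rw [hW, hw, hw']
    exact cb_form hB hD ha hθ0.le hlam0.le hrel hlam x y) c1 c2 d1 d2 e1 e2 hb
  have htot := add_nonneg hsum hbr
  rw [cb_dpart mz ρ rfl rfl rfl rfl rfl rfl rfl rfl, star_TT_mul_TT h]
  rw [← sub_nonneg]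
  refine htot.trans (le_of_eq ?_)
  rw [hW, hw, hw']
  generalize star a₁ * a₁ = S1
  generalize star a₂ * a₂ = S2
  generalize star a₁ * a₂ = s
  generalize star a₂ * a₁ = s'
  generalize star b₁ * b₁ = B1
  generalize star b₂ * b₂ = B2
  generalize star b₁ * b₂ = t
  generalize star b₂ * b₁ = t'
  have hrel' : (θ : ℂ) * (mz : ℂ) = 2 * mz - 1 := by
    have h1 : θ * mz = 2 * mz - 1 := by rw [hrel, hlam]
    exact_mod_cast h1
  have hlam' : (lam : ℂ) = 2 * mz - 1 := by rw [hlam]; push_cast; ring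
  simp only [← Complex.coe_smul, Complex.ofReal_mul, Complex.ofReal_sub, Complex.ofReal_one,
    Complex.ofReal_ofNat, Complex.ofReal_add, Complex.ofReal_div, hlam']
  simp only [mul_add, add_mul, mul_sub, sub_mul, mul_neg, neg_mul, smul_mul_assoc, mul_smul_comm,
    mul_one, one_mul]
  linear_combination (norm := module) hrel' • ((1 / 2 : ℂ) • (S1 * B1 - S1 * B2 - S2 * B1 + S2 * B2))

end Pool.MinMax
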