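import Pool.Agent.Work.MP_9667ca_an.CaseOne
import Pool.Agent.Work.MP_9667ca_an.CoreB

/-!
# MP_9667ca_an, module CASETWO: `1/2 ≤ mz < 1`

Put `my = (1-mz)/2 - ρ`, `mx = (1-mz)/2 + ρ`, `mx + my = 1 - mz > 0`.  `slackB`: the inequality of
`coreB` also holds for `mz = 1/2`, by `coreA` (same coefficients, `1 - 2 mz = 0`).
Also `|ρ| ≤ (1-mz)/2` always (`|∑ c r²| ≤ ∑ c |r|² = (1-mz)/2`), so `mx, my ≥ 0`.
* If `mx > 0`: when `N 1 i ^ 2 < 2`, the unit vector `(1, i)/√2` has `N < 1` and the slack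
  `(mx/2) D(1,i) = 2 mx D((1,i)/√2)` (`dd_smul`), so `u1` (all other slack terms are `≥ 0` by
  `dd_nonneg`); same for `(1, -i)`.  Otherwise both `(1, ±i)/√2` are contact points (`Good.le`);
  add them with weight `τ` each to the family with weights `(1-τ) c` (index type `ι ⊕ Bool`):
  `mz' = (1-τ) mz`, `ρ' = (1-τ) ρ - τ/2`, `1 - τ = 1/(1 + mz - my)`.  Then `caseOne`.
* If `my > 0`: same with `(1, ±1)`, `ρ' = (1-τ) ρ + τ/2` (roles of `mx`, `my` exchanged).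
-/

namespace Pool.MinMax

open scoped ComplexConjugate
open Complex (I)

universe w

private theorem slackB {A : Type*} [CStarAlgebra A] [PartialOrder A] [StarOrderedRing A]
    {ι : Type} [Fintype ι] {c : ι → ℝ} {p q : ι → ℂ} {mz ρ : ℝ} (hB : Bal c p q)
    (hD : Diag c p q mz ρ) (hmz : 1 / 2 ≤ mz) {a₁ a₂ b₁ b₂ : A} (h : Com a₁ a₂ b₁ b₂)
    (ha : ∀ i, ‖av a₁ a₂ (p i) (q i)‖ ≤ 1)
    (hb : ∀ p q : ℂ, ‖bv b₁ b₂ p q‖ ^ 2 ≤ ‖p‖ ^ 2 + ‖q‖ ^ 2) :
    star (TT a₁ a₂ b₁ b₂) * TT a₁ a₂ b₁ b₂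
      + ((((1 - mz) / 2 - ρ) / 2) • (DD a₁ a₂ b₁ b₂ 1 1 + DD a₁ a₂ b₁ b₂ 1 (-1))
        + (((1 - mz) / 2 + ρ) / 2) • (DD a₁ a₂ b₁ b₂ 1 I + DD a₁ a₂ b₁ b₂ 1 (-I)))
      ≤ (2 : ℝ) • (1 : A) := by
  rcases eq_or_lt_of_le hmz with h1 | h1
  · have h2 := coreA hB hD h ha hb
    have e1 : ((1 - mz) / 2 - ρ) / 2 = (mz - 2 * ρ) / 4 := by rw [← h1]; ring
    have e2 : ((1 - mz) / 2 + ρ) / 2 = (mz + 2 * ρ) / 4 := by rw [← h1]; ring
    have e3 : 1 - 2 * mz = 0 := by rw [← h1]; ring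
    rw [e3, zero_smul, add_zero] at h2
    rw [e1, e2]
    exact h2
  · exact coreB hB hD h1 h ha hb

/-- second moments off the diagonal -/
private theorem sum_off {ι : Type} [Fintype ι] {c : ι → ℝ} {p q : ι → ℂ} {mz ρ : ℝ}
    (hB : Bal c p q) (hD : Diag c p q mz ρ) :
    ∑ i, c i * (‖p i‖ ^ 2 * ‖q i‖ ^ 2) = (1 - mz) / 2 := by
  have h1 : ∑ i, c i = 2 := hB.sumc
  have h2 : ∀ i, c i * (‖p i‖ ^ 2 * ‖q i‖ ^ 2) =
      (1 / 4) * (c i - c i * (‖p i‖ ^ 2 - ‖q i‖ ^ 2) ^ 2) := by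
    intro i
    have h3 := hB.unit i
    have h4 : ‖q i‖ ^ 2 = 1 - ‖p i‖ ^ 2 := by linarith
    rw [h4]
    ring
  rw [Finset.sum_congr rfl (fun i _ => h2 i), ← Finset.mul_sum, Finset.sum_sub_distrib, h1, hD.hz]
  ring

private theorem rho_le {ι : Type} [Fintype ι] {c : ι → ℝ} {p q : ι → ℂ} {mz ρ : ℝ}
    (hB : Bal c p q) (hD : Diag c p q mz ρ) : |ρ| ≤ (1 - mz) / 2 := by
  rw [← sum_off hB hD]
  have h1 : |ρ| = ‖(ρ : ℂ)‖ := by rw [Complex.norm_real, Real.norm_eq_abs]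
  rw [h1, ← hD.hr]
  refine (norm_sum_le _ _).trans (le_of_eq ?_)
  apply Finset.sum_congr rfl
  intro i _
  rw [norm_mul, norm_pow, norm_mul, Complex.norm_real, Real.norm_eq_abs, abs_of_pos (hB.pos i),
    Complex.norm_conj]
  ring

/-- the mixing argument for the points `(1, ±w)/√2`, `conj w ^ 2 = ε = ±1` -/
private theorem mixing {N : ℂ → ℂ → ℝ} (hN : Good N) {ι : Type} [Fintype ι] {c : ι → ℝ}
    {p q : ι → ℂ} {mz ρ : ℝ} (hB : Bal c p q) (hc : ∀ i, N (p i) (q i) = 1)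
    (hD : Diag c p q mz ρ) (hmz : 1 / 2 ≤ mz) {u v : ℂ} (huv : ‖u‖ ^ 2 + ‖v‖ ^ 2 = 1)
    (hlt : N u v < 1) {z : ℂ} {ε : ℝ} (hz : ‖z‖ = 1) (hz2 : conj z ^ 2 = (ε : ℂ))
    (hε : ε = 1 ∨ ε = -1) (hm : 0 < (1 - mz) / 2 - ε * ρ)
    (H : ∀ (A : Type w) [CStarAlgebra A] [PartialOrder A] [StarOrderedRing A]
      (a₁ a₂ b₁ b₂ : A), Data N a₁ a₂ b₁ b₂ →
      star (TT a₁ a₂ b₁ b₂) * TT a₁ a₂ b₁ b₂ + (((1 - mz) / 2 - ε * ρ) / 2) •
        (DD a₁ a₂ b₁ b₂ 1 z + DD a₁ a₂ b₁ b₂ 1 (-z)) ≤ (2 : ℝ) • (1 : A)) :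
    Concl.{w} N := by
  have hs2 : (0 : ℝ) < Real.sqrt 2 := Real.sqrt_pos.mpr (by norm_num)
  have hs2' : Real.sqrt 2 ^ 2 = 2 := Real.sq_sqrt (by norm_num)
  set t : ℂ := (((Real.sqrt 2)⁻¹ : ℝ) : ℂ) with ht
  have htn : ‖t‖ = (Real.sqrt 2)⁻¹ := by
    rw [ht, Complex.norm_real, Real.norm_eq_abs, abs_of_pos (inv_pos.mpr hs2)]
  have htn2 : ‖t‖ ^ 2 = 1 / 2 := by
    rw [htn, inv_pow, hs2']; norm_num
  have htt : t * t = 1 / 2 := by
    rw [ht]
    have : ((Real.sqrt 2)⁻¹ : ℝ) * (Real.sqrt 2)⁻¹ = 1 / 2 := by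
      rw [← sq, inv_pow, hs2']; norm_num
    rw [← Complex.ofReal_mul, this]
    push_cast
    ring
  have htconj : conj t = t := by rw [ht, Complex.conj_ofReal]
  -- the two new points
  have key : ∀ y : ℂ, ‖y‖ = 1 → N 1 y ^ 2 < 2 → (∀ (A : Type w) [CStarAlgebra A] [PartialOrder A]
      [StarOrderedRing A] (a₁ a₂ b₁ b₂ : A), Data N a₁ a₂ b₁ b₂ →
      star (TT a₁ a₂ b₁ b₂) * TT a₁ a₂ b₁ b₂ + (((1 - mz) / 2 - ε * ρ) / 2) •
        DD a₁ a₂ b₁ b₂ 1 y ≤ (2 : ℝ) • (1 : A)) → Concl.{w} N := by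
    intro y hy hlt2 H'
    have e1 : ‖t * 1‖ ^ 2 + ‖t * y‖ ^ 2 = 1 := by
      rw [norm_mul, norm_mul, hy, norm_one, mul_one, htn2]; norm_num
    have e2 : N (t * 1) (t * y) < 1 := by
      rw [hN.homog, htn]
      have h1 : N 1 y < Real.sqrt 2 := by
        apply lt_of_pow_lt_pow_left₀ 2 hs2.le
        rw [hs2']; exact hlt2
      calc (Real.sqrt 2)⁻¹ * N 1 y < (Real.sqrt 2)⁻¹ * Real.sqrt 2 :=
            mul_lt_mul_of_pos_left h1 (inv_pos.mpr hs2)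
        _ = 1 := inv_mul_cancel₀ hs2.ne'
    refine concl_of_slack hN hB hc e1 e2 (δ := 2 * ((1 - mz) / 2 - ε * ρ)) (by linarith) ?_
    intro A _ _ _ a₁ a₂ b₁ b₂ hd
    have h1 := H' A a₁ a₂ b₁ b₂ hd
    have e3 : (2 * ((1 - mz) / 2 - ε * ρ)) • DD a₁ a₂ b₁ b₂ (t * 1) (t * y) =
        (((1 - mz) / 2 - ε * ρ) / 2) • DD a₁ a₂ b₁ b₂ 1 y := by
      rw [dd_smul, smul_smul]
      congr 1
      have : ‖t‖ ^ 4 = 1 / 4 := by
        have : ‖t‖ ^ 4 = (‖t‖ ^ 2) ^ 2 := by ring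
        rw [this, htn2]; norm_num
      rw [this]
      ring
    rw [e3]
    exact h1
  have hzneg : ‖-z‖ = 1 := by rw [norm_neg, hz]
  by_cases hA : N 1 z ^ 2 < 2
  · refine key z hz hA ?_
    intro A _ _ _ a₁ a₂ b₁ b₂ hd
    refine le_trans (add_le_add le_rfl ?_) (H A a₁ a₂ b₁ b₂ hd)
    rw [smul_add]
    exact le_add_of_nonneg_right (smul_nonneg (by linarith) (dd_nonneg hd.com (hd.hb' hN) _ _))
  by_cases hA' : N 1 (-z) ^ 2 < 2
  · refine key (-z) hzneg hA' ?_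
    intro A _ _ _ a₁ a₂ b₁ b₂ hd
    refine le_trans (add_le_add le_rfl ?_) (H A a₁ a₂ b₁ b₂ hd)
    rw [smul_add]
    exact le_add_of_nonneg_left (smul_nonneg (by linarith) (dd_nonneg hd.com (hd.hb' hN) _ _))
  -- both points are contact points
  have hcont : ∀ y : ℂ, ‖y‖ = 1 → ¬ N 1 y ^ 2 < 2 → N t (t * y) = 1 := by
    intro y hy hge
    have h1 : N 1 y ^ 2 = 2 := by
      have := hN.le 1 y
      rw [norm_one, hy] at this
      linarith
    have h2 : N 1 y = Real.sqrt 2 := by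
      rw [← h1, Real.sqrt_sq (hN.nonneg _ _)]
    have h3 := hN.homog t 1 y
    rw [mul_one] at h3
    rw [h3, htn, h2, inv_mul_cancel₀ hs2.ne']
  have hρ := rho_le hB hD
  have hεsq : ε * ε = 1 := by rcases hε with h | h <;> rw [h] <;> norm_num
  have hερ : |ε * ρ| = |ρ| := by
    rcases hε with h | h
    · rw [h, one_mul]
    · rw [h, neg_one_mul, abs_neg]
  have hρ1 := abs_le.mp (hερ.le.trans hρ)
  -- the weight
  set m : ℝ := (1 - mz) / 2 + ε * ρ with hm'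
  have hmm : m + ((1 - mz) / 2 - ε * ρ) = 1 - mz := by rw [hm']; ring
  have hden : 1 < 1 + mz - m := by linarith
  have hden0 : 0 < 1 + mz - m := by linarith
  set s : ℝ := 1 / (1 + mz - m) with hs
  have hs0 : 0 < s := by rw [hs]; positivity
  have hs1 : s < 1 := by
    rw [hs, div_lt_one hden0]; exact hden
  have hsd : s * (1 + mz - m) = 1 := by rw [hs]; field_simp
  let c' : ι ⊕ Bool → ℝ := Sum.elim (fun i => s * c i) (fun _ => 1 - s)
  let p' : ι ⊕ Bool → ℂ := Sum.elim p (fun _ => t)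
  let q' : ι ⊕ Bool → ℂ := Sum.elim q (fun b => t * (if b then z else -z))
  have hny : ∀ b : Bool, ‖(if b then z else -z : ℂ)‖ = 1 := by
    intro b; cases b
    · simpa using hz
    · simpa using hz
  have hB' : Bal c' p' q' := by
    refine ⟨?_, ?_, ?_, ?_, ?_⟩
    · rintro (i | b)
      · simp only [c', Sum.elim_inl]
        exact mul_pos hs0 (hB.pos i)
      · simp only [c', Sum.elim_inr]
        linarith
    · rintro (i | b)
      · simp only [p', q', Sum.elim_inl]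
        exact hB.unit i
      · simp only [p', q', Sum.elim_inr]
        rw [norm_mul, hny b, mul_one, htn2]
        norm_num
    · simp only [Fintype.sum_sum_type, c', p', Sum.elim_inl, Sum.elim_inr, mul_assoc]
      rw [← Finset.mul_sum, hB.sump, htn2]
      simp
      ring
    · simp only [Fintype.sum_sum_type, c', q', Sum.elim_inl, Sum.elim_inr, mul_assoc]
      rw [← Finset.mul_sum, hB.sumq]
      simp only [norm_mul, hny, mul_one, htn2]
      simp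
      ring
    · simp only [Fintype.sum_sum_type, c', p', q', Sum.elim_inl, Sum.elim_inr]
      have h1 : ∑ x, ((s * c x : ℝ) : ℂ) * (p x * conj (q x)) =
          (s : ℂ) * ∑ x, (c x : ℂ) * (p x * conj (q x)) := by
        rw [Finset.mul_sum]
        apply Finset.sum_congr rfl
        intro x _
        push_cast
        ring
      rw [h1, hB.sumr, mul_zero, zero_add, Fintype.sum_bool]
      simp only [if_true, Bool.false_eq_true, if_false, map_mul, map_neg]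
      ring
  have hD' : Diag c' p' q' (s * mz) (s * ρ + (1 - s) * ε / 2) := by
    refine ⟨?_, ?_, ?_⟩
    · simp only [Fintype.sum_sum_type, c', p', q', Sum.elim_inl, Sum.elim_inr, mul_assoc]
      rw [← Finset.mul_sum, hD.hz]
      simp only [norm_mul, hny, mul_one, sub_self]
      simp
      ring
    · simp only [Fintype.sum_sum_type, c', p', q', Sum.elim_inl, Sum.elim_inr]
      have h1 : ∑ x, ((s * c x : ℝ) : ℂ) *
            (((‖p x‖ ^ 2 - ‖q x‖ ^ 2 : ℝ) : ℂ) * (p x * conj (q x))) =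
          (s : ℂ) * ∑ x, (c x : ℂ) *
            (((‖p x‖ ^ 2 - ‖q x‖ ^ 2 : ℝ) : ℂ) * (p x * conj (q x))) := by
        rw [Finset.mul_sum]
        apply Finset.sum_congr rfl
        intro x _
        push_cast
        ring
      rw [h1, hD.hzr, mul_zero, zero_add]
      simp only [norm_mul, hny, mul_one, sub_self, Complex.ofReal_zero, zero_mul, mul_zero,
        Finset.sum_const_zero]
    · simp only [Fintype.sum_sum_type, c', p', q', Sum.elim_inl, Sum.elim_inr]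
      have h1 : ∑ x, ((s * c x : ℝ) : ℂ) * (p x * conj (q x)) ^ 2 =
          (s : ℂ) * ∑ x, (c x : ℂ) * (p x * conj (q x)) ^ 2 := by
        rw [Finset.mul_sum]
        apply Finset.sum_congr rfl
        intro x _
        push_cast
        ring
      rw [h1, hD.hr, Fintype.sum_bool]
      simp only [if_true, Bool.false_eq_true, if_false, map_mul, map_neg, htconj]
      push_cast
      have e1 : (t * (t * conj z)) ^ 2 = (ε : ℂ) / 4 := by
        rw [← mul_assoc, htt, mul_pow, hz2]; ring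
      have e2 : (t * (t * -conj z)) ^ 2 = (ε : ℂ) / 4 := by
        rw [← mul_assoc, htt, mul_pow, neg_sq, hz2]; ring
      rw [e1, e2]
      ring
  have hc' : ∀ i, N (p' i) (q' i) = 1 := by
    rintro (i | b)
    · simp only [p', q', Sum.elim_inl]
      exact hc i
    · simp only [p', q', Sum.elim_inr]
      cases b
      · simpa using hcont (-z) hzneg hA'
      · simpa using hcont z hz hA
  have h1 : s * mz < 1 / 2 := by nlinarith
  have h2 : |s * ρ + (1 - s) * ε / 2| < s * mz / 2 := by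
    have h3 : |s * ρ + (1 - s) * ε / 2| = |s * (ε * ρ) + (1 - s) / 2| := by
      rcases hε with h | h
      · rw [h, one_mul, mul_one]
      · rw [h, ← abs_neg]; congr 1; ring
    rw [h3, abs_lt]
    constructor
    · nlinarith
    · nlinarith
  exact caseOne hN hB' hc' hD' h1 h2 huv hlt

theorem caseTwo {N : ℂ → ℂ → ℝ} (hN : Good N) {ι : Type} [Fintype ι] {c : ι → ℝ} {p q : ι → ℂ}
    {mz ρ : ℝ} (hB : Bal c p q) (hc : ∀ i, N (p i) (q i) = 1) (hD : Diag c p q mz ρ)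
    (hmz : 1 / 2 ≤ mz) (hmz1 : mz < 1) {u v : ℂ} (huv : ‖u‖ ^ 2 + ‖v‖ ^ 2 = 1)
    (hlt : N u v < 1) : Concl.{w} N := by
  have hρ := abs_le.mp (rho_le hB hD)
  have hslack : ∀ (A : Type w) [CStarAlgebra A] [PartialOrder A] [StarOrderedRing A]
      (a₁ a₂ b₁ b₂ : A), Data N a₁ a₂ b₁ b₂ →
      star (TT a₁ a₂ b₁ b₂) * TT a₁ a₂ b₁ b₂
        + ((((1 - mz) / 2 - ρ) / 2) • (DD a₁ a₂ b₁ b₂ 1 1 + DD a₁ a₂ b₁ b₂ 1 (-1))
          + (((1 - mz) / 2 + ρ) / 2) • (DD a₁ a₂ b₁ b₂ 1 I + DD a₁ a₂ b₁ b₂ 1 (-I)))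
        ≤ (2 : ℝ) • (1 : A) := by
    intro A _ _ _ a₁ a₂ b₁ b₂ hd
    exact slackB hB hD hmz hd.com (fun i => hd.ha (p i) (q i) (hB.unit i) (hc i)) (hd.hb' hN)
  by_cases h : 0 < (1 - mz) / 2 - ρ
  · refine mixing hN hB hc hD hmz huv hlt (z := 1) (ε := 1) norm_one (by simp) (Or.inl rfl)
      (by linarith) ?_
    intro A _ _ _ a₁ a₂ b₁ b₂ hd
    refine le_trans (add_le_add le_rfl ?_) (hslack A a₁ a₂ b₁ b₂ hd)
    rw [one_mul]
    exact le_add_of_nonneg_right (smul_nonneg (by linarith)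
      (add_nonneg (dd_nonneg hd.com (hd.hb' hN) _ _) (dd_nonneg hd.com (hd.hb' hN) _ _)))
  · refine mixing hN hB hc hD hmz huv hlt (z := I) (ε := -1) Complex.norm_I (by
        rw [Complex.conj_I, neg_sq, Complex.I_sq]; push_cast; rfl) (Or.inr rfl)
      (by linarith) ?_
    intro A _ _ _ a₁ a₂ b₁ b₂ hd
    refine le_trans (add_le_add le_rfl ?_) (hslack A a₁ a₂ b₁ b₂ hd)
    rw [neg_one_mul, sub_neg_eq_add]
    exact le_add_of_nonneg_left (smul_nonneg (by linarith)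
      (add_nonneg (dd_nonneg hd.com (hd.hb' hN) _ _) (dd_nonneg hd.com (hd.hb' hN) _ _)))

end Pool.MinMax
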