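import Mathlib

/-!
# MP_9667ca_an, module CONTACT: the functional of a contact point

Hahn–Banach (`exists_dual_vector`) gives `ξ` with `‖ξ‖ = 1` and `ξ (p•f₁ + q•f₂) = 1`. With
`α = ξ f₁`, `β = ξ f₂`: `|y α + z β| ≤ ‖y•f₁ + z•f₂‖ ≤ |(y,z)|` for all `y, z`; `(y,z) = (conj α, conj β)`
gives `|α|² + |β|² ≤ 1`; and `p α + q β = 1` with `|p|²+|q|² = 1` gives
`|α - conj p|² + |β - conj q|² = |α|²+|β|² + 1 - 2 Re(pα + qβ) ≤ 0`.
-/

namespace Pool.MinMax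

open scoped ComplexConjugate

theorem contact_functional {E : Type*} [NormedAddCommGroup E] [NormedSpace ℂ E] {f₁ f₂ : E}
    (hle : ∀ p q : ℂ, ‖p • f₁ + q • f₂‖ ^ 2 ≤ ‖p‖ ^ 2 + ‖q‖ ^ 2) {p q : ℂ}
    (hpq : ‖p‖ ^ 2 + ‖q‖ ^ 2 = 1) (h1 : ‖p • f₁ + q • f₂‖ = 1) :
    ∃ ξ : E →L[ℂ] ℂ, ‖ξ‖ ≤ 1 ∧ ξ f₁ = conj p ∧ ξ f₂ = conj q := by
  have hne : ‖p • f₁ + q • f₂‖ ≠ 0 := by
    rw [h1]
    norm_num
  obtain ⟨ξ, hξ, hval⟩ := exists_dual_vector ℂ (p • f₁ + q • f₂) hne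
  rw [h1] at hval
  refine ⟨ξ, hξ.le, ?_⟩
  have hv : p * ξ f₁ + q * ξ f₂ = 1 := by
    rw [map_add, map_smul, map_smul, smul_eq_mul, smul_eq_mul] at hval
    simpa using hval
  -- the coefficients form a vector of norm at most one
  have hb : ‖ξ f₁‖ ^ 2 + ‖ξ f₂‖ ^ 2 ≤ 1 := by
    set s := ‖ξ f₁‖ ^ 2 + ‖ξ f₂‖ ^ 2 with hs
    have hs0 : 0 ≤ s := by positivity
    have h2 := ξ.le_opNorm (conj (ξ f₁) • f₁ + conj (ξ f₂) • f₂)
    rw [hξ, one_mul, map_add, map_smul, map_smul, smul_eq_mul, smul_eq_mul] at h2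
    have h3 : conj (ξ f₁) * ξ f₁ + conj (ξ f₂) * ξ f₂ = ((s : ℝ) : ℂ) := by
      rw [mul_comm, Complex.mul_conj, mul_comm (conj (ξ f₂)), Complex.mul_conj,
        Complex.normSq_eq_norm_sq, Complex.normSq_eq_norm_sq, hs]
      push_cast
      ring
    rw [h3, Complex.norm_real, Real.norm_eq_abs, abs_of_nonneg hs0] at h2
    have h4 := hle (conj (ξ f₁)) (conj (ξ f₂))
    rw [Complex.norm_conj, Complex.norm_conj, ← hs] at h4
    have h5 : s ^ 2 ≤ s := (pow_le_pow_left₀ hs0 h2 2).trans h4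
    by_contra hcon
    push Not at hcon
    nlinarith
  have hexp : ∀ z w : ℂ, ‖w - conj z‖ ^ 2 = ‖w‖ ^ 2 + ‖z‖ ^ 2 - 2 * (z * w).re := by
    intro z w
    rw [← Complex.normSq_eq_norm_sq, ← Complex.normSq_eq_norm_sq, ← Complex.normSq_eq_norm_sq,
      Complex.normSq_apply, Complex.normSq_apply, Complex.normSq_apply]
    simp only [Complex.sub_re, Complex.sub_im, Complex.conj_re, Complex.conj_im, Complex.mul_re]
    ring
  have hre : (p * ξ f₁).re + (q * ξ f₂).re = 1 := by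
    rw [← Complex.add_re, hv, Complex.one_re]
  have e1 := hexp p (ξ f₁)
  have e2 := hexp q (ξ f₂)
  have n1 : 0 ≤ ‖ξ f₁ - conj p‖ ^ 2 := by positivity
  have n2 : 0 ≤ ‖ξ f₂ - conj q‖ ^ 2 := by positivity
  have z1 : ‖ξ f₁ - conj p‖ ^ 2 = 0 := by linarith
  have z2 : ‖ξ f₂ - conj q‖ ^ 2 = 0 := by linarith
  constructor
  · rw [← sub_eq_zero, ← norm_eq_zero]
    exact pow_eq_zero_iff (two_ne_zero) |>.1 z1
  · rw [← sub_eq_zero, ← norm_eq_zero]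
    exact pow_eq_zero_iff (two_ne_zero) |>.1 z2

end Pool.MinMax
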