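import Pool.Agent.Work.MP_9667ca_an.SZero

/-!
# MP_9667ca_an, module COREA

Notation: `S₁ = a₁⋆a₁`, `S₂ = a₂⋆a₂`, `s = a₁⋆a₂`, `s⋆ = a₂⋆a₁`, `B₁, B₂, β = b₁⋆b₂, β⋆`, and for a
member `(p, q)` of the family `t = |p|² - |q|²`, `r = p conj q`, `Δ = 1 - S(p,q)`,
`S(p,q) = |p|² S₁ + |q|² S₂ + r s + conj r s⋆`, `B(p,q) = |p|² B₁ + |q|² B₂ + conj r β + r β⋆`,
`B⁻ = B(-conj q, conj p) = |q|² B₁ + |p|² B₂ - conj r β - r β⋆`.

Identity (numerically checked):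
`2 - T⋆T = ∑ c_i Δ_i (B(x_i) + 1 - B⁻_i) + (mz - 2ρ)/4 (D(1,1) + D(1,-1))
   + (mz + 2ρ)/4 (D(1,i) + D(1,-i)) + (1 - 2 mz) (D(1,0) + D(0,1))`,
and every `Δ_i (B(x_i) + 1 - B⁻_i)` is `≥ 0` (commuting nonnegative elements).

Moments: `∑c = 2, ∑ c t = 0, ∑ c t² = 2 mz, ∑ c r = 0, ∑ c t r = 0, ∑ c r² = ρ` (and conjugates),
`∑ c |r|² = (1 - mz)/2` as `|p|² = (1+t)/2, |q|² = (1-t)/2, |r|² = (1-t²)/4`.
-/

namespace Pool.MinMax

open scoped ComplexConjugate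
open Complex (I)

section expand

variable {A : Type*} [CStarAlgebra A]

private theorem nsqA (z : ℂ) : z * conj z = ((‖z‖ ^ 2 : ℝ) : ℂ) := by
  rw [Complex.mul_conj, Complex.normSq_eq_norm_sq]

/-- the combination of the values of `D` -/
private theorem dpart {a₁ a₂ b₁ b₂ : A} (mz ρ : ℝ) {S1 S2 s s' B1 B2 t t' : A}
    (hS1 : star a₁ * a₁ = S1) (hS2 : star a₂ * a₂ = S2) (hs : star a₁ * a₂ = s)
    (hs' : star a₂ * a₁ = s') (hB1 : star b₁ * b₁ = B1) (hB2 : star b₂ * b₂ = B2)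
    (ht : star b₁ * b₂ = t) (ht' : star b₂ * b₁ = t') :
    ((mz - 2 * ρ) / 4) • (DD a₁ a₂ b₁ b₂ 1 1 + DD a₁ a₂ b₁ b₂ 1 (-1))
        + ((mz + 2 * ρ) / 4) • (DD a₁ a₂ b₁ b₂ 1 I + DD a₁ a₂ b₁ b₂ 1 (-I))
        + (1 - 2 * mz) • (DD a₁ a₂ b₁ b₂ 1 0 + DD a₁ a₂ b₁ b₂ 0 1) =
      S1 + S2 - mz • ((S1 + S2) * (B1 + B2)) - mz • (s * t + s' * t')
        + (2 * ρ) • (s * t' + s' * t) - (1 - 2 * mz) • (S1 * B1 + S2 * B2) := by
  unfold DD
  simp only [SS_eq, BB_eq]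
  rw [hS1, hS2, hs, hs', hB1, hB2, ht, ht']
  have n1 : ‖(1 : ℂ)‖ = 1 := norm_one
  have n2 : ‖(-1 : ℂ)‖ = 1 := by rw [norm_neg, norm_one]
  have n3 : ‖I‖ = 1 := Complex.norm_I
  have n4 : ‖-I‖ = 1 := by rw [norm_neg, Complex.norm_I]
  have n5 : ‖(0 : ℂ)‖ = 0 := norm_zero
  simp only [n1, n2, n3, n4, n5, map_one, map_neg, Complex.conj_I, map_zero, mul_one, one_mul,
    mul_neg, neg_mul, neg_neg, Complex.I_mul_I, mul_zero, zero_mul, one_smul, zero_smul, add_zero,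
    zero_add, one_pow, neg_smul]
  norm_num
  simp only [mul_add, add_mul, mul_sub, sub_mul, mul_neg, neg_mul, smul_mul_assoc, mul_smul_comm,
    mul_one, one_mul, smul_add, smul_sub, smul_neg, smul_smul, neg_neg, Complex.I_mul_I]
  module

/-- one member of the family -/
private theorem member {S1 S2 s s' B1 B2 t t' : A} {p q : ℂ} (hpq : ‖p‖ ^ 2 + ‖q‖ ^ 2 = 1)
    (c : ℝ) (T R : ℂ) (hT : T = ((‖p‖ ^ 2 - ‖q‖ ^ 2 : ℝ) : ℂ)) (hR : R = p * conj q) :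
    c • ((1 - ((p * conj p) • S1 + (q * conj q) • S2 + (p * conj q) • s + (conj p * q) • s')) *
      (((p * conj p) • B1 + (q * conj q) • B2 + (conj p * q) • t + (p * conj q) • t') +
        (1 - ((q * conj q) • B1 + (p * conj p) • B2 - (conj p * q) • t - (p * conj q) • t')))) =
    (c : ℂ) • (1 - (1 / 2 : ℂ) • (S1 + S2)) +
      ((c : ℂ) * T) • ((1 - (1 / 2 : ℂ) • (S1 + S2)) * (B1 - B2) - (1 / 2 : ℂ) • (S1 - S2)) +
      ((c : ℂ) * T ^ 2) • (-(1 / 2 : ℂ) • ((S1 - S2) * (B1 - B2))) +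
      ((c : ℂ) * R) • ((2 : ℂ) • ((1 - (1 / 2 : ℂ) • (S1 + S2)) * t') - s) +
      ((c : ℂ) * conj R) • ((2 : ℂ) • ((1 - (1 / 2 : ℂ) • (S1 + S2)) * t) - s') +
      ((c : ℂ) * (T * R)) • (-((S1 - S2) * t') - s * (B1 - B2)) +
      ((c : ℂ) * (T * conj R)) • (-((S1 - S2) * t) - s' * (B1 - B2)) +
      ((c : ℂ) * R ^ 2) • (-(2 : ℂ) • (s * t')) +
      ((c : ℂ) * (conj R) ^ 2) • (-(2 : ℂ) • (s' * t)) +
      ((c : ℂ) * (R * conj R)) • (-(2 : ℂ) • (s * t + s' * t')) := by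
  have hp : p * conj p = (1 + T) / 2 := by
    rw [nsqA, hT]
    have h2 : ((‖p‖ : ℂ)) ^ 2 + (‖q‖ : ℂ) ^ 2 = 1 := by exact_mod_cast hpq
    push_cast
    linear_combination (1 / 2 : ℂ) * h2
  have hq : q * conj q = (1 - T) / 2 := by
    rw [nsqA, hT]
    have h2 : ((‖p‖ : ℂ)) ^ 2 + (‖q‖ : ℂ) ^ 2 = 1 := by exact_mod_cast hpq
    push_cast
    linear_combination (1 / 2 : ℂ) * h2
  have hR' : conj p * q = conj R := by
    rw [hR, map_mul, Complex.conj_conj]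
  rw [hp, hq, hR', ← hR, ← Complex.coe_smul c]
  simp only [mul_add, add_mul, mul_sub, sub_mul, smul_mul_assoc, mul_smul_comm,
    mul_one, one_mul]
  module

end expand

variable {A : Type*} [CStarAlgebra A] [PartialOrder A] [StarOrderedRing A]

theorem coreA {ι : Type} [Fintype ι] {c : ι → ℝ} {p q : ι → ℂ} {mz ρ : ℝ} (hB : Bal c p q)
    (hD : Diag c p q mz ρ) {a₁ a₂ b₁ b₂ : A} (h : Com a₁ a₂ b₁ b₂)
    (ha : ∀ i, ‖av a₁ a₂ (p i) (q i)‖ ≤ 1)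
    (hb : ∀ p q : ℂ, ‖bv b₁ b₂ p q‖ ^ 2 ≤ ‖p‖ ^ 2 + ‖q‖ ^ 2) :
    star (TT a₁ a₂ b₁ b₂) * TT a₁ a₂ b₁ b₂
      + (((mz - 2 * ρ) / 4) • (DD a₁ a₂ b₁ b₂ 1 1 + DD a₁ a₂ b₁ b₂ 1 (-1))
        + ((mz + 2 * ρ) / 4) • (DD a₁ a₂ b₁ b₂ 1 I + DD a₁ a₂ b₁ b₂ 1 (-I))
        + (1 - 2 * mz) • (DD a₁ a₂ b₁ b₂ 1 0 + DD a₁ a₂ b₁ b₂ 0 1)) ≤ (2 : ℝ) • (1 : A) := by
  -- each member is nonnegative
  have hnn : ∀ i, 0 ≤ c i • ((1 - SS a₁ a₂ (p i) (q i)) *
      (BB b₁ b₂ (p i) (q i) + (1 - BB b₁ b₂ (-conj (q i)) (conj (p i))))) := by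
    intro i
    refine smul_nonneg (hB.pos i).le (Commute.mul_nonneg ?_ ?_ ?_)
    · exact sub_nonneg.2 (star_mul_self_le_one (ha i))
    · refine add_nonneg (BB_nonneg _ _ _ _) (sub_nonneg.2 (star_mul_self_le_one ?_))
      have h1 := hb (-conj (q i)) (conj (p i))
      rw [norm_neg, RCLike.norm_conj, RCLike.norm_conj, add_comm, hB.unit i] at h1
      nlinarith [norm_nonneg (bv b₁ b₂ (-conj (q i)) (conj (p i)))]
    · have c1 := h.SS_BB (p i) (q i) (p i) (q i)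
      have c2 := h.SS_BB (p i) (q i) (-conj (q i)) (conj (p i))
      exact (((Commute.one_left _).sub_left c1).add_right
        ((Commute.one_right _).sub_right ((Commute.one_left _).sub_left c2)))
  have hsum := Finset.sum_nonneg fun i (_ : i ∈ Finset.univ) => hnn i
  -- expansion
  have hexp : ∀ i, c i • ((1 - SS a₁ a₂ (p i) (q i)) *
      (BB b₁ b₂ (p i) (q i) + (1 - BB b₁ b₂ (-conj (q i)) (conj (p i))))) =
      c i • ((1 - ((p i * conj (p i)) • (star a₁ * a₁) + (q i * conj (q i)) • (star a₂ * a₂) +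
        (p i * conj (q i)) • (star a₁ * a₂) + (conj (p i) * q i) • (star a₂ * a₁))) *
      (((p i * conj (p i)) • (star b₁ * b₁) + (q i * conj (q i)) • (star b₂ * b₂) +
        (conj (p i) * q i) • (star b₁ * b₂) + (p i * conj (q i)) • (star b₂ * b₁)) +
        (1 - ((q i * conj (q i)) • (star b₁ * b₁) + (p i * conj (p i)) • (star b₂ * b₂) -
          (conj (p i) * q i) • (star b₁ * b₂) - (p i * conj (q i)) • (star b₂ * b₁))))) := by
    intro i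
    have e1 : BB b₁ b₂ (-conj (q i)) (conj (p i)) =
        (q i * conj (q i)) • (star b₁ * b₁) + (p i * conj (p i)) • (star b₂ * b₂)
          - (conj (p i) * q i) • (star b₁ * b₂) - (p i * conj (q i)) • (star b₂ * b₁) := by
      rw [BB_eq]
      simp only [map_neg, Complex.conj_conj]
      module
    rw [e1, SS_eq, BB_eq]
  rw [Finset.sum_congr rfl fun i _ =>
    (hexp i).trans (member (hB.unit i) (c i) _ _ rfl rfl)] at hsum
  simp only [Finset.sum_add_distrib, ← Finset.sum_smul] at hsum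
  -- moments
  have m0 : ∑ i, (c i : ℂ) = 2 := by
    rw [← Complex.ofReal_sum, hB.sumc]
    norm_num
  have m1 : ∑ i, (c i : ℂ) * ((‖p i‖ ^ 2 - ‖q i‖ ^ 2 : ℝ) : ℂ) = 0 := by
    have : ∑ i, c i * (‖p i‖ ^ 2 - ‖q i‖ ^ 2) = 0 := by
      simp only [mul_sub, Finset.sum_sub_distrib, hB.sump, hB.sumq, sub_self]
    have h2 := congrArg (fun x : ℝ => (x : ℂ)) this
    simp only [Complex.ofReal_sum, Complex.ofReal_mul, Complex.ofReal_zero] at h2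
    exact h2
  have m2 : ∑ i, (c i : ℂ) * ((‖p i‖ ^ 2 - ‖q i‖ ^ 2 : ℝ) : ℂ) ^ 2 = 2 * mz := by
    have h2 := congrArg (fun x : ℝ => (x : ℂ)) hD.hz
    simp only [Complex.ofReal_sum, Complex.ofReal_mul, Complex.ofReal_pow,
      Complex.ofReal_ofNat] at h2
    exact h2
  have m3 : ∑ i, (c i : ℂ) * (p i * conj (q i)) = 0 := hB.sumr
  have m3' : ∑ i, (c i : ℂ) * conj (p i * conj (q i)) = 0 := by
    have h2 := congrArg conj m3
    simpa [map_sum, map_mul] using h2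
  have m4 : ∑ i, (c i : ℂ) * (((‖p i‖ ^ 2 - ‖q i‖ ^ 2 : ℝ) : ℂ) * (p i * conj (q i))) = 0 :=
    hD.hzr
  have m4' : ∑ i, (c i : ℂ) * (((‖p i‖ ^ 2 - ‖q i‖ ^ 2 : ℝ) : ℂ) * conj (p i * conj (q i))) = 0 := by
    have h2 := congrArg conj m4
    rw [map_sum, map_zero] at h2
    rw [← h2]
    refine Finset.sum_congr rfl fun i _ => ?_
    simp only [map_mul, Complex.conj_ofReal]
  have m5 : ∑ i, (c i : ℂ) * (p i * conj (q i)) ^ 2 = ρ := hD.hr
  have m5' : ∑ i, (c i : ℂ) * (conj (p i * conj (q i))) ^ 2 = ρ := by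
    have h2 := congrArg conj m5
    rw [map_sum, Complex.conj_ofReal] at h2
    rw [← h2]
    refine Finset.sum_congr rfl fun i _ => ?_
    simp only [map_mul, map_pow, Complex.conj_ofReal]
  have m6 : ∑ i, (c i : ℂ) * (p i * conj (q i) * conj (p i * conj (q i))) = (1 - mz) / 2 := by
    have h2 : ∀ i, (c i : ℂ) * (p i * conj (q i) * conj (p i * conj (q i))) =
        (1 / 4 : ℂ) * ((c i : ℂ) - (c i : ℂ) * ((‖p i‖ ^ 2 - ‖q i‖ ^ 2 : ℝ) : ℂ) ^ 2) := by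
      intro i
      have h3 : p i * conj (q i) * conj (p i * conj (q i)) =
          (p i * conj (p i)) * (q i * conj (q i)) := by
        rw [map_mul, Complex.conj_conj]
        ring
      rw [h3, nsqA, nsqA]
      have h4 : ((‖p i‖ : ℂ)) ^ 2 + (‖q i‖ : ℂ) ^ 2 = 1 := by exact_mod_cast hB.unit i
      push_cast
      linear_combination ((c i : ℂ) / 4) * ((‖p i‖ : ℂ) ^ 2 + (‖q i‖ : ℂ) ^ 2 + 1) * h4
    rw [Finset.sum_congr rfl fun i _ => h2 i, ← Finset.mul_sum, Finset.sum_sub_distrib, m0, m2]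
    ring
  rw [m0, m1, m2, m3, m3', m4, m4', m5, m5', m6] at hsum
  rw [dpart mz ρ rfl rfl rfl rfl rfl rfl rfl rfl, star_TT_mul_TT h]
  rw [← sub_nonneg]
  refine hsum.trans (le_of_eq ?_)
  generalize star a₁ * a₁ = S1
  generalize star a₂ * a₂ = S2
  generalize star a₁ * a₂ = s
  generalize star a₂ * a₁ = s'
  generalize star b₁ * b₁ = B1
  generalize star b₂ * b₂ = B2
  generalize star b₁ * b₂ = t
  generalize star b₂ * b₁ = t'
  simp only [← Complex.coe_smul, Complex.ofReal_mul, Complex.ofReal_sub, Complex.ofReal_one,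
    Complex.ofReal_ofNat]
  simp only [mul_add, add_mul, mul_sub, sub_mul, mul_neg, neg_mul, smul_mul_assoc, mul_smul_comm,
    mul_one, one_mul]
  module

end Pool.MinMax
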