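import Mathlib

/-!
# MP_9667ca_an: two-dimensional spaces, definitions in a C⋆-algebra

`N : ℂ → ℂ → ℝ` is the norm `N p q = ‖p • f₁ + q • f₂‖` of the space in a basis `f₁, f₂` in
John position (`N p q ≤ |(p, q)|₂`), a contact point is a unit vector `(p, q)` of `ℂ²` with
`N p q = 1`.  `a₁, a₂` and `b₁, b₂` are commuting pairs in a C⋆-algebra `A`.
-/

namespace Pool.MinMax

open scoped ComplexConjugate

universe u v

section Algebra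

variable {A : Type*} [CStarAlgebra A]

/-- `a(p, q) = conj p • a₁ + conj q • a₂`. -/
def av (a₁ a₂ : A) (p q : ℂ) : A := conj p • a₁ + conj q • a₂

/-- `b(p, q) = p • b₁ + q • b₂`. -/
def bv (b₁ b₂ : A) (p q : ℂ) : A := p • b₁ + q • b₂

/-- `S(p, q) = a(p, q)⋆ a(p, q)`. -/
def SS (a₁ a₂ : A) (p q : ℂ) : A := star (av a₁ a₂ p q) * av a₁ a₂ p q

/-- `B(p, q) = b(p, q)⋆ b(p, q)`. -/
def BB (b₁ b₂ : A) (p q : ℂ) : A := star (bv b₁ b₂ p q) * bv b₁ b₂ p q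

/-- `D(p, q) = S(p, q) (|p|² + |q|² - B(p, q))`. -/
noncomputable def DD (a₁ a₂ b₁ b₂ : A) (p q : ℂ) : A :=
  SS a₁ a₂ p q * ((‖p‖ ^ 2 + ‖q‖ ^ 2 : ℝ) • (1 : A) - BB b₁ b₂ p q)

/-- `T = a₁ b₁ + a₂ b₂`. -/
def TT (a₁ a₂ b₁ b₂ : A) : A := a₁ * b₁ + a₂ * b₂

/-- `a₁, a₂` commute with `b₁, b₂` and with their adjoints. -/
structure Com (a₁ a₂ b₁ b₂ : A) : Prop where
  h11 : Commute a₁ b₁
  h12 : Commute a₁ b₂
  h21 : Commute a₂ b₁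
  h22 : Commute a₂ b₂
  s11 : Commute a₁ (star b₁)
  s12 : Commute a₁ (star b₂)
  s21 : Commute a₂ (star b₁)
  s22 : Commute a₂ (star b₂)

/-- The data of an element of `M_m(min E)` of norm `≤ 1` (the pair `a₁, a₂`) and of a contraction
`E → B(H)` (the pair `b₁, b₂`), for the norm `N` on `ℂ²`. -/
structure Data (N : ℂ → ℂ → ℝ) (a₁ a₂ b₁ b₂ : A) : Prop where
  com : Com a₁ a₂ b₁ b₂
  ha : ∀ p q : ℂ, ‖p‖ ^ 2 + ‖q‖ ^ 2 = 1 → N p q = 1 → ‖av a₁ a₂ p q‖ ≤ 1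
  hb : ∀ p q : ℂ, ‖bv b₁ b₂ p q‖ ≤ N p q

/-- `c^(n)`: `c ^ n` for `n ≥ 0` and `(star c) ^ (-n)` for `n < 0`. -/
def cz (c : A) (n : ℤ) : A := if 0 ≤ n then c ^ n.toNat else star c ^ (-n).toNat

end Algebra

/-- The properties of `N p q = ‖p • f₁ + q • f₂‖` that are used. -/
structure Good (N : ℂ → ℂ → ℝ) : Prop where
  cont : Continuous fun x : ℂ × ℂ => N x.1 x.2
  nonneg : ∀ p q, 0 ≤ N p q
  homog : ∀ z p q : ℂ, N (z * p) (z * q) = ‖z‖ * N p q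
  le : ∀ p q : ℂ, N p q ^ 2 ≤ ‖p‖ ^ 2 + ‖q‖ ^ 2

/-- `α < √2` for the norm `N`, in terms of data in C⋆-algebras. -/
def Concl (N : ℂ → ℂ → ℝ) : Prop :=
  ∃ η : ℝ, 0 < η ∧ ∀ (A : Type u) [CStarAlgebra A] (a₁ a₂ b₁ b₂ : A),
    Data N a₁ a₂ b₁ b₂ → ‖TT a₁ a₂ b₁ b₂‖ ^ 2 ≤ 2 - η

/-- A balanced finite family: positive weights `c i` and unit vectors `(p i, q i)` of `ℂ²`
with `∑ c i x_i x_i⋆ = 1`. -/
structure Bal {ι : Type} [Fintype ι] (c : ι → ℝ) (p q : ι → ℂ) : Prop where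
  pos : ∀ i, 0 < c i
  unit : ∀ i, ‖p i‖ ^ 2 + ‖q i‖ ^ 2 = 1
  sump : ∑ i, c i * ‖p i‖ ^ 2 = 1
  sumq : ∑ i, c i * ‖q i‖ ^ 2 = 1
  sumr : ∑ i, (c i : ℂ) * (p i * conj (q i)) = 0

/-- The second moments of the family in a diagonalising frame. -/
structure Diag {ι : Type} [Fintype ι] (c : ι → ℝ) (p q : ι → ℂ) (mz ρ : ℝ) : Prop where
  hz : ∑ i, c i * (‖p i‖ ^ 2 - ‖q i‖ ^ 2) ^ 2 = 2 * mz
  hzr : ∑ i, (c i : ℂ) * (((‖p i‖ ^ 2 - ‖q i‖ ^ 2 : ℝ) : ℂ) * (p i * conj (q i))) = 0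
  hr : ∑ i, (c i : ℂ) * (p i * conj (q i)) ^ 2 = (ρ : ℂ)

/-- The norm `N` in the coordinates of the orthonormal basis `(u, v), z (-conj v, conj u)`. -/
def rot (N : ℂ → ℂ → ℝ) (u v z p q : ℂ) : ℝ :=
  N (p * u - q * (z * conj v)) (p * v + q * (z * conj u))

/-- First new coordinate of `(p, q)`. -/
def rp (u v p q : ℂ) : ℂ := conj u * p + conj v * q

/-- Second new coordinate of `(p, q)`. -/
def rq (u v z p q : ℂ) : ℂ := conj z * (-(v * p) + u * q)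

end Pool.MinMax
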