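import Pool.Agent.Work.MP_9667ca_an.Rot

/-!
# MP_9667ca_an, module FRAME: diagonalising the second moments

Choose the unit vector `(u, v)` of `ℂ²` maximising the continuous function
`f(u,v) = ∑ c_i (|rp u v (p_i) (q_i)|²)²` on the (compact) unit sphere of `ℂ²`, and then `|z| = 1`
with `∑ c_i r_i'^2 ∈ ℝ` where `r_i' = p_i' conj q_i'` (replacing `z` by `z ζ` multiplies `q'` by
`conj ζ`, so `∑ c r'^2` by `ζ²`).  `Bal` of the new coordinates follows by expanding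
(`|p'|², |q'|², p' conj q'` are fixed linear combinations of `|p|², |q|², p conj q, conj p q`).

First order condition: write the family in the new coordinates `(p, q)` with `t = |p|² - |q|²`,
`r = p conj q`. For real `x, y` with `x² + y² = 1` and `|ζ| = 1`, the unit vector with new
coordinates `(x, ζ y)` gives `|x p + conj ζ y q|² = ½ (1 + (x² - y²) t + 2 x y · 2 Re(ζ r))`, so
with `X = x² - y², Y = 2xy` (any point of the unit circle):
`f = ¼ ∑ c (1 + X t + Y 2Re(ζ r))² = ¼ (2 + X² α + 2 X Y γ_ζ + Y² β_ζ) ≤ ¼ (2 + α)`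
where `α = ∑ c t²`, `γ_ζ = ∑ c t 2Re(ζ r)`, `β_ζ = ∑ c (2Re(ζ r))²` (`∑ c t = 0`, `∑ c r = 0`,
`∑ c = 2`). As this holds for all `X² + Y² = 1`: `γ_ζ = 0` and `β_ζ ≤ α`. `ζ = 1, i` give
`∑ c t r = 0`. With `α = 2 mz`, `∑ c |r|² = (1 - mz)/2`, `∑ c r² = ρ` real:
`β_1 = 2(1-mz)/2·... = (1 - mz) + 2ρ ≤ 2 mz`, `β_i = (1 - mz) - 2ρ ≤ 2 mz`, i.e. `|ρ| ≤ (3 mz - 1)/2`.
-/

namespace Pool.MinMax

open scoped ComplexConjugate

private theorem fr_sq (w : ℂ) : ((‖w‖ ^ 2 : ℝ) : ℂ) = w * conj w := by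
  rw [Complex.mul_conj, Complex.normSq_eq_norm_sq]

private theorem fr_exp (P Q ζ : ℂ) (x y : ℝ) (hζ : ‖ζ‖ = 1) :
    ‖(x : ℂ) * P + conj ζ * ((y : ℂ) * Q)‖ ^ 2 =
      x ^ 2 * ‖P‖ ^ 2 + y ^ 2 * ‖Q‖ ^ 2 + 2 * (x * y) * (ζ * (P * conj Q)).re := by
  rw [← Complex.normSq_eq_norm_sq, Complex.normSq_add, Complex.normSq_eq_norm_sq,
    Complex.normSq_eq_norm_sq]
  have h1 : (x : ℂ) * P * conj (conj ζ * ((y : ℂ) * Q)) =
      ((x * y : ℝ) : ℂ) * (ζ * (P * conj Q)) := by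
    simp only [map_mul, Complex.conj_conj, Complex.conj_ofReal]
    push_cast
    ring
  rw [h1, Complex.re_ofReal_mul]
  simp only [norm_mul, RCLike.norm_conj, hζ, Complex.norm_real, one_mul, mul_pow, Real.norm_eq_abs,
    sq_abs]
  ring

private theorem fr_sumc {ι : Type} [Fintype ι] {c : ι → ℝ} {p q : ι → ℂ} (hB : Bal c p q) :
    ∑ i, c i = 2 := by
  have h1 : ∑ i, c i = ∑ i, c i * ‖p i‖ ^ 2 + ∑ i, c i * ‖q i‖ ^ 2 := by
    rw [← Finset.sum_add_distrib]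
    refine Finset.sum_congr rfl fun i _ => ?_
    rw [← mul_add, hB.unit i, mul_one]
  rw [h1, hB.sump, hB.sumq]
  norm_num

private theorem fr_core {ι : Type} [Fintype ι] {c : ι → ℝ} {p q : ι → ℂ} (hB : Bal c p q)
    (hmax : ∀ (ζ : ℂ) (x y : ℝ), ‖ζ‖ = 1 →
      ∑ i, c i * (‖(x : ℂ) * p i + conj ζ * ((y : ℂ) * q i)‖ ^ 2) ^ 2 ≤
        (x ^ 2 + y ^ 2) ^ 2 * ∑ i, c i * (‖p i‖ ^ 2) ^ 2) (ζ : ℂ) (hζ : ‖ζ‖ = 1) :
    ∑ i, c i * ((‖p i‖ ^ 2 - ‖q i‖ ^ 2) * (ζ * (p i * conj (q i))).re) = 0 ∧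
      ∑ i, c i * (2 * (ζ * (p i * conj (q i))).re) ^ 2 ≤
        ∑ i, c i * (‖p i‖ ^ 2 - ‖q i‖ ^ 2) ^ 2 := by
  set t : ι → ℝ := fun i => ‖p i‖ ^ 2 - ‖q i‖ ^ 2 with ht
  set m : ι → ℝ := fun i => (ζ * (p i * conj (q i))).re with hm
  set α := ∑ i, c i * t i ^ 2 with hα
  set γ := ∑ i, c i * (t i * m i) with hγ
  set β := ∑ i, c i * (2 * m i) ^ 2 with hβ
  have hc := fr_sumc hB
  have hct : ∑ i, c i * t i = 0 := by
    have : ∑ i, c i * t i = ∑ i, c i * ‖p i‖ ^ 2 - ∑ i, c i * ‖q i‖ ^ 2 := by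
      rw [← Finset.sum_sub_distrib]
      exact Finset.sum_congr rfl fun i _ => by rw [ht]; ring
    rw [this, hB.sump, hB.sumq, sub_self]
  have hcm : ∑ i, c i * m i = 0 := by
    have h1 : (ζ * ∑ i, (c i : ℂ) * (p i * conj (q i))).re = ∑ i, c i * m i := by
      rw [Finset.mul_sum, Complex.re_sum]
      refine Finset.sum_congr rfl fun i _ => ?_
      rw [hm, show ζ * ((c i : ℂ) * (p i * conj (q i))) = (c i : ℂ) * (ζ * (p i * conj (q i))) by
        ring, Complex.re_ofReal_mul]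
    rw [← h1, hB.sumr, mul_zero, Complex.zero_re]
  have hexp : ∀ x y : ℝ, 4 * ∑ i, c i * (‖(x : ℂ) * p i + conj ζ * ((y : ℂ) * q i)‖ ^ 2) ^ 2 =
      2 * (x ^ 2 + y ^ 2) ^ 2 + (x ^ 2 - y ^ 2) ^ 2 * α + (2 * x * y) ^ 2 * β +
        4 * (x ^ 2 - y ^ 2) * (2 * x * y) * γ := by
    intro x y
    have h1 : 4 * ∑ i, c i * (‖(x : ℂ) * p i + conj ζ * ((y : ℂ) * q i)‖ ^ 2) ^ 2 =
        (x ^ 2 + y ^ 2) ^ 2 * ∑ i, c i + (x ^ 2 - y ^ 2) ^ 2 * α + (2 * x * y) ^ 2 * β +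
        4 * (x ^ 2 - y ^ 2) * (2 * x * y) * γ +
        2 * (x ^ 2 + y ^ 2) * (x ^ 2 - y ^ 2) * ∑ i, c i * t i +
        4 * (x ^ 2 + y ^ 2) * (2 * x * y) * ∑ i, c i * m i := by
      rw [hα, hβ, hγ]
      simp only [Finset.mul_sum, ← Finset.sum_add_distrib]
      refine Finset.sum_congr rfl fun i _ => ?_
      rw [fr_exp (p i) (q i) ζ x y hζ]
      have h2 : x ^ 2 * ‖p i‖ ^ 2 + y ^ 2 * ‖q i‖ ^ 2 =
          ((x ^ 2 + y ^ 2) + (x ^ 2 - y ^ 2) * t i) / 2 := by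
        have h3 := hB.unit i
        have h4 : t i = ‖p i‖ ^ 2 - ‖q i‖ ^ 2 := rfl
        rw [h4]
        linear_combination ((x ^ 2 + y ^ 2) / 2) * h3
      have h5 : (ζ * (p i * conj (q i))).re = m i := rfl
      rw [h2, h5]
      ring
    rw [h1, hc, hct, hcm]
    ring
  have hF : 4 * ∑ i, c i * (‖p i‖ ^ 2) ^ 2 = 2 + α := by
    have h1 := hexp 1 0
    simp only [Complex.ofReal_one, one_mul, Complex.ofReal_zero, zero_mul, mul_zero,
      add_zero] at h1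
    rw [h1]
    ring
  have hineq : ∀ x y : ℝ, 4 * (x ^ 2 - y ^ 2) * (2 * x * y) * γ + (2 * x * y) ^ 2 * (β - α) ≤ 0 := by
    intro x y
    have h1 := hmax ζ x y hζ
    have h2 := hexp x y
    have h3 : 4 * ((x ^ 2 + y ^ 2) ^ 2 * ∑ i, c i * (‖p i‖ ^ 2) ^ 2) =
        (x ^ 2 + y ^ 2) ^ 2 * (2 + α) := by
      rw [← hF]; ring
    nlinarith
  have hK : β ≤ α := by
    have h1 := hineq 1 1
    norm_num at h1
    linarith
  refine ⟨?_, hK⟩
  by_contra hne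
  have hg : 0 < |γ| := abs_pos.2 hne
  set K := α - β with hKdef
  have hK0 : 0 ≤ K := by linarith
  have hall : ∀ y : ℝ, 0 < y → y ≤ 1 / 2 → 3 / 4 * (2 * |γ|) ≤ y * K := by
    intro y hy0 hy1
    have h1 := hineq 1 y
    have h2 := hineq 1 (-y)
    have h3 : (1 - y ^ 2) * (2 * γ) ≤ y * K := by
      have : y * ((1 - y ^ 2) * (2 * γ) - y * K) ≤ 0 := by
        rw [hKdef]; nlinarith
      by_contra hcon
      push Not at hcon
      have := mul_pos hy0 (sub_pos.2 hcon)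
      linarith
    have h4 : -((1 - y ^ 2) * (2 * γ)) ≤ y * K := by
      have : y * (-((1 - y ^ 2) * (2 * γ)) - y * K) ≤ 0 := by
        rw [hKdef]; nlinarith
      by_contra hcon
      push Not at hcon
      have := mul_pos hy0 (sub_pos.2 hcon)
      linarith
    have h5 : 3 / 4 ≤ 1 - y ^ 2 := by nlinarith
    rcases abs_cases γ with ⟨h6, h7⟩ | ⟨h6, h7⟩
    · rw [h6]; nlinarith
    · rw [h6]; nlinarith
  have h1 := hall (|γ| / (2 * (K + |γ|))) (by positivity) (by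
    rw [div_le_iff₀ (by positivity)]
    linarith)
  have h2 : |γ| / (2 * (K + |γ|)) * K ≤ |γ| / 2 := by
    rw [div_mul_eq_mul_div, div_le_div_iff₀ (by positivity) (by norm_num)]
    nlinarith
  linarith

private theorem fr_phase (R : ℂ) : ∃ z : ℂ, ‖z‖ = 1 ∧ z ^ 2 * R = ((‖R‖ : ℝ) : ℂ) := by
  refine ⟨Complex.exp ((-(Complex.arg R / 2) : ℝ) * Complex.I), Complex.norm_exp_ofReal_mul_I _, ?_⟩
  rw [← Complex.exp_nat_mul]
  have this : ((2 : ℕ) : ℂ) * (((-(Complex.arg R / 2) : ℝ) : ℂ) * Complex.I) +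
      (Complex.arg R : ℂ) * Complex.I = 0 := by
    push_cast
    ring
  calc Complex.exp (((2 : ℕ) : ℂ) * (((-(Complex.arg R / 2) : ℝ) : ℂ) * Complex.I)) * R
      = Complex.exp (((2 : ℕ) : ℂ) * (((-(Complex.arg R / 2) : ℝ) : ℂ) * Complex.I)) *
        (((‖R‖ : ℝ) : ℂ) * Complex.exp ((Complex.arg R : ℂ) * Complex.I)) := by
        rw [Complex.norm_mul_exp_arg_mul_I]
    _ = ((‖R‖ : ℝ) : ℂ) := by
        rw [mul_left_comm, ← Complex.exp_add, this, Complex.exp_zero, mul_one]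

private theorem fr_bal {ι : Type} [Fintype ι] {c : ι → ℝ} {p q : ι → ℂ} (hB : Bal c p q)
    {u v z : ℂ} (huv : ‖u‖ ^ 2 + ‖v‖ ^ 2 = 1) (hz : ‖z‖ = 1) :
    Bal c (fun i => rp u v (p i) (q i)) (fun i => rq u v z (p i) (q i)) := by
  have hunit : ∀ i, ‖rp u v (p i) (q i)‖ ^ 2 + ‖rq u v z (p i) (q i)‖ ^ 2 = 1 := by
    intro i
    rw [coord_unit huv hz, hB.unit i]
  have hp1 : ∑ i, (c i : ℂ) * (p i * conj (p i)) = 1 := by
    have := hB.sump
    have h2 : ((∑ i, c i * ‖p i‖ ^ 2 : ℝ) : ℂ) = 1 := by rw [this]; norm_num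
    rw [← h2, Complex.ofReal_sum]
    refine Finset.sum_congr rfl fun i _ => ?_
    rw [← fr_sq]; push_cast; ring
  have hq1 : ∑ i, (c i : ℂ) * (q i * conj (q i)) = 1 := by
    have := hB.sumq
    have h2 : ((∑ i, c i * ‖q i‖ ^ 2 : ℝ) : ℂ) = 1 := by rw [this]; norm_num
    rw [← h2, Complex.ofReal_sum]
    refine Finset.sum_congr rfl fun i _ => ?_
    rw [← fr_sq]; push_cast; ring
  have hr1 := hB.sumr
  have hr2 : ∑ i, (c i : ℂ) * (q i * conj (p i)) = 0 := by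
    have h2 := congrArg conj hr1
    rw [map_sum, map_zero] at h2
    rw [← h2]
    refine Finset.sum_congr rfl fun i _ => ?_
    simp only [map_mul, Complex.conj_conj, Complex.conj_ofReal]
    ring
  have huv' : u * conj u + v * conj v = 1 := by
    rw [← fr_sq, ← fr_sq]
    exact_mod_cast huv
  have hsump : ∑ i, c i * ‖rp u v (p i) (q i)‖ ^ 2 = 1 := by
    have h1 : ((∑ i, c i * ‖rp u v (p i) (q i)‖ ^ 2 : ℝ) : ℂ) =
        (u * conj u) * ∑ i, (c i : ℂ) * (p i * conj (p i)) +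
        (v * conj v) * ∑ i, (c i : ℂ) * (q i * conj (q i)) +
        (conj u * v) * ∑ i, (c i : ℂ) * (p i * conj (q i)) +
        (conj v * u) * ∑ i, (c i : ℂ) * (q i * conj (p i)) := by
      rw [Complex.ofReal_sum]
      simp only [Finset.mul_sum, ← Finset.sum_add_distrib]
      refine Finset.sum_congr rfl fun i _ => ?_
      rw [Complex.ofReal_mul, fr_sq]
      unfold rp
      simp only [map_add, map_mul, Complex.conj_conj]
      ring
    rw [hp1, hq1, hr1, hr2, mul_one, mul_one, mul_zero, mul_zero, add_zero, add_zero, huv'] at h1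
    exact_mod_cast h1
  refine ⟨hB.pos, hunit, hsump, ?_, ?_⟩
  · have h1 : ∑ i, c i * ‖rp u v (p i) (q i)‖ ^ 2 + ∑ i, c i * ‖rq u v z (p i) (q i)‖ ^ 2 = 2 := by
      rw [← Finset.sum_add_distrib, ← fr_sumc hB]
      refine Finset.sum_congr rfl fun i _ => ?_
      rw [← mul_add, hunit i, mul_one]
    show ∑ i, c i * ‖rq u v z (p i) (q i)‖ ^ 2 = 1
    linarith
  · have h1 : ∑ i, (c i : ℂ) * (rp u v (p i) (q i) * conj (rq u v z (p i) (q i))) =
        (-(z * (conj u * conj v))) * ∑ i, (c i : ℂ) * (p i * conj (p i)) +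
        (z * (conj u * conj v)) * ∑ i, (c i : ℂ) * (q i * conj (q i)) +
        (z * (conj u) ^ 2) * ∑ i, (c i : ℂ) * (p i * conj (q i)) +
        (-(z * (conj v) ^ 2)) * ∑ i, (c i : ℂ) * (q i * conj (p i)) := by
      simp only [Finset.mul_sum, ← Finset.sum_add_distrib]
      refine Finset.sum_congr rfl fun i _ => ?_
      unfold rp rq
      simp only [map_add, map_mul, map_neg, Complex.conj_conj]
      ring
    show ∑ i, (c i : ℂ) * (rp u v (p i) (q i) * conj (rq u v z (p i) (q i))) = 0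
    rw [h1, hp1, hq1, hr1, hr2]
    ring

theorem frame {ι : Type} [Fintype ι] {c : ι → ℝ} {p q : ι → ℂ} (hB : Bal c p q) :
    ∃ (u v z : ℂ) (mz ρ : ℝ), ‖u‖ ^ 2 + ‖v‖ ^ 2 = 1 ∧ ‖z‖ = 1 ∧
      Bal c (fun i => rp u v (p i) (q i)) (fun i => rq u v z (p i) (q i)) ∧
      Diag c (fun i => rp u v (p i) (q i)) (fun i => rq u v z (p i) (q i)) mz ρ ∧
      |ρ| ≤ (3 * mz - 1) / 2 := by
  classical
  set S : Set (ℂ × ℂ) := {x | ‖x.1‖ ^ 2 + ‖x.2‖ ^ 2 = 1} with hS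
  have hScl : IsClosed S := isClosed_eq (by fun_prop) continuous_const
  have hSb : S ⊆ Metric.closedBall 0 1 := by
    intro x hx
    have hx' : ‖x.1‖ ^ 2 + ‖x.2‖ ^ 2 = 1 := hx
    rw [mem_closedBall_zero_iff, Prod.norm_def]
    refine max_le ?_ ?_
    · nlinarith [norm_nonneg x.1, sq_nonneg ‖x.2‖]
    · nlinarith [norm_nonneg x.2, sq_nonneg ‖x.1‖]
  have hScomp : IsCompact S := (isCompact_closedBall (0 : ℂ × ℂ) 1).of_isClosed_subset hScl hSb
  have hSne : S.Nonempty := ⟨(1, 0), by simp [hS]⟩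
  set f : ℂ × ℂ → ℝ := fun x => ∑ i, c i * (‖rp x.1 x.2 (p i) (q i)‖ ^ 2) ^ 2 with hf
  have hfc : Continuous f := by
    rw [hf]
    unfold rp
    refine continuous_finsetSum _ fun i _ => ?_
    have h1 : Continuous fun x : ℂ × ℂ => conj x.1 * p i + conj x.2 * q i :=
      ((Complex.continuous_conj.comp continuous_fst).mul continuous_const).add
        ((Complex.continuous_conj.comp continuous_snd).mul continuous_const)
    exact continuous_const.mul ((h1.norm.pow 2).pow 2)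
  obtain ⟨w, hwS, hwmax⟩ := hScomp.exists_isMaxOn hSne hfc.continuousOn
  have huv : ‖w.1‖ ^ 2 + ‖w.2‖ ^ 2 = 1 := hwS
  set u := w.1 with hu
  set v := w.2 with hv
  -- homogeneous maximality
  have hhom : ∀ (s a b : ℂ), f (s * a, s * b) = ‖s‖ ^ 4 * f (a, b) := by
    intro s a b
    rw [hf]
    simp only
    rw [Finset.mul_sum]
    refine Finset.sum_congr rfl fun i _ => ?_
    have : rp (s * a) (s * b) (p i) (q i) = conj s * rp a b (p i) (q i) := by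
      unfold rp
      simp only [map_mul]
      ring
    rw [this, norm_mul, RCLike.norm_conj]
    ring
  have hmaxh : ∀ a b : ℂ, f (a, b) ≤ (‖a‖ ^ 2 + ‖b‖ ^ 2) ^ 2 * f (u, v) := by
    intro a b
    by_cases h0 : ‖a‖ ^ 2 + ‖b‖ ^ 2 = 0
    · have ha : a = 0 := by
        have : ‖a‖ ^ 2 = 0 := by nlinarith [sq_nonneg ‖a‖, sq_nonneg ‖b‖]
        simpa using this
      have hb : b = 0 := by
        have : ‖b‖ ^ 2 = 0 := by nlinarith [sq_nonneg ‖a‖, sq_nonneg ‖b‖]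
        simpa using this
      rw [ha, hb, hf]
      simp [rp]
    · have hpos : 0 < ‖a‖ ^ 2 + ‖b‖ ^ 2 := lt_of_le_of_ne (by positivity) (Ne.symm h0)
      set s := Real.sqrt (‖a‖ ^ 2 + ‖b‖ ^ 2) with hs
      have hs0 : 0 < s := Real.sqrt_pos.2 hpos
      have hs2 : s ^ 2 = ‖a‖ ^ 2 + ‖b‖ ^ 2 := Real.sq_sqrt hpos.le
      have hsC : (s : ℂ) ≠ 0 := by exact_mod_cast hs0.ne'
      have h1 : f (a, b) = s ^ 4 * f ((s : ℂ)⁻¹ * a, (s : ℂ)⁻¹ * b) := by
        have h2 := hhom (s : ℂ) ((s : ℂ)⁻¹ * a) ((s : ℂ)⁻¹ * b)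
        rw [mul_inv_cancel_left₀ hsC, mul_inv_cancel_left₀ hsC, Complex.norm_real,
          Real.norm_eq_abs, abs_of_pos hs0] at h2
        exact h2
      have h3 : ((s : ℂ)⁻¹ * a, (s : ℂ)⁻¹ * b) ∈ S := by
        show ‖(s : ℂ)⁻¹ * a‖ ^ 2 + ‖(s : ℂ)⁻¹ * b‖ ^ 2 = 1
        rw [norm_mul, norm_mul, norm_inv, Complex.norm_real, Real.norm_eq_abs, abs_of_pos hs0,
          mul_pow, mul_pow, ← mul_add, ← hs2, inv_pow, inv_mul_cancel₀ (by positivity)]
      have h4 : f ((s : ℂ)⁻¹ * a, (s : ℂ)⁻¹ * b) ≤ f (u, v) := hwmax h3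
      rw [h1, ← hs2]
      calc s ^ 4 * f ((s : ℂ)⁻¹ * a, (s : ℂ)⁻¹ * b) ≤ s ^ 4 * f (u, v) :=
            mul_le_mul_of_nonneg_left h4 (by positivity)
        _ = (s ^ 2) ^ 2 * f (u, v) := by ring
  obtain ⟨z, hz, hzR⟩ := fr_phase (∑ i, (c i : ℂ) *
    (rp u v (p i) (q i) * conj (-(v * p i) + u * q i)) ^ 2)
  have hBn := fr_bal hB huv hz
  set P : ι → ℂ := fun i => rp u v (p i) (q i) with hP
  set Q : ι → ℂ := fun i => rq u v z (p i) (q i) with hQ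
  have hz1 : z * conj z = 1 := by rw [← fr_sq, hz]; norm_num
  have huv' : u * conj u + v * conj v = 1 := by
    rw [← fr_sq, ← fr_sq]
    exact_mod_cast huv
  have hmax : ∀ (ζ : ℂ) (x y : ℝ), ‖ζ‖ = 1 →
      ∑ i, c i * (‖(x : ℂ) * P i + conj ζ * ((y : ℂ) * Q i)‖ ^ 2) ^ 2 ≤
        (x ^ 2 + y ^ 2) ^ 2 * ∑ i, c i * (‖P i‖ ^ 2) ^ 2 := by
    intro ζ x y hζ
    have hζ1 : ζ * conj ζ = 1 := by rw [← fr_sq, hζ]; norm_num
    have h1 := hmaxh (x * u - ζ * (y * (z * conj v))) (x * v + ζ * (y * (z * conj u)))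
    have h2 : ‖(x : ℂ) * u - ζ * (y * (z * conj v))‖ ^ 2 +
        ‖(x : ℂ) * v + ζ * (y * (z * conj u))‖ ^ 2 = x ^ 2 + y ^ 2 := by
      have h3 : ((‖(x : ℂ) * u - ζ * (y * (z * conj v))‖ ^ 2 +
          ‖(x : ℂ) * v + ζ * (y * (z * conj u))‖ ^ 2 : ℝ) : ℂ) = ((x ^ 2 + y ^ 2 : ℝ) : ℂ) := by
        rw [Complex.ofReal_add, fr_sq, fr_sq]
        simp only [map_sub, map_add, map_mul, Complex.conj_conj, Complex.conj_ofReal]
        push_cast
        linear_combination ((x : ℂ) ^ 2 + (y : ℂ) ^ 2 * (ζ * conj ζ) * (z * conj z)) * huv' +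
          (y : ℂ) ^ 2 * (z * conj z) * hζ1 + (y : ℂ) ^ 2 * hz1
      exact_mod_cast h3
    rw [h2] at h1
    have h4 : f ((x : ℂ) * u - ζ * (y * (z * conj v)), (x : ℂ) * v + ζ * (y * (z * conj u))) =
        ∑ i, c i * (‖(x : ℂ) * P i + conj ζ * ((y : ℂ) * Q i)‖ ^ 2) ^ 2 := by
      rw [hf]
      refine Finset.sum_congr rfl fun i _ => ?_
      have : rp ((x : ℂ) * u - ζ * (y * (z * conj v))) ((x : ℂ) * v + ζ * (y * (z * conj u)))
          (p i) (q i) = (x : ℂ) * P i + conj ζ * ((y : ℂ) * Q i) := by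
        rw [hP, hQ]
        unfold rp rq
        simp only [map_sub, map_add, map_mul, Complex.conj_conj, Complex.conj_ofReal]
        ring
      simp only [this]
    rw [h4] at h1
    exact h1
  have hcore := fr_core hBn hmax
  obtain ⟨g1, b1⟩ := hcore 1 (by simp)
  obtain ⟨g2, b2⟩ := hcore Complex.I (by simp)
  set t : ι → ℝ := fun i => ‖P i‖ ^ 2 - ‖Q i‖ ^ 2 with ht
  set r : ι → ℂ := fun i => P i * conj (Q i) with hr
  set ρ := ‖∑ i, (c i : ℂ) * (rp u v (p i) (q i) * conj (-(v * p i) + u * q i)) ^ 2‖ with hρ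
  have hρsum : ∑ i, (c i : ℂ) * (r i) ^ 2 = (ρ : ℂ) := by
    rw [← hzR, Finset.mul_sum]
    refine Finset.sum_congr rfl fun i _ => ?_
    rw [hr, hP, hQ]
    unfold rq
    simp only [map_mul, Complex.conj_conj]
    ring
  have hα : ∑ i, c i * (t i) ^ 2 = 2 * ((∑ i, c i * (t i) ^ 2) / 2) := by ring
  have hrr : ∀ i, ‖r i‖ ^ 2 = (1 - t i ^ 2) / 4 := by
    intro i
    have h1 := hBn.unit i
    have h2 : ‖r i‖ ^ 2 = ‖P i‖ ^ 2 * ‖Q i‖ ^ 2 := by
      rw [hr]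
      simp only [norm_mul, RCLike.norm_conj]
      ring
    have h3 : t i = ‖P i‖ ^ 2 - ‖Q i‖ ^ 2 := rfl
    rw [h2, h3]
    have h4 : ‖Q i‖ ^ 2 = 1 - ‖P i‖ ^ 2 := by linarith
    rw [h4]
    ring
  have hsumrr : ∑ i, c i * ‖r i‖ ^ 2 = (2 - ∑ i, c i * (t i) ^ 2) / 4 := by
    rw [← fr_sumc hB, ← Finset.sum_sub_distrib, Finset.sum_div]
    refine Finset.sum_congr rfl fun i _ => ?_
    rw [hrr i]
    ring
  have hre : ∑ i, c i * (r i ^ 2).re = ρ := by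
    have h1 := congrArg Complex.re hρsum
    rw [Complex.re_sum, Complex.ofReal_re] at h1
    rw [← h1]
    refine Finset.sum_congr rfl fun i _ => ?_
    rw [Complex.re_ofReal_mul]
  have hβ1 : ∑ i, c i * (2 * (1 * r i).re) ^ 2 =
      2 * ∑ i, c i * ‖r i‖ ^ 2 + 2 * ∑ i, c i * (r i ^ 2).re := by
    rw [Finset.mul_sum, Finset.mul_sum, ← Finset.sum_add_distrib]
    refine Finset.sum_congr rfl fun i _ => ?_
    generalize r i = s
    rw [one_mul, ← Complex.normSq_eq_norm_sq, Complex.normSq_apply, sq s, Complex.mul_re]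
    ring
  have hβ2 : ∑ i, c i * (2 * (Complex.I * r i).re) ^ 2 =
      2 * ∑ i, c i * ‖r i‖ ^ 2 - 2 * ∑ i, c i * (r i ^ 2).re := by
    rw [Finset.mul_sum, Finset.mul_sum, ← Finset.sum_sub_distrib]
    refine Finset.sum_congr rfl fun i _ => ?_
    generalize r i = s
    rw [← Complex.normSq_eq_norm_sq, Complex.normSq_apply, sq s, Complex.mul_re,
      Complex.mul_re, Complex.I_re, Complex.I_im]
    ring
  refine ⟨u, v, z, (∑ i, c i * (t i) ^ 2) / 2, ρ, huv, hz, hBn, ⟨hα, ?_, hρsum⟩, ?_⟩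
  · apply Complex.ext
    · rw [Complex.re_sum, Complex.zero_re, ← g1]
      refine Finset.sum_congr rfl fun i _ => ?_
      rw [Complex.re_ofReal_mul, Complex.re_ofReal_mul, one_mul]
    · rw [Complex.im_sum, Complex.zero_im]
      have h1 : ∑ i, ((c i : ℂ) * (((t i : ℝ) : ℂ) * r i)).im =
          -∑ i, c i * (t i * (Complex.I * r i).re) := by
        rw [← Finset.sum_neg_distrib]
        refine Finset.sum_congr rfl fun i _ => ?_
        rw [Complex.im_ofReal_mul, Complex.im_ofReal_mul, Complex.mul_re, Complex.I_re,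
          Complex.I_im]
        ring
      refine h1.trans ?_
      rw [g2, neg_zero]
  · rw [hβ1, hsumrr, hre] at b1
    rw [hβ2, hsumrr, hre] at b2
    rw [abs_le]
    constructor <;> linarith

end Pool.MinMax
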