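import Pool.Agent.Work.MP_9667ca_an.BalFrom
import Pool.Agent.Work.MP_9667ca_an.MinPoint

/-!
# MP_9667ca_an, module JOHN: John position of a two-dimensional complex normed space

(1) Let `e` be a basis of `E` (`finrank = 2`). `W = {(x,y) ∈ E × E | ∀ p q, ‖p•x + q•y‖² ≤ |p|²+|q|²}`
is closed and bounded, so compact; `det (x,y)` (coordinates in `e`) is continuous and nonzero
somewhere on `W` (small multiples of the basis); let `(f₁, f₂)` maximise `|det|` on `W`. Then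
`f₁, f₂` is a basis.
(2) Contact set `C = {(p,q) | |p|²+|q|² = 1, ‖p•f₁+q•f₂‖ = 1}`, compact. Claim
`0 ∈ convexHull (bloch '' C)`; then `balFrom`. If not, there are a real vector
`(x, y, t)` and `δ > 0` with `⟨(x,y,t), bloch ξ⟩ ≥ δ` for all `ξ ∈ C` (`minpoint` if `C ≠ ∅`,
anything if `C = ∅`). Let `Hm = [[t, x+iy],[x-iy, -t]]` (check the sign so that
`⟨Hm ξ, ξ⟩ = ⟨(x,y,t), bloch ξ⟩`), Hermitian with `Hm² = (x²+y²+t²) = e²`, and
`D_ε = 1 - ε Hm`, `det D_ε = 1 - ε² e²`, `|D_ε ξ|² = |ξ|² (1 + ε² e²) - 2ε ⟨Hm ξ, ξ⟩`.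
For small `ε > 0` and all unit `ξ`: `‖w(D_ε ξ)‖ ≤ 1 - ε δ/4` where `w ξ = ξ₁•f₁+ξ₂•f₂`: if
`⟨Hm ξ, ξ⟩ ≥ δ/2` then `‖w(D_ε ξ)‖ ≤ |D_ε ξ| ≤ sqrt(1 - εδ + ε²e²) ≤ 1 - εδ/4`; the set of unit `ξ`
with `⟨Hm ξ, ξ⟩ ≤ δ/2` is compact and disjoint from `C`, so `‖w ξ‖ ≤ 1 - η` on it and
`‖w(D_ε ξ)‖ ≤ 1 - η + ε e ≤ 1 - εδ/4`. So the pair `(w(D_ε e₁), w(D_ε e₂))/(1 - εδ/4)` is in `W` and
its `|det|` is `|det(f₁,f₂)| (1 - ε²e²)/(1 - εδ/4)² > |det(f₁,f₂)|` for small `ε`. Contradiction.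
-/

namespace Pool.MinMax

open scoped ComplexConjugate

/-- squared Euclidean norm -/
private noncomputable def jnS (x : ℂ × ℂ) : ℝ := ‖x.1‖ ^ 2 + ‖x.2‖ ^ 2

private theorem jnS_cont : Continuous jnS := by
  unfold jnS; fun_prop

private theorem jnS_normSq (x : ℂ × ℂ) :
    jnS x = x.1.re ^ 2 + x.1.im ^ 2 + (x.2.re ^ 2 + x.2.im ^ 2) := by
  unfold jnS
  rw [← Complex.normSq_eq_norm_sq, ← Complex.normSq_eq_norm_sq, Complex.normSq_apply,
    Complex.normSq_apply]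
  ring

/-- the Hermitian matrix of a Bloch vector -/
private noncomputable def jnH (v : EuclideanSpace ℝ (Fin 3)) (x : ℂ × ℂ) : ℂ × ℂ :=
  ((v 2 : ℂ) * x.1 + ⟨v 0, v 1⟩ * x.2, (⟨v 0, -v 1⟩ : ℂ) * x.1 - (v 2 : ℂ) * x.2)

private noncomputable def jnE (v : EuclideanSpace ℝ (Fin 3)) : ℝ := v 0 ^ 2 + v 1 ^ 2 + v 2 ^ 2

private theorem jn_inner (v : EuclideanSpace ℝ (Fin 3)) (x : ℂ × ℂ) :
    inner ℝ v (bloch x) = 2 * (v 0 * (x.1 * conj x.2).re + v 1 * (x.1 * conj x.2).im) +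
      v 2 * (‖x.1‖ ^ 2 - ‖x.2‖ ^ 2) := by
  rw [PiLp.inner_apply, Fin.sum_univ_three]
  simp only [bloch, RCLike.inner_apply, conj_trivial]
  simp
  ring

private theorem jn_H_norm (v : EuclideanSpace ℝ (Fin 3)) (x : ℂ × ℂ) :
    jnS (jnH v x) = jnE v * jnS x := by
  rw [jnS_normSq, jnS_normSq]
  unfold jnH jnE
  simp
  ring

private theorem jn_D_norm (v : EuclideanSpace ℝ (Fin 3)) (ε : ℝ) (x : ℂ × ℂ) :
    jnS (x.1 - ε * (jnH v x).1, x.2 - ε * (jnH v x).2) =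
      jnS x - 2 * ε * inner ℝ v (bloch x) + ε ^ 2 * (jnE v * jnS x) := by
  rw [jn_inner, ← Complex.normSq_eq_norm_sq, ← Complex.normSq_eq_norm_sq, Complex.normSq_apply,
    Complex.normSq_apply, jnS_normSq, jnS_normSq]
  unfold jnH jnE
  simp
  ring

private theorem jn_bloch_cont : Continuous bloch := by
  unfold bloch
  have h : Continuous fun x : ℂ × ℂ => (fun j : Fin 3 =>
      (![2 * (x.1 * conj x.2).re, 2 * (x.1 * conj x.2).im, ‖x.1‖ ^ 2 - ‖x.2‖ ^ 2] : Fin 3 → ℝ) j) := by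
    apply continuous_pi
    intro j
    fin_cases j
    · simp only [Fin.zero_eta, Matrix.cons_val_zero]
      exact continuous_const.mul (Complex.continuous_re.comp
        (continuous_fst.mul (Complex.continuous_conj.comp continuous_snd)))
    · simp only [Fin.mk_one, Matrix.cons_val_one]
      exact continuous_const.mul (Complex.continuous_im.comp
        (continuous_fst.mul (Complex.continuous_conj.comp continuous_snd)))
    · simp only [Fin.reduceFinMk, Matrix.cons_val]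
      fun_prop
  exact (PiLp.continuous_toLp 2 _).comp h

private theorem jn_sphere : IsCompact {x : ℂ × ℂ | jnS x = 1} := by
  apply Metric.isCompact_of_isClosed_isBounded
  · exact isClosed_eq jnS_cont continuous_const
  · rw [isBounded_iff_forall_norm_le]
    refine ⟨1, fun x hx => ?_⟩
    have hx' : ‖x.1‖ ^ 2 + ‖x.2‖ ^ 2 = 1 := hx
    rw [Prod.norm_def, max_le_iff]
    constructor
    · nlinarith [norm_nonneg x.1, sq_nonneg ‖x.2‖]
    · nlinarith [norm_nonneg x.2, sq_nonneg ‖x.1‖]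

/-- the improvement step -/
private theorem jn_step {E : Type*} [NormedAddCommGroup E] [NormedSpace ℂ E] (f₁ f₂ : E)
    (hW : ∀ p q : ℂ, ‖p • f₁ + q • f₂‖ ^ 2 ≤ ‖p‖ ^ 2 + ‖q‖ ^ 2)
    (h0 : (0 : EuclideanSpace ℝ (Fin 3)) ∉
      convexHull ℝ (bloch '' {x : ℂ × ℂ | jnS x = 1 ∧ ‖x.1 • f₁ + x.2 • f₂‖ = 1})) :
    ∃ a b c d : ℂ, 1 < ‖a * d - b * c‖ ∧ ∀ p q : ℂ,
      ‖p • (a • f₁ + b • f₂) + q • (c • f₁ + d • f₂)‖ ^ 2 ≤ ‖p‖ ^ 2 + ‖q‖ ^ 2 := by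
  have hwc : Continuous fun x : ℂ × ℂ => ‖x.1 • f₁ + x.2 • f₂‖ := by fun_prop
  have hw1 : ∀ x : ℂ × ℂ, jnS x = 1 → ‖x.1 • f₁ + x.2 • f₂‖ ≤ 1 := by
    intro x hx
    have h1 := hW x.1 x.2
    have h2 : ‖x.1‖ ^ 2 + ‖x.2‖ ^ 2 = 1 := hx
    rw [h2] at h1
    nlinarith [norm_nonneg (x.1 • f₁ + x.2 • f₂)]
  -- the separating vector
  obtain ⟨v, δ, hδ, hv⟩ : ∃ (v : EuclideanSpace ℝ (Fin 3)) (δ : ℝ), 0 < δ ∧
      ∀ x : ℂ × ℂ, jnS x = 1 → ‖x.1 • f₁ + x.2 • f₂‖ = 1 → δ ≤ inner ℝ v (bloch x) := by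
    rcases Set.eq_empty_or_nonempty {x : ℂ × ℂ | jnS x = 1 ∧ ‖x.1 • f₁ + x.2 • f₂‖ = 1} with hC | hC
    · refine ⟨0, 1, one_pos, fun x hx hx2 => ?_⟩
      have : x ∈ {x : ℂ × ℂ | jnS x = 1 ∧ ‖x.1 • f₁ + x.2 • f₂‖ = 1} := ⟨hx, hx2⟩
      rw [hC] at this
      exact absurd this (Set.notMem_empty _)
    · have hcomp : IsCompact {x : ℂ × ℂ | jnS x = 1 ∧ ‖x.1 • f₁ + x.2 • f₂‖ = 1} :=
        jn_sphere.inter_right (isClosed_eq hwc continuous_const)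
      obtain ⟨v, -, hv0, hv⟩ := minpoint (hcomp.image jn_bloch_cont) (hC.image _) h0
      exact ⟨v, ‖v‖ ^ 2, by positivity, fun x hx hx2 => hv _ ⟨x, ⟨hx, hx2⟩, rfl⟩⟩
  have hic : Continuous fun x : ℂ × ℂ => inner ℝ v (bloch x) :=
    continuous_const.inner jn_bloch_cont
  -- the gap away from the contact set
  obtain ⟨η, hη, hgap⟩ : ∃ η : ℝ, 0 < η ∧ ∀ x : ℂ × ℂ, jnS x = 1 →
      inner ℝ v (bloch x) ≤ δ / 2 → ‖x.1 • f₁ + x.2 • f₂‖ ≤ 1 - η := by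
    have hK : IsCompact {x : ℂ × ℂ | jnS x = 1 ∧ inner ℝ v (bloch x) ≤ δ / 2} :=
      jn_sphere.inter_right (isClosed_le hic continuous_const)
    rcases Set.eq_empty_or_nonempty {x : ℂ × ℂ | jnS x = 1 ∧ inner ℝ v (bloch x) ≤ δ / 2}
      with hE | hE
    · refine ⟨1, one_pos, fun x hx hx2 => ?_⟩
      have : x ∈ {x : ℂ × ℂ | jnS x = 1 ∧ inner ℝ v (bloch x) ≤ δ / 2} := ⟨hx, hx2⟩
      rw [hE] at this
      exact absurd this (Set.notMem_empty _)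
    · obtain ⟨x0, hx0, hmax⟩ := hK.exists_isMaxOn hE hwc.continuousOn
      refine ⟨1 - ‖x0.1 • f₁ + x0.2 • f₂‖, ?_, fun x hx hx2 => ?_⟩
      · rcases (hw1 x0 hx0.1).lt_or_eq with h | h
        · linarith
        · exfalso
          have := hv x0 hx0.1 h
          have h2 := hx0.2
          linarith
      · have := hmax (show x ∈ {x : ℂ × ℂ | jnS x = 1 ∧ inner ℝ v (bloch x) ≤ δ / 2} from ⟨hx, hx2⟩)
        simp only [Set.mem_setOf_eq] at this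
        linarith
  obtain ⟨e2, he2⟩ : ∃ e2 : ℝ, e2 = jnE v := ⟨_, rfl⟩
  have he20 : 0 ≤ e2 := by rw [he2]; unfold jnE; positivity
  obtain ⟨e, he⟩ : ∃ e : ℝ, e = Real.sqrt e2 := ⟨_, rfl⟩
  have he0 : 0 ≤ e := by rw [he]; exact Real.sqrt_nonneg _
  have hee : e ^ 2 = e2 := by rw [he]; exact Real.sq_sqrt he20
  -- choice of ε
  obtain ⟨ε, hε, hε1, hε2, hε3⟩ : ∃ ε : ℝ, 0 < ε ∧ ε * (4 * (e2 + δ ^ 2 / 16)) ≤ δ ∧
      ε * (e + δ / 4) ≤ η ∧ ε * δ ≤ 1 := by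
    refine ⟨min (δ / (4 * (e2 + δ ^ 2 / 16))) (min (η / (e + δ / 4)) (1 / δ)), ?_, ?_, ?_, ?_⟩
    · refine lt_min (by positivity) (lt_min (by positivity) (by positivity))
    · calc _ ≤ δ / (4 * (e2 + δ ^ 2 / 16)) * (4 * (e2 + δ ^ 2 / 16)) :=
            mul_le_mul_of_nonneg_right (min_le_left _ _) (by positivity)
        _ = δ := by field_simp
    · calc _ ≤ η / (e + δ / 4) * (e + δ / 4) :=
            mul_le_mul_of_nonneg_right ((min_le_right _ _).trans (min_le_left _ _)) (by positivity)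
        _ = η := by field_simp
    · calc _ ≤ 1 / δ * δ :=
            mul_le_mul_of_nonneg_right ((min_le_right _ _).trans (min_le_right _ _)) hδ.le
        _ = 1 := by field_simp
  obtain ⟨κ, hκ⟩ : ∃ κ : ℝ, κ = 1 - ε * δ / 4 := ⟨_, rfl⟩
  have hκ0 : 0 < κ := by rw [hκ]; linarith
  -- the bound on unit vectors
  have hunit : ∀ x : ℂ × ℂ, jnS x = 1 → ‖(x.1 - ε * (jnH v x).1) • f₁ +
      (x.2 - ε * (jnH v x).2) • f₂‖ ≤ κ := by
    intro x hx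
    rcases le_total (δ / 2) (inner ℝ v (bloch x)) with h | h
    · have h1 := hW (x.1 - ε * (jnH v x).1) (x.2 - ε * (jnH v x).2)
      have h2 := jn_D_norm v ε x
      rw [hx, ← he2] at h2
      have h3 : ‖x.1 - ε * (jnH v x).1‖ ^ 2 + ‖x.2 - ε * (jnH v x).2‖ ^ 2 =
          1 - 2 * ε * inner ℝ v (bloch x) + ε ^ 2 * (e2 * 1) := h2
      rw [h3] at h1
      apply abs_le_of_sq_le_sq' _ hκ0.le |>.2
      refine h1.trans ?_
      rw [hκ]
      nlinarith [mul_le_mul_of_nonneg_left h hε.le, mul_le_mul_of_nonneg_left hε1 hε.le,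
        sq_nonneg (ε * δ)]
    · have h1 := hgap x hx h
      have h2 : (x.1 - ε * (jnH v x).1) • f₁ + (x.2 - ε * (jnH v x).2) • f₂ =
          (x.1 • f₁ + x.2 • f₂) - (ε : ℂ) • ((jnH v x).1 • f₁ + (jnH v x).2 • f₂) := by
        module
      have h3 : ‖(jnH v x).1 • f₁ + (jnH v x).2 • f₂‖ ≤ e := by
        have h4 := hW (jnH v x).1 (jnH v x).2
        have h5 := jn_H_norm v x
        rw [hx, ← he2, mul_one] at h5
        have h6 : ‖(jnH v x).1‖ ^ 2 + ‖(jnH v x).2‖ ^ 2 = e2 := h5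
        rw [h6, ← hee] at h4
        exact abs_le_of_sq_le_sq' h4 he0 |>.2
      rw [h2]
      refine (norm_sub_le _ _).trans ?_
      rw [norm_smul, Complex.norm_real, Real.norm_of_nonneg hε.le, hκ]
      nlinarith [mul_le_mul_of_nonneg_left h3 hε.le]
  -- homogeneity
  have hall : ∀ x : ℂ × ℂ, ‖(x.1 - ε * (jnH v x).1) • f₁ + (x.2 - ε * (jnH v x).2) • f₂‖ ^ 2 ≤
      κ ^ 2 * jnS x := by
    intro x
    obtain ⟨s, hs⟩ : ∃ s : ℝ, s = Real.sqrt (jnS x) := ⟨_, rfl⟩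
    have hS0 : 0 ≤ jnS x := by unfold jnS; positivity
    have hs2 : s ^ 2 = jnS x := by rw [hs]; exact Real.sq_sqrt hS0
    rcases hS0.eq_or_lt with h | h
    · have h1 : ‖x.1‖ ^ 2 + ‖x.2‖ ^ 2 = 0 := h.symm
      have hx1 : x.1 = 0 := by
        have : ‖x.1‖ ^ 2 = 0 := by nlinarith [sq_nonneg ‖x.1‖, sq_nonneg ‖x.2‖]
        exact norm_eq_zero.1 (pow_eq_zero_iff two_ne_zero |>.1 this)
      have hx2 : x.2 = 0 := by
        have : ‖x.2‖ ^ 2 = 0 := by nlinarith [sq_nonneg ‖x.1‖, sq_nonneg ‖x.2‖]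
        exact norm_eq_zero.1 (pow_eq_zero_iff two_ne_zero |>.1 this)
      unfold jnH
      rw [hx1, hx2, ← h]
      simp
    · have hs0 : 0 < s := by rw [hs]; exact Real.sqrt_pos.2 h
      have hu := hunit ((s : ℂ)⁻¹ * x.1, (s : ℂ)⁻¹ * x.2) (by
        unfold jnS
        rw [norm_mul, norm_mul, norm_inv, Complex.norm_real, Real.norm_of_nonneg hs0.le, mul_pow,
          mul_pow, ← mul_add]
        have h1 : ‖x.1‖ ^ 2 + ‖x.2‖ ^ 2 = s ^ 2 := by rw [hs2]; rfl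
        rw [h1, inv_pow]
        field_simp)
      have h2 : ((s : ℂ)⁻¹ * x.1 - ε * (jnH v ((s : ℂ)⁻¹ * x.1, (s : ℂ)⁻¹ * x.2)).1) • f₁ +
          ((s : ℂ)⁻¹ * x.2 - ε * (jnH v ((s : ℂ)⁻¹ * x.1, (s : ℂ)⁻¹ * x.2)).2) • f₂ =
          (s : ℂ)⁻¹ • ((x.1 - ε * (jnH v x).1) • f₁ + (x.2 - ε * (jnH v x).2) • f₂) := by
        unfold jnH
        simp only
        module
      simp only at hu
      rw [h2, norm_smul, norm_inv, Complex.norm_real, Real.norm_of_nonneg hs0.le,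
        inv_mul_le_iff₀ hs0] at hu
      have h3 := pow_le_pow_left₀ (norm_nonneg _) hu 2
      rw [mul_pow, hs2] at h3
      linarith
  -- the new pair
  obtain ⟨a, ha⟩ : ∃ a : ℂ, a = ⟨v 0, v 1⟩ := ⟨_, rfl⟩
  obtain ⟨a', ha'⟩ : ∃ a' : ℂ, a' = ⟨v 0, -v 1⟩ := ⟨_, rfl⟩
  have haa : a * a' = ((v 0 ^ 2 + v 1 ^ 2 : ℝ) : ℂ) := by
    rw [ha, ha']
    apply Complex.ext
    · rw [Complex.mul_re, Complex.ofReal_re]; ring
    · rw [Complex.mul_im, Complex.ofReal_im]; ring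
  have hκc : (κ : ℂ) ≠ 0 := by exact_mod_cast hκ0.ne'
  refine ⟨(κ : ℂ)⁻¹ * (1 - ε * v 2), (κ : ℂ)⁻¹ * (-(ε * a')), (κ : ℂ)⁻¹ * (-(ε * a)),
    (κ : ℂ)⁻¹ * (1 + ε * v 2), ?_, ?_⟩
  · have h1 : (κ : ℂ)⁻¹ * (1 - ε * v 2) * ((κ : ℂ)⁻¹ * (1 + ε * v 2)) -
        (κ : ℂ)⁻¹ * (-(ε * a')) * ((κ : ℂ)⁻¹ * (-(ε * a))) =
        (((1 - ε ^ 2 * e2) / κ ^ 2 : ℝ) : ℂ) := by
      have h2 : (e2 : ℂ) = a * a' + (v 2 : ℂ) ^ 2 := by
        rw [haa, he2]; unfold jnE; push_cast; ring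
      push_cast
      rw [h2]
      field_simp
      ring
    rw [h1, Complex.norm_real, Real.norm_eq_abs]
    refine lt_of_lt_of_le ?_ (le_abs_self _)
    rw [one_lt_div (by positivity), hκ]
    have h3 := mul_le_mul_of_nonneg_left hε1 hε.le
    have h4 : 0 < ε * δ := by positivity
    nlinarith
  · intro p q
    have h1 := hall (p, q)
    simp only at h1
    have h2 : p • (((κ : ℂ)⁻¹ * (1 - ε * v 2)) • f₁ + ((κ : ℂ)⁻¹ * (-(ε * a'))) • f₂) +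
        q • (((κ : ℂ)⁻¹ * (-(ε * a))) • f₁ + ((κ : ℂ)⁻¹ * (1 + ε * v 2)) • f₂) =
        (κ : ℂ)⁻¹ • ((p - ε * (jnH v (p, q)).1) • f₁ + (q - ε * (jnH v (p, q)).2) • f₂) := by
      unfold jnH
      simp only
      rw [← ha, ← ha']
      module
    rw [h2, norm_smul, mul_pow, norm_inv, Complex.norm_real, Real.norm_of_nonneg hκ0.le, inv_pow,
      inv_mul_le_iff₀ (by positivity)]
    exact h1

theorem john (E : Type*) [NormedAddCommGroup E] [NormedSpace ℂ E]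
    (hE : Module.finrank ℂ E = 2) :
    ∃ f₁ f₂ : E, (∀ x : E, ∃ p q : ℂ, x = p • f₁ + q • f₂) ∧
      (∀ p q : ℂ, ‖p • f₁ + q • f₂‖ ^ 2 ≤ ‖p‖ ^ 2 + ‖q‖ ^ 2) ∧
      ∃ (ι : Type) (_ : Fintype ι) (c : ι → ℝ) (p q : ι → ℂ), Bal c p q ∧
        ∀ i, ‖p i • f₁ + q i • f₂‖ = 1 := by
  have hfd : FiniteDimensional ℂ E := Module.finite_of_finrank_pos (by rw [hE]; norm_num)
  have hproper : ProperSpace E := FiniteDimensional.proper ℂ E
  let e : Module.Basis (Fin 2) ℂ E := Module.finBasisOfFinrankEq ℂ E hE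
  obtain ⟨W, hWdef⟩ : ∃ W : Set (E × E), W = {x | ∀ p q : ℂ,
    ‖p • x.1 + q • x.2‖ ^ 2 ≤ ‖p‖ ^ 2 + ‖q‖ ^ 2} := ⟨_, rfl⟩
  have hWc : IsCompact W := by
    apply Metric.isCompact_of_isClosed_isBounded
    · have h1 : W = ⋂ p : ℂ, ⋂ q : ℂ, {x : E × E |
          ‖p • x.1 + q • x.2‖ ^ 2 ≤ ‖p‖ ^ 2 + ‖q‖ ^ 2} := by
        rw [hWdef]; ext x; simp
      rw [h1]
      refine isClosed_iInter fun p => isClosed_iInter fun q => ?_
      exact isClosed_le (by fun_prop) continuous_const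
    · rw [isBounded_iff_forall_norm_le]
      refine ⟨1, fun x hx => ?_⟩
      rw [hWdef] at hx
      have h1 := hx 1 0
      have h2 := hx 0 1
      simp only [one_smul, zero_smul, add_zero, zero_add, norm_one, norm_zero] at h1 h2
      rw [Prod.norm_def, max_le_iff]
      constructor
      · nlinarith [norm_nonneg x.1]
      · nlinarith [norm_nonneg x.2]
  let co : Fin 2 → E →ₗ[ℂ] ℂ := fun i => e.coord i
  have hco : ∀ i, Continuous (co i) := fun i => (co i).continuous_of_finiteDimensional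
  obtain ⟨D, hD⟩ : ∃ D : E × E → ℂ, D = fun x => co 0 x.1 * co 1 x.2 - co 1 x.1 * co 0 x.2 :=
    ⟨_, rfl⟩
  have hDc : Continuous D := by
    rw [hD]
    exact (((hco 0).comp continuous_fst).mul ((hco 1).comp continuous_snd)).sub
      (((hco 1).comp continuous_fst).mul ((hco 0).comp continuous_snd))
  have hne : W.Nonempty := by
    refine ⟨(0, 0), ?_⟩
    rw [hWdef]
    intro p q
    simp
    positivity
  obtain ⟨⟨f₁, f₂⟩, hf, hmax⟩ := hWc.exists_isMaxOn hne hDc.norm.continuousOn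
  have hfW : ∀ p q : ℂ, ‖p • f₁ + q • f₂‖ ^ 2 ≤ ‖p‖ ^ 2 + ‖q‖ ^ 2 := by
    rw [hWdef] at hf; exact hf
  have hmax' : ∀ x ∈ W, ‖D x‖ ≤ ‖D (f₁, f₂)‖ := fun x hx => hmax hx
  -- the determinant is not zero
  have hdet : 0 < ‖D (f₁, f₂)‖ := by
    obtain ⟨M, hM⟩ : ∃ M : ℝ, M = ‖e 0‖ + ‖e 1‖ + 1 := ⟨_, rfl⟩
    have hM0 : 0 < M := by rw [hM]; positivity
    obtain ⟨r, hr⟩ : ∃ r : ℝ, r = 1 / (2 * M) := ⟨_, rfl⟩
    have hr0 : 0 < r := by rw [hr]; positivity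
    have hrM : r * M = 1 / 2 := by rw [hr]; field_simp
    have hmem : ((r : ℂ) • e 0, (r : ℂ) • e 1) ∈ W := by
      rw [hWdef]
      intro p q
      simp only
      have h1 : ‖p • (r : ℂ) • e 0 + q • (r : ℂ) • e 1‖ ≤ (‖p‖ + ‖q‖) * (r * M) := by
        refine (norm_add_le _ _).trans ?_
        rw [norm_smul, norm_smul, norm_smul, norm_smul, Complex.norm_real,
          Real.norm_of_nonneg hr0.le]
        have h2 : ‖e 0‖ ≤ M := by rw [hM]; linarith [norm_nonneg (e 1)]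
        have h3 : ‖e 1‖ ≤ M := by rw [hM]; linarith [norm_nonneg (e 0)]
        have h4 : ‖p‖ * (r * ‖e 0‖) ≤ ‖p‖ * (r * M) := by gcongr
        have h5 : ‖q‖ * (r * ‖e 1‖) ≤ ‖q‖ * (r * M) := by gcongr
        linarith
      rw [hrM] at h1
      have h6 := pow_le_pow_left₀ (norm_nonneg _) h1 2
      refine h6.trans ?_
      nlinarith [sq_nonneg (‖p‖ - ‖q‖), sq_nonneg ‖p‖, sq_nonneg ‖q‖]
    have h7 := hmax' _ hmem
    refine lt_of_lt_of_le ?_ h7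
    rw [norm_pos_iff, hD]
    simp only [co, map_smul, Module.Basis.coord_apply, Module.Basis.repr_self, smul_eq_mul]
    simp [hr0.ne']
  have hdne : D (f₁, f₂) ≠ 0 := norm_pos_iff.1 hdet
  have hDf : D (f₁, f₂) = co 0 f₁ * co 1 f₂ - co 1 f₁ * co 0 f₂ := by rw [hD]
  refine ⟨f₁, f₂, ?_, hfW, ?_⟩
  · intro x
    obtain ⟨dd, hdd⟩ : ∃ dd : ℂ, dd = co 0 f₁ * co 1 f₂ - co 1 f₁ * co 0 f₂ := ⟨_, rfl⟩
    have hdd0 : dd ≠ 0 := by rw [hdd, ← hDf]; exact hdne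
    refine ⟨(co 0 x * co 1 f₂ - co 1 x * co 0 f₂) / dd,
      (co 0 f₁ * co 1 x - co 1 f₁ * co 0 x) / dd, ?_⟩
    apply e.ext_elem
    intro i
    have h1 : ∀ y : E, e.repr y i = co i y := fun y => rfl
    rw [h1, h1, map_add, map_smul, map_smul, smul_eq_mul, smul_eq_mul]
    fin_cases i
    · simp only [Fin.zero_eta]
      field_simp
      rw [hdd]
      ring
    · simp only [Fin.mk_one]
      field_simp
      rw [hdd]
      ring
  · have h0 : (0 : EuclideanSpace ℝ (Fin 3)) ∈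
        convexHull ℝ (bloch '' {x : ℂ × ℂ | jnS x = 1 ∧ ‖x.1 • f₁ + x.2 • f₂‖ = 1}) := by
      by_contra hcon
      obtain ⟨a, b, c, d, h1, h2⟩ := jn_step f₁ f₂ hfW hcon
      have hmem : (a • f₁ + b • f₂, c • f₁ + d • f₂) ∈ W := by
        rw [hWdef]; exact h2
      have h3 := hmax' _ hmem
      have h4 : D (a • f₁ + b • f₂, c • f₁ + d • f₂) = (a * d - b * c) * D (f₁, f₂) := by
        rw [hD]
        simp only [map_add, map_smul, smul_eq_mul]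
        ring
      rw [h4, norm_mul] at h3
      nlinarith
    obtain ⟨ι, hι, c, p, q, hB, hC⟩ := balFrom (fun x hx => hx.1) h0
    exact ⟨ι, hι, c, p, q, hB, fun i => (hC i).2⟩

end Pool.MinMax
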