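import Pool.Agent.Work.MP_9667ca_an.Space

/-!
# MP_9667ca_an, module LOWER: `α(ℓ₂²) ≥ √2`

`m = 2`, `X = !![f₁, f₂; 0, 0]` with `f_j = e.symm (EuclideanSpace.single j 1)`.
`minNorm X ≤ 1`: for `‖ξ‖ ≤ 1`, `X.map ξ = [[ξ f₁, ξ f₂],[0,0]]` has norm
`≤ sqrt(|ξ f₁|² + |ξ f₂|²) ≤ 1` (evaluate `ξ` at `conj(ξ f₁)•f₁ + conj(ξ f₂)•f₂`).
`maxNorm X ≥ √2`: `H = EuclideanSpace ℂ (ULift.{v} (Fin 2))`, `u(x) h = (x₁ h₁ + x₂ h₂) e₁`
(`x_j = (e x) j`), `‖u x‖ ≤ ‖x‖` by Cauchy–Schwarz; test vector `h = (e₁, e₂) ∈ H²` of norm `√2`: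
`blockOp (X.map u) h = (u f₁ e₁ + u f₂ e₂, 0) = (2 e₁, 0)`, of norm `2`.
-/

namespace Pool.MinMax

open scoped ComplexConjugate ENNReal Matrix.Norms.L2Operator

universe u v

private lemma lw_row (a b : ℂ) (h : ‖a‖ ^ 2 + ‖b‖ ^ 2 ≤ 1) : ‖!![a, b; 0, 0]‖ ≤ 1 := by
  have h1 : !![a, b; 0, 0] * star !![a, b; 0, 0] =
      Matrix.diagonal ![((‖a‖ ^ 2 + ‖b‖ ^ 2 : ℝ) : ℂ), 0] := by
    ext i j
    fin_cases i <;> fin_cases j <;>
      simp [Matrix.mul_apply, Fin.sum_univ_two, Matrix.star_apply, Complex.mul_conj,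
        Complex.normSq_eq_norm_sq]
  have h2 := CStarRing.norm_self_mul_star (x := !![a, b; 0, 0])
  rw [h1, Matrix.l2_opNorm_diagonal] at h2
  have h3 : ‖![((‖a‖ ^ 2 + ‖b‖ ^ 2 : ℝ) : ℂ), 0]‖ ≤ 1 := by
    rw [pi_norm_le_iff_of_nonneg zero_le_one]
    intro i
    fin_cases i
    · show ‖((‖a‖ ^ 2 + ‖b‖ ^ 2 : ℝ) : ℂ)‖ ≤ 1
      rw [Complex.norm_real, Real.norm_of_nonneg (by positivity)]
      exact h
    · show ‖(0 : ℂ)‖ ≤ 1
      simp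
  rw [h2] at h3
  nlinarith [norm_nonneg !![a, b; 0, 0]]

private lemma lw_cs (a b c d : ℂ) :
    ‖a * c + b * d‖ ≤ √(‖a‖ ^ 2 + ‖b‖ ^ 2) * √(‖c‖ ^ 2 + ‖d‖ ^ 2) := by
  rw [← Real.sqrt_mul (by positivity)]
  apply Real.le_sqrt_of_sq_le
  have h1 : ‖a * c + b * d‖ ≤ ‖a‖ * ‖c‖ + ‖b‖ * ‖d‖ := by
    refine (norm_add_le _ _).trans ?_
    rw [norm_mul, norm_mul]
  have h2 : ‖a * c + b * d‖ ^ 2 ≤ (‖a‖ * ‖c‖ + ‖b‖ * ‖d‖) ^ 2 :=
    pow_le_pow_left₀ (norm_nonneg _) h1 2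
  nlinarith [sq_nonneg (‖a‖ * ‖d‖ - ‖b‖ * ‖c‖)]

theorem le_alpha_of_isometry {E : Type u} [NormedAddCommGroup E] [NormedSpace ℂ E]
    (e : E ≃ₗᵢ[ℂ] EuclideanSpace ℂ (Fin 2)) :
    ENNReal.ofReal √2 ≤ alpha.{u, v} E := by
  set f : Fin 2 → E := fun j => e.symm (EuclideanSpace.single j 1) with hf
  set X : Matrix (Fin 2) (Fin 2) E := !![f 0, f 1; 0, 0] with hX
  have hef : ∀ j, e (f j) = EuclideanSpace.single j 1 := fun j => e.apply_symm_apply _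
  have hmin : minNorm X ≤ 1 := by
    refine iSup₂_le fun ξ hξ => ?_
    rw [ENNReal.ofReal_le_one]
    have h0 : X.map ξ = !![ξ (f 0), ξ (f 1); 0, 0] := by
      ext i j
      fin_cases i <;> fin_cases j <;> simp [hX]
    rw [h0]
    apply lw_row
    set a := ξ (f 0) with ha
    set b := ξ (f 1) with hb
    have h1 : ξ (conj a • f 0 + conj b • f 1) = ((‖a‖ ^ 2 + ‖b‖ ^ 2 : ℝ) : ℂ) := by
      rw [map_add, map_smul, map_smul, ← ha, ← hb, smul_eq_mul, smul_eq_mul, mul_comm (conj a),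
        mul_comm (conj b), Complex.mul_conj, Complex.mul_conj, Complex.normSq_eq_norm_sq,
        Complex.normSq_eq_norm_sq]
      push_cast
      rfl
    have h2 : ‖conj a • f 0 + conj b • f 1‖ = √(‖a‖ ^ 2 + ‖b‖ ^ 2) := by
      rw [← e.norm_map, map_add, map_smul, map_smul, hef, hef, EuclideanSpace.norm_eq,
        Fin.sum_univ_two]
      congr 1
      simp
    have h3 := ξ.le_opNorm (conj a • f 0 + conj b • f 1)
    rw [h1, h2, Complex.norm_real, Real.norm_of_nonneg (by positivity)] at h3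
    have h4 : ‖a‖ ^ 2 + ‖b‖ ^ 2 ≤ √(‖a‖ ^ 2 + ‖b‖ ^ 2) :=
      h3.trans (mul_le_of_le_one_left (Real.sqrt_nonneg _) hξ)
    by_contra hcon
    push Not at hcon
    have h5 : √(‖a‖ ^ 2 + ‖b‖ ^ 2) < ‖a‖ ^ 2 + ‖b‖ ^ 2 := by
      rw [Real.sqrt_lt' (by linarith)]
      nlinarith
    linarith
  -- the map `u`
  let H := EuclideanSpace ℂ (ULift.{v} (Fin 2))
  let w₀ : E →ₗ[ℂ] H →ₗ[ℂ] H := LinearMap.mk₂ ℂ
    (fun x h => ((e x) 0 * h ⟨0⟩ + (e x) 1 * h ⟨1⟩) • (EuclideanSpace.single ⟨0⟩ 1 : H))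
    (by intro x y h; rw [map_add, PiLp.add_apply, PiLp.add_apply, ← add_smul]; congr 1; ring)
    (by intro c x h; rw [map_smul, PiLp.smul_apply, PiLp.smul_apply, smul_eq_mul, smul_eq_mul,
          smul_smul]; congr 1; ring)
    (by intro x g h; rw [PiLp.add_apply, PiLp.add_apply, ← add_smul]; congr 1; ring)
    (by intro c x h; rw [PiLp.smul_apply, PiLp.smul_apply, smul_eq_mul, smul_eq_mul,
          smul_smul]; congr 1; ring)
  have hw₀ : ∀ x h, ‖w₀ x h‖ ≤ 1 * ‖x‖ * ‖h‖ := by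
    intro x h
    have h1 : w₀ x h = ((e x) 0 * h ⟨0⟩ + (e x) 1 * h ⟨1⟩) •
      (EuclideanSpace.single ⟨0⟩ 1 : H) := rfl
    have h2 : ‖(EuclideanSpace.single ⟨0⟩ 1 : H)‖ = 1 := by simp [H]
    rw [h1, norm_smul, h2, mul_one, one_mul, ← e.norm_map x]
    refine (lw_cs _ _ _ _).trans (le_of_eq ?_)
    congr 1
    · rw [EuclideanSpace.norm_eq, Fin.sum_univ_two]
    · rw [EuclideanSpace.norm_eq]
      congr 1
      rw [← Equiv.ulift.symm.sum_comp, Fin.sum_univ_two]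
      rfl
  set w : E →L[ℂ] (H →L[ℂ] H) := w₀.mkContinuous₂ 1 hw₀ with hw
  have hwn : ‖w‖ ≤ 1 := LinearMap.mkContinuous₂_norm_le _ zero_le_one _
  have hwa : ∀ x h, w x h = ((e x) 0 * h ⟨0⟩ + (e x) 1 * h ⟨1⟩) •
      (EuclideanSpace.single ⟨0⟩ 1 : H) := fun x h => rfl
  -- the test vector
  set g : PiLp 2 (fun _ : Fin 2 => H) :=
    WithLp.toLp 2 ![(EuclideanSpace.single ⟨0⟩ 1 : H), EuclideanSpace.single ⟨1⟩ 1] with hg
  have hgn : ‖g‖ = √2 := by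
    rw [PiLp.norm_eq_of_L2, Fin.sum_univ_two]
    congr 1
    have h0 : ‖g 0‖ = 1 := by
      show ‖(EuclideanSpace.single ⟨0⟩ 1 : H)‖ = 1
      simp [H]
    have h1 : ‖g 1‖ = 1 := by
      show ‖(EuclideanSpace.single ⟨1⟩ 1 : H)‖ = 1
      simp [H]
    rw [h0, h1]
    norm_num
  have hT0 : blockOp (X.map w) g 0 = (2 : ℂ) • (EuclideanSpace.single ⟨0⟩ 1 : H) := by
    have h0 : blockOp (X.map w) g 0 = ∑ j, (X.map w) 0 j (g j) := by simp [blockOp]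
    rw [h0, Fin.sum_univ_two]
    show w (f 0) (EuclideanSpace.single ⟨0⟩ 1 : H) + w (f 1) (EuclideanSpace.single ⟨1⟩ 1 : H) = _
    rw [hwa, hwa, hef, hef, ← add_smul]
    congr 1
    simp [H]
    norm_num
  have hge : 2 ≤ ‖blockOp (X.map w) g‖ := by
    refine le_trans (le_of_eq ?_) (PiLp.norm_apply_le (blockOp (X.map w) g) 0)
    rw [hT0, norm_smul]
    simp [H]
  have hop : √2 ≤ ‖blockOp (X.map w)‖ := by
    have h1 := (blockOp (X.map w)).le_opNorm g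
    rw [hgn] at h1
    have h2 : √2 * √2 = 2 := Real.mul_self_sqrt (by norm_num)
    have h3 : 0 < √2 := by positivity
    have h4 : √2 * √2 ≤ ‖blockOp (X.map w)‖ * √2 := by rw [h2]; exact hge.trans h1
    exact le_of_mul_le_mul_right h4 h3
  calc ENNReal.ofReal √2 ≤ ENNReal.ofReal ‖blockOp (X.map w)‖ := ENNReal.ofReal_le_ofReal hop
    _ ≤ maxNorm.{u, v} X := by
      unfold maxNorm
      refine le_iSup_of_le H (le_iSup_of_le inferInstance (le_iSup_of_le inferInstance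
        (le_iSup_of_le inferInstance (le_iSup_of_le w (le_iSup_of_le hwn le_rfl)))))
    _ ≤ alpha.{u, v} E := by
      unfold alpha
      exact le_iSup_of_le 2 (le_iSup_of_le one_le_two (le_iSup_of_le X (le_iSup_of_le hmin le_rfl)))

end Pool.MinMax
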