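import Pool.Agent.Work.MP_9667ca_an.Space
import Pool.Agent.Work.MP_9667ca_an.Defs

/-!
# MP_9667ca_an, module TENSOR: from the definition of `α(E)` to commuting pairs

Let `m ≥ 1`, `X : Matrix (Fin m) (Fin m) E` with `minNorm X ≤ 1`, `H` a Hilbert space, `u : E →L B(H)`
with `‖u‖ ≤ 1`. Choose scalar matrices `A₁, A₂` with `X i j = A₁ i j • f₁ + A₂ i j • f₂` (`hspan`).
Let `K = PiLp 2 (fun _ : Fin m => H)`, `A = K →L[ℂ] K`. The map
`π : Matrix (Fin m) (Fin m) ℂ → A`, `(π M h) i = ∑ j, M i j • h j`, is a star-algebra homomorphism of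
C⋆-algebras, so `‖π M‖ ≤ ‖M‖`; `(δ R h) i = R (h i)` is a contraction. They commute.
Put `a_i = π A_i`, `b_i = δ (u f_i)`: `blockOp (X.map u) = a₁ b₁ + a₂ b₂ = TT a₁ a₂ b₁ b₂`.
-/

namespace Pool.MinMax

open scoped ComplexConjugate ENNReal Matrix.Norms.L2Operator

universe u v

section

variable {H : Type v} [NormedAddCommGroup H] [InnerProductSpace ℂ H]

private lemma tn_blockOp {m : ℕ} (T : Matrix (Fin m) (Fin m) (H →L[ℂ] H))
    (h : PiLp 2 (fun _ : Fin m => H)) (i : Fin m) : blockOp T h i = ∑ j, T i j (h j) := by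
  simp [blockOp]

/-- diagonal operators -/
private noncomputable def tnD (m : ℕ) (R : H →L[ℂ] H) :
    PiLp 2 (fun _ : Fin m => H) →L[ℂ] PiLp 2 (fun _ : Fin m => H) :=
  blockOp (Matrix.diagonal fun _ => R)

private lemma tnD_apply (m : ℕ) (R : H →L[ℂ] H) (h : PiLp 2 (fun _ : Fin m => H)) (i : Fin m) :
    tnD m R h i = R (h i) := by
  rw [tnD, tn_blockOp, Finset.sum_eq_single i]
  · rw [Matrix.diagonal_apply_eq]
  · intro j _ hj
    rw [Matrix.diagonal_apply_ne _ hj.symm]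
    rfl
  · intro h
    exact absurd (Finset.mem_univ i) h

private lemma tnD_norm_le (m : ℕ) (R : H →L[ℂ] H) : ‖tnD m R‖ ≤ ‖R‖ := by
  apply ContinuousLinearMap.opNorm_le_bound _ (norm_nonneg R)
  intro h
  rw [PiLp.norm_eq_of_L2, PiLp.norm_eq_of_L2, ← Real.sqrt_sq (norm_nonneg R),
    ← Real.sqrt_mul (sq_nonneg _)]
  apply Real.sqrt_le_sqrt
  rw [Finset.mul_sum]
  apply Finset.sum_le_sum
  intro i _
  rw [tnD_apply, ← mul_pow]
  exact pow_le_pow_left₀ (norm_nonneg _) (R.le_opNorm _) 2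

variable [CompleteSpace H]

private lemma tnD_star (m : ℕ) (R : H →L[ℂ] H) : star (tnD m R) = tnD m (star R) := by
  symm
  show tnD m (ContinuousLinearMap.adjoint R) = ContinuousLinearMap.adjoint (tnD m R)
  rw [ContinuousLinearMap.eq_adjoint_iff]
  intro x y
  rw [PiLp.inner_apply, PiLp.inner_apply]
  apply Finset.sum_congr rfl
  intro i _
  rw [tnD_apply, tnD_apply, ContinuousLinearMap.adjoint_inner_left]

/-- scalar matrices -/
private noncomputable def tnP (H : Type v) [NormedAddCommGroup H] [InnerProductSpace ℂ H]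
    [CompleteSpace H] (m : ℕ) : Matrix (Fin m) (Fin m) ℂ →⋆ₙₐ[ℂ]
      (PiLp 2 (fun _ : Fin m => H) →L[ℂ] PiLp 2 (fun _ : Fin m => H)) where
  toFun M := blockOp (M.map fun z => z • (1 : H →L[ℂ] H))
  map_smul' c M := by
    ext h i
    rw [tn_blockOp]
    simp only [MonoidHom.id_apply, smul_apply, PiLp.smul_apply, tn_blockOp,
      Finset.smul_sum]
    apply Finset.sum_congr rfl
    intro j _
    simp [mul_smul]
  map_zero' := by
    ext h i
    rw [tn_blockOp]
    simp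
  map_add' M N := by
    ext h i
    rw [tn_blockOp]
    simp only [add_apply, PiLp.add_apply, tn_blockOp, ← Finset.sum_add_distrib]
    apply Finset.sum_congr rfl
    intro j _
    simp [add_smul]
  map_mul' M N := by
    ext h i
    show blockOp ((M * N).map fun z => z • (1 : H →L[ℂ] H)) h i =
      blockOp (M.map fun z => z • (1 : H →L[ℂ] H))
        (blockOp (N.map fun z => z • (1 : H →L[ℂ] H)) h) i
    rw [tn_blockOp, tn_blockOp]
    have h1 : ∀ j, ((M * N).map fun z => z • (1 : H →L[ℂ] H)) i j (h j) =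
        ∑ k, (M i k * N k j) • h j := by
      intro j
      show (M * N) i j • h j = _
      rw [Matrix.mul_apply, Finset.sum_smul]
    have h2 : ∀ k, (M.map fun z => z • (1 : H →L[ℂ] H)) i k
        (blockOp (N.map fun z => z • (1 : H →L[ℂ] H)) h k) = ∑ j, (M i k * N k j) • h j := by
      intro k
      rw [tn_blockOp]
      show M i k • (∑ j, N k j • h j) = _
      rw [Finset.smul_sum]
      apply Finset.sum_congr rfl
      intro j _
      rw [mul_smul]
    rw [Finset.sum_congr rfl fun j _ => h1 j, Finset.sum_congr rfl fun k _ => h2 k,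
      Finset.sum_comm]
  map_star' M := by
    rw [ContinuousLinearMap.star_eq_adjoint, ContinuousLinearMap.eq_adjoint_iff]
    intro x y
    rw [PiLp.inner_apply, PiLp.inner_apply]
    simp only [tn_blockOp, Matrix.map_apply, smul_apply,
      one_apply_eq_self, sum_inner, inner_sum, inner_smul_left, inner_smul_right]
    rw [Finset.sum_comm]
    apply Finset.sum_congr rfl
    intro j _
    apply Finset.sum_congr rfl
    intro k _
    simp [Matrix.star_apply]

private lemma tnP_apply (m : ℕ) (M : Matrix (Fin m) (Fin m) ℂ) (h : PiLp 2 (fun _ : Fin m => H))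
    (i : Fin m) : tnP H m M h i = ∑ j, M i j • h j := by
  show blockOp (M.map fun z => z • (1 : H →L[ℂ] H)) h i = _
  rw [tn_blockOp]
  rfl

private lemma tn_comm (m : ℕ) (M : Matrix (Fin m) (Fin m) ℂ) (R : H →L[ℂ] H) :
    Commute (tnP H m M) (tnD m R) := by
  show tnP H m M * tnD m R = tnD m R * tnP H m M
  ext h i
  show tnP H m M (tnD m R h) i = tnD m R (tnP H m M h) i
  rw [tnP_apply, tnD_apply, tnP_apply, map_sum]
  apply Finset.sum_congr rfl
  intro j _
  rw [tnD_apply, map_smul]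

end

theorem alpha_le_of {E : Type u} [NormedAddCommGroup E] [NormedSpace ℂ E] {f₁ f₂ : E}
    (hspan : ∀ x : E, ∃ p q : ℂ, x = p • f₁ + q • f₂) {r : ℝ} (hr : 0 ≤ r)
    (h : ∀ (A : Type v) [CStarAlgebra A] (a₁ a₂ b₁ b₂ : A), Com a₁ a₂ b₁ b₂ →
      (∀ ξ : E →L[ℂ] ℂ, ‖ξ‖ ≤ 1 → ‖ξ f₁ • a₁ + ξ f₂ • a₂‖ ≤ 1) →
      (∀ p q : ℂ, ‖bv b₁ b₂ p q‖ ≤ ‖p • f₁ + q • f₂‖) → ‖TT a₁ a₂ b₁ b₂‖ ≤ r) :
    alpha.{u, v} E ≤ ENNReal.ofReal r := by
  refine iSup_le fun m => iSup_le fun _ => iSup_le fun X => iSup_le fun hX => ?_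
  refine iSup_le fun H => iSup_le fun _ => iSup_le fun _ => iSup_le fun _ => iSup_le fun w =>
    iSup_le fun hw => ?_
  apply ENNReal.ofReal_le_ofReal
  choose A₁ A₂ hA using fun i j => hspan (X i j)
  have hX1 : ∀ ξ : E →L[ℂ] ℂ, ‖ξ‖ ≤ 1 → ‖X.map ξ‖ ≤ 1 := by
    intro ξ hξ
    have h1 : ENNReal.ofReal ‖X.map ξ‖ ≤ 1 :=
      (le_iSup₂ (f := fun (ξ : E →L[ℂ] ℂ) (_ : ‖ξ‖ ≤ 1) => ENNReal.ofReal ‖X.map ξ‖) ξ hξ).trans hX
    exact ENNReal.ofReal_le_one.1 h1
  have hT : blockOp (X.map w) = TT (tnP H m (Matrix.of A₁)) (tnP H m (Matrix.of A₂))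
      (tnD m (w f₁)) (tnD m (w f₂)) := by
    ext g i
    rw [tn_blockOp]
    show _ = (tnP H m (Matrix.of A₁) (tnD m (w f₁) g) + tnP H m (Matrix.of A₂) (tnD m (w f₂) g)) i
    rw [PiLp.add_apply, tnP_apply, tnP_apply, ← Finset.sum_add_distrib]
    apply Finset.sum_congr rfl
    intro j _
    rw [tnD_apply, tnD_apply, Matrix.map_apply, hA i j, map_add, map_smul, map_smul]
    rfl
  rw [hT]
  apply h
  · refine ⟨tn_comm _ _ _, tn_comm _ _ _, tn_comm _ _ _, tn_comm _ _ _, ?_, ?_, ?_, ?_⟩ <;>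
    · rw [tnD_star]
      exact tn_comm _ _ _
  · intro ξ hξ
    have h1 : ξ f₁ • tnP H m (Matrix.of A₁) + ξ f₂ • tnP H m (Matrix.of A₂) =
        tnP H m (X.map ξ) := by
      rw [← map_smul (tnP H m) (ξ f₁), ← map_smul (tnP H m) (ξ f₂), ← map_add (tnP H m)]
      congr 1
      ext i j
      rw [Matrix.map_apply, hA i j, map_add, map_smul, map_smul]
      simp [mul_comm]
    rw [h1]
    exact (NonUnitalStarAlgHom.norm_apply_le (tnP H m) (X.map ξ)).trans (hX1 ξ hξ)
  · intro p q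
    have h1 : bv (tnD m (w f₁)) (tnD m (w f₂)) p q = tnD m (w (p • f₁ + q • f₂)) := by
      ext g i
      show (p • tnD m (w f₁) g + q • tnD m (w f₂) g) i = _
      rw [PiLp.add_apply, PiLp.smul_apply, PiLp.smul_apply, tnD_apply, tnD_apply, tnD_apply,
        map_add, map_smul, map_smul]
      rfl
    rw [h1]
    refine (tnD_norm_le m _).trans ((w.le_opNorm _).trans ?_)
    exact mul_le_of_le_one_left (norm_nonneg _) hw

end Pool.MinMax
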