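import Pool.Agent.Work.MP_9667ca_an.CaseTwo
import Pool.Agent.Work.MP_9667ca_an.CThree
import Pool.Agent.Work.MP_9667ca_an.Frame
import Pool.Agent.Work.MP_9667ca_an.BalFrom
import Pool.Agent.Work.MP_9667ca_an.John
import Pool.Agent.Work.MP_9667ca_an.Contact
import Pool.Agent.Work.MP_9667ca_an.Tensor
import Pool.Agent.Work.MP_9667ca_an.Lower
import Pool.Agent.Work.MP_9667ca_an.Moments

/-!
# MP_9667ca_an: main theorem
-/

namespace Pool.MinMax

open scoped ComplexConjugate ENNReal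
open Complex (I)

universe u v w

theorem le_of_diag {N : ℂ → ℂ → ℝ} (hN : Good N) {ι : Type} [Fintype ι] {c : ι → ℝ}
    {p q : ι → ℂ} {mz ρ : ℝ} (hB : Bal c p q) (hc : ∀ i, N (p i) (q i) = 1)
    (hD : Diag c p q mz ρ) (hρ : |ρ| ≤ (3 * mz - 1) / 2)
    {A : Type w} [CStarAlgebra A] {a₁ a₂ b₁ b₂ : A} (hd : Data N a₁ a₂ b₁ b₂) :
    ‖TT a₁ a₂ b₁ b₂‖ ^ 2 ≤ 2 := by
  let _ := CStarAlgebra.spectralOrder A
  have _ := CStarAlgebra.spectralOrderedRing A
  have ha : ∀ i, ‖av a₁ a₂ (p i) (q i)‖ ≤ 1 := fun i => hd.ha _ _ (hB.unit i) (hc i)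
  have hb := hd.hb' hN
  have hDD := fun p q => dd_nonneg hd.com hb p q
  apply norm_sq_le_of_star_mul_self_le (by norm_num)
  have h1 := hD.abs_rho_le hB
  have h2 := abs_le.1 hρ
  have h3 := abs_le.1 h1
  rcases le_or_gt mz (1 / 2) with hm | hm
  · refine le_trans ?_ (coreA hB hD hd.com ha hb)
    refine le_add_of_nonneg_right (add_nonneg (add_nonneg ?_ ?_) ?_)
    · exact smul_nonneg (by linarith) (add_nonneg (hDD _ _) (hDD _ _))
    · exact smul_nonneg (by linarith) (add_nonneg (hDD _ _) (hDD _ _))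
    · exact smul_nonneg (by linarith) (add_nonneg (hDD _ _) (hDD _ _))
  · refine le_trans ?_ (coreB hB hD hm hd.com ha hb)
    refine le_add_of_nonneg_right (add_nonneg ?_ ?_)
    · exact smul_nonneg (by linarith) (add_nonneg (hDD _ _) (hDD _ _))
    · exact smul_nonneg (by linarith) (add_nonneg (hDD _ _) (hDD _ _))

theorem main_le {N : ℂ → ℂ → ℝ} (hN : Good N) {ι : Type} [Fintype ι] {c : ι → ℝ}
    {p q : ι → ℂ} (hB : Bal c p q) (hc : ∀ i, N (p i) (q i) = 1)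
    {A : Type w} [CStarAlgebra A] {a₁ a₂ b₁ b₂ : A} (hd : Data N a₁ a₂ b₁ b₂) :
    ‖TT a₁ a₂ b₁ b₂‖ ^ 2 ≤ 2 := by
  obtain ⟨u, v, z, mz, ρ, huv, hz, hB', hD', hρ⟩ := frame hB
  rw [← TT_rot a₁ a₂ b₁ b₂ huv hz]
  exact le_of_diag (rot_good hN huv hz) hB'
    (fun i => by rw [rot_coord N huv hz]; exact hc i) hD' hρ (rot_data hd huv hz)

/-- A balanced family with a pair of points that are neither parallel nor orthogonal. -/
theorem concl_of_pair {N : ℂ → ℂ → ℝ} (hN : Good N) {ι : Type} [Fintype ι] {c : ι → ℝ}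
    {p q : ι → ℂ} (hB : Bal c p q) (hc : ∀ i, N (p i) (q i) = 1) {k l : ι}
    (hkl : p k * conj (p l) + q k * conj (q l) ≠ 0)
    (hkl' : ‖p k * conj (p l) + q k * conj (q l)‖ ≠ 1)
    {u₀ v₀ : ℂ} (huv₀ : ‖u₀‖ ^ 2 + ‖v₀‖ ^ 2 = 1) (hlt : N u₀ v₀ < 1) : Concl.{w} N := by
  obtain ⟨u, v, z, mz, ρ, huv, hz, hB', hD', hρ⟩ := frame hB
  apply rot_concl huv hz
  have hN' := rot_good hN huv hz
  have hc' : ∀ i, rot N u v z (rp u v (p i) (q i)) (rq u v z (p i) (q i)) = 1 := fun i => by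
    rw [rot_coord N huv hz]; exact hc i
  have huv₀' : ‖rp u v u₀ v₀‖ ^ 2 + ‖rq u v z u₀ v₀‖ ^ 2 = 1 := by
    rw [coord_unit huv hz]; exact huv₀
  have hlt' : rot N u v z (rp u v u₀ v₀) (rq u v z u₀ v₀) < 1 := by
    rw [rot_coord N huv hz]; exact hlt
  have h2 := abs_le.1 hρ
  have hm1 : mz < 1 := by
    refine lt_of_le_of_ne (hD'.mz_le hB') fun h1 => ?_
    have hk := hD'.pole hB' h1 k
    have hl := hD'.pole hB' h1 l
    have hi := coord_inner huv hz (p k) (q k) (p l) (q l)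
    have uk := hB'.unit k
    have ul := hB'.unit l
    rw [← hi] at hkl hkl'
    generalize rp u v (p k) (q k) = P at *
    generalize rq u v z (p k) (q k) = Q at *
    generalize rp u v (p l) (q l) = P' at *
    generalize rq u v z (p l) (q l) = Q' at *
    rcases mul_eq_zero.1 hk with h | h <;> rcases mul_eq_zero.1 hl with h' | h'
    · subst h; subst h'
      apply hkl'
      simp only [norm_zero, ne_eq, OfNat.ofNat_ne_zero, not_false_eq_true, zero_pow, zero_add] at uk ul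
      have e1 : ‖Q‖ = 1 := by nlinarith [norm_nonneg Q]
      have e2 : ‖Q'‖ = 1 := by nlinarith [norm_nonneg Q']
      simp [e1, e2]
    · apply hkl
      rw [h, (map_eq_zero _).1 h']; simp
    · apply hkl
      rw [h', (map_eq_zero _).1 h]; simp
    · rw [(map_eq_zero _).1 h] at uk hkl'
      rw [(map_eq_zero _).1 h'] at ul hkl'
      apply hkl'
      simp only [norm_zero, ne_eq, OfNat.ofNat_ne_zero, not_false_eq_true, zero_pow, add_zero] at uk ul
      have e1 : ‖P‖ = 1 := by nlinarith [norm_nonneg P]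
      have e2 : ‖P'‖ = 1 := by nlinarith [norm_nonneg P']
      simp [e1, e2]
  rcases lt_or_ge mz (1 / 2) with hm | hm
  · exact caseOne hN' hB' hc' hD' hm (by linarith) huv₀' hlt'
  · exact caseTwo hN' hB' hc' hD' hm hm1 huv₀' hlt'

theorem main_lt {N : ℂ → ℂ → ℝ} (hN : Good N) {ι : Type} [Fintype ι] {c : ι → ℝ}
    {p q : ι → ℂ} (hB : Bal c p q) (hc : ∀ i, N (p i) (q i) = 1)
    {u₀ v₀ : ℂ} (huv₀ : ‖u₀‖ ^ 2 + ‖v₀‖ ^ 2 = 1) (hlt : N u₀ v₀ < 1) : Concl.{w} N := by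
  by_cases hpair : ∃ k l, p k * conj (p l) + q k * conj (q l) ≠ 0 ∧
      ‖p k * conj (p l) + q k * conj (q l)‖ ≠ 1
  · obtain ⟨k, l, h1, h2⟩ := hpair
    exact concl_of_pair hN hB hc h1 h2 huv₀ hlt
  push Not at hpair
  -- an orthogonal pair
  have hne : Nonempty ι := by
    by_contra h
    rw [not_nonempty_iff] at h
    have := hB.sump
    simp at this
  obtain ⟨l⟩ := hne
  obtain ⟨k, hk⟩ : ∃ k, p k * conj (p l) + q k * conj (q l) = 0 := by
    by_contra hcon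
    push Not at hcon
    have h1 : ∀ k, ‖p k * conj (p l) + q k * conj (q l)‖ ^ 2 = 1 := fun k => by
      rw [hpair k l (hcon k)]; norm_num
    have h2 : ∑ k, c k * ‖p k * conj (p l) + q k * conj (q l)‖ ^ 2 = 1 := by
      have h3 : ∀ k, ((c k * ‖p k * conj (p l) + q k * conj (q l)‖ ^ 2 : ℝ) : ℂ) =
          ((c k * ‖p k‖ ^ 2 : ℝ) : ℂ) * ((‖p l‖ ^ 2 : ℝ) : ℂ)
          + ((c k * ‖q k‖ ^ 2 : ℝ) : ℂ) * ((‖q l‖ ^ 2 : ℝ) : ℂ)
          + ((c k : ℂ) * (p k * conj (q k))) * (q l * conj (p l))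
          + conj ((c k : ℂ) * (p k * conj (q k))) * (p l * conj (q l)) := by
        intro k
        push_cast
        simp only [← Complex.mul_conj', map_mul, map_add, Complex.conj_conj, Complex.conj_ofReal]
        ring
      have h4 : ((∑ k, c k * ‖p k * conj (p l) + q k * conj (q l)‖ ^ 2 : ℝ) : ℂ) = 1 := by
        rw [Complex.ofReal_sum, Finset.sum_congr rfl fun k _ => h3 k]
        simp only [Finset.sum_add_distrib, ← Finset.sum_mul, ← map_sum, ← Complex.ofReal_sum]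
        rw [hB.sump, hB.sumq, hB.sumr]
        have := hB.unit l
        simp only [map_zero, zero_mul, add_zero, Complex.ofReal_one, one_mul]
        rw [← Complex.ofReal_add, this, Complex.ofReal_one]
      exact_mod_cast h4
    have h5 : ∑ k, c k * ‖p k * conj (p l) + q k * conj (q l)‖ ^ 2 = 2 := by
      rw [← hB.sum_c]
      exact Finset.sum_congr rfl fun k _ => by rw [h1 k, mul_one]
    rw [h5] at h2
    norm_num at h2
  -- rotate so that the two points are the poles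
  obtain ⟨z, hz, hz1, hz2⟩ : ∃ z : ℂ, ‖z‖ = 1 ∧ p k = -(z * conj (q l)) ∧ q k = z * conj (p l) := by
    have hu : p l * conj (p l) + q l * conj (q l) = 1 := by
      rw [Complex.mul_conj', Complex.mul_conj']
      exact_mod_cast hB.unit l
    have e1 : p k = -((p l * q k - q l * p k) * conj (q l)) := by
      linear_combination (-p k) * hu + p l * hk
    have e2 : q k = (p l * q k - q l * p k) * conj (p l) := by
      linear_combination (-q k) * hu + q l * hk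
    refine ⟨p l * q k - q l * p k, ?_, e1, e2⟩
    have h1 := hB.unit k
    have h2 := hB.unit l
    have e1' : ‖p k‖ = ‖p l * q k - q l * p k‖ * ‖q l‖ := by
      conv_lhs => rw [e1]
      rw [norm_neg, norm_mul, RCLike.norm_conj]
    have e2' : ‖q k‖ = ‖p l * q k - q l * p k‖ * ‖p l‖ := by
      conv_lhs => rw [e2]
      rw [norm_mul, RCLike.norm_conj]
    rw [e1', e2'] at h1
    have h3 : ‖p l * q k - q l * p k‖ ^ 2 = 1 := by
      have : (‖p l * q k - q l * p k‖ * ‖q l‖) ^ 2 + (‖p l * q k - q l * p k‖ * ‖p l‖) ^ 2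
        = ‖p l * q k - q l * p k‖ ^ 2 * (‖p l‖ ^ 2 + ‖q l‖ ^ 2) := by ring
      rw [this, h2, mul_one] at h1
      exact h1
    nlinarith [norm_nonneg (p l * q k - q l * p k)]
  have huv := hB.unit l
  apply rot_concl huv hz
  have hN' := rot_good hN huv hz
  have h10 : rot N (p l) (q l) z 1 0 = 1 := by
    unfold rot; simpa using hc l
  have h01 : rot N (p l) (q l) z 0 1 = 1 := by
    unfold rot
    have : N (p k) (q k) = 1 := hc k
    rw [hz1, hz2] at this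
    simpa using this
  have huv₀' : ‖rp (p l) (q l) u₀ v₀‖ ^ 2 + ‖rq (p l) (q l) z u₀ v₀‖ ^ 2 = 1 := by
    rw [coord_unit huv hz]; exact huv₀
  have hlt' : rot N (p l) (q l) z (rp (p l) (q l) u₀ v₀) (rq (p l) (q l) z u₀ v₀) < 1 := by
    rw [rot_coord N huv hz]; exact hlt
  by_cases h0 : (0 : ℂ) ∈ convexHull ℝ {ω : ℂ | ‖ω‖ = 1 ∧ rot N (p l) (q l) z 1 ω ^ 2 = 2}
  · obtain ⟨κ, _, c', p', q', hB', hc', k', l', h1, h2⟩ := theta hN' h10 h01 h0
    exact concl_of_pair hN' hB' hc' h1 h2 huv₀' hlt'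
  · exact c3 hN' h10 h01 h0

/-! ### the space -/

section space

variable {E : Type u} [NormedAddCommGroup E] [NormedSpace ℂ E] {f₁ f₂ : E}

theorem good_of (hle : ∀ p q : ℂ, ‖p • f₁ + q • f₂‖ ^ 2 ≤ ‖p‖ ^ 2 + ‖q‖ ^ 2) :
    Good fun p q => ‖p • f₁ + q • f₂‖ where
  cont := by fun_prop
  nonneg _ _ := norm_nonneg _
  homog z p q := by
    rw [mul_smul, mul_smul, ← smul_add, norm_smul]
  le := hle

theorem data_of (hle : ∀ p q : ℂ, ‖p • f₁ + q • f₂‖ ^ 2 ≤ ‖p‖ ^ 2 + ‖q‖ ^ 2)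
    {A : Type w} [CStarAlgebra A] {a₁ a₂ b₁ b₂ : A} (hcom : Com a₁ a₂ b₁ b₂)
    (hξ : ∀ ξ : E →L[ℂ] ℂ, ‖ξ‖ ≤ 1 → ‖ξ f₁ • a₁ + ξ f₂ • a₂‖ ≤ 1)
    (hb : ∀ p q : ℂ, ‖bv b₁ b₂ p q‖ ≤ ‖p • f₁ + q • f₂‖) :
    Data (fun p q => ‖p • f₁ + q • f₂‖) a₁ a₂ b₁ b₂ where
  com := hcom
  ha p q hpq h1 := by
    obtain ⟨ξ, h2, h3, h4⟩ := contact_functional hle hpq h1
    have := hξ ξ h2
    rwa [h3, h4] at this
  hb := hb

theorem alpha_le_sqrt_two (hE : Module.finrank ℂ E = 2) :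
    alpha.{u, v} E ≤ ENNReal.ofReal √2 := by
  obtain ⟨f₁, f₂, hspan, hle, ι, _, c, p, q, hB, hc⟩ := john E hE
  refine alpha_le_of hspan (Real.sqrt_nonneg _) fun A _ a₁ a₂ b₁ b₂ hcom hξ hb => ?_
  exact Real.le_sqrt_of_sq_le (main_le (good_of hle) hB hc (data_of hle hcom hξ hb))

theorem isometry_or_lt (hE : Module.finrank ℂ E = 2) :
    Nonempty (E ≃ₗᵢ[ℂ] EuclideanSpace ℂ (Fin 2)) ∨ alpha.{u, v} E < ENNReal.ofReal √2 := by
  obtain ⟨f₁, f₂, hspan, hle, ι, _, c, p, q, hB, hc⟩ := john E hE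
  by_cases hlt : ∃ u₀ v₀ : ℂ, ‖u₀‖ ^ 2 + ‖v₀‖ ^ 2 = 1 ∧ ‖u₀ • f₁ + v₀ • f₂‖ < 1
  · right
    obtain ⟨u₀, v₀, h1, h2⟩ := hlt
    obtain ⟨η, hη, H⟩ := main_lt.{v} (good_of hle) hB hc h1 h2
    refine lt_of_le_of_lt (alpha_le_of (r := √(2 - min η 1)) hspan (Real.sqrt_nonneg _)
      fun A _ a₁ a₂ b₁ b₂ hcom hξ hb => ?_) ?_
    · refine Real.le_sqrt_of_sq_le ((H A a₁ a₂ b₁ b₂ (data_of hle hcom hξ hb)).trans ?_)
      linarith [min_le_left η 1]
    · rw [ENNReal.ofReal_lt_ofReal_iff (by positivity)]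
      apply Real.sqrt_lt_sqrt
      · linarith [min_le_right η 1]
      · linarith [lt_min hη one_pos]
  · left
    push Not at hlt
    -- `N` is the Euclidean norm
    have hN : ∀ p q : ℂ, ‖p • f₁ + q • f₂‖ ^ 2 = ‖p‖ ^ 2 + ‖q‖ ^ 2 := by
      intro p q
      refine le_antisymm (hle p q) ?_
      by_cases h0 : ‖p‖ ^ 2 + ‖q‖ ^ 2 = 0
      · rw [h0]; positivity
      have hpos : 0 < ‖p‖ ^ 2 + ‖q‖ ^ 2 := lt_of_le_of_ne (by positivity) (Ne.symm h0)
      set s : ℝ := √(‖p‖ ^ 2 + ‖q‖ ^ 2) with hs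
      have hs0 : 0 < s := Real.sqrt_pos.2 hpos
      have hs2 : s ^ 2 = ‖p‖ ^ 2 + ‖q‖ ^ 2 := Real.sq_sqrt hpos.le
      have h1 := hlt ((s : ℂ)⁻¹ * p) ((s : ℂ)⁻¹ * q) (by
        rw [norm_mul, norm_mul, norm_inv, Complex.norm_real, Real.norm_of_nonneg hs0.le,
          mul_pow, mul_pow, ← mul_add, ← hs2]
        field_simp)
      rw [mul_smul, mul_smul, ← smul_add, norm_smul, norm_inv, Complex.norm_real,
        Real.norm_of_nonneg hs0.le] at h1
      have h2 : s ≤ ‖p • f₁ + q • f₂‖ := by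
        rw [inv_mul_eq_div, le_div_iff₀ hs0, one_mul] at h1
        exact h1
      rw [← hs2]
      exact pow_le_pow_left₀ hs0.le h2 2
    let L : EuclideanSpace ℂ (Fin 2) →ₗ[ℂ] E :=
      { toFun := fun x => x 0 • f₁ + x 1 • f₂
        map_add' := fun x y => by simp [add_smul]; abel
        map_smul' := fun c x => by simp [smul_add, mul_smul] }
    have hL : ∀ x, ‖L x‖ = ‖x‖ := by
      intro x
      have h1 : ‖L x‖ ^ 2 = ‖x‖ ^ 2 := by
        rw [EuclideanSpace.norm_sq_eq, Fin.sum_univ_two]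
        exact hN (x 0) (x 1)
      exact (pow_left_inj₀ (norm_nonneg _) (norm_nonneg _) two_ne_zero).1 h1
    let L' : EuclideanSpace ℂ (Fin 2) →ₗᵢ[ℂ] E := ⟨L, hL⟩
    have hsurj : Function.Surjective L' := by
      intro x
      obtain ⟨p, q, rfl⟩ := hspan x
      exact ⟨!₂[p, q], by simp [L', L]⟩
    exact ⟨(LinearIsometryEquiv.ofSurjective L' hsurj).symm⟩

end space

end Pool.MinMax
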