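import Pool.Agent.Work.MP_9667ca_an.Invar

/-!
# MP_9667ca_an, module ROT: change of orthonormal basis
-/

namespace Pool.MinMax

open scoped ComplexConjugate

universe w

private theorem rt_sq (w : ℂ) : ((‖w‖ ^ 2 : ℝ) : ℂ) = w * conj w := by
  rw [Complex.mul_conj, Complex.normSq_eq_norm_sq]

private theorem rt_uv {u v : ℂ} (huv : ‖u‖ ^ 2 + ‖v‖ ^ 2 = 1) : u * conj u + v * conj v = 1 := by
  rw [← rt_sq, ← rt_sq]
  exact_mod_cast huv

private theorem rt_z {z : ℂ} (hz : ‖z‖ = 1) : z * conj z = 1 := by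
  rw [← rt_sq, hz]
  norm_num

private theorem rt_unit {u v z : ℂ} (huv : ‖u‖ ^ 2 + ‖v‖ ^ 2 = 1) (hz : ‖z‖ = 1) (p q : ℂ) :
    ‖p * u - q * (z * conj v)‖ ^ 2 + ‖p * v + q * (z * conj u)‖ ^ 2 = ‖p‖ ^ 2 + ‖q‖ ^ 2 := by
  have h1 := rt_uv huv
  have h2 := rt_z hz
  have h : ((‖p * u - q * (z * conj v)‖ ^ 2 + ‖p * v + q * (z * conj u)‖ ^ 2 : ℝ) : ℂ) =
      ((‖p‖ ^ 2 + ‖q‖ ^ 2 : ℝ) : ℂ) := by
    rw [Complex.ofReal_add, Complex.ofReal_add, rt_sq, rt_sq, rt_sq, rt_sq]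
    simp only [map_sub, map_add, map_mul, Complex.conj_conj]
    linear_combination (p * conj p + q * conj q * (z * conj z)) * h1 + q * conj q * h2
  exact_mod_cast h

theorem rot_good {N : ℂ → ℂ → ℝ} (hN : Good N) {u v z : ℂ} (huv : ‖u‖ ^ 2 + ‖v‖ ^ 2 = 1)
    (hz : ‖z‖ = 1) : Good (rot N u v z) := by
  refine ⟨?_, fun p q => hN.nonneg _ _, fun w p q => ?_, fun p q => ?_⟩
  · have h1 : Continuous fun x : ℂ × ℂ =>
        ((x.1 * u - x.2 * (z * conj v), x.1 * v + x.2 * (z * conj u)) : ℂ × ℂ) := by fun_prop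
    exact hN.cont.comp h1
  · unfold rot
    rw [← hN.homog]
    congr 1 <;> ring
  · unfold rot
    rw [← rt_unit huv hz p q]
    exact hN.le _ _

theorem rot_coord (N : ℂ → ℂ → ℝ) {u v z : ℂ} (huv : ‖u‖ ^ 2 + ‖v‖ ^ 2 = 1) (hz : ‖z‖ = 1)
    (p q : ℂ) : rot N u v z (rp u v p q) (rq u v z p q) = N p q := by
  have h1 := rt_uv huv
  have h2 := rt_z hz
  unfold rot rp rq
  congr 1
  · linear_combination p * h1 + (v * conj v * p - u * conj v * q) * h2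
  · linear_combination q * h1 + (u * conj u * q - v * conj u * p) * h2

theorem coord_unit {u v z : ℂ} (huv : ‖u‖ ^ 2 + ‖v‖ ^ 2 = 1) (hz : ‖z‖ = 1) (p q : ℂ) :
    ‖rp u v p q‖ ^ 2 + ‖rq u v z p q‖ ^ 2 = ‖p‖ ^ 2 + ‖q‖ ^ 2 := by
  have h1 := rt_uv huv
  have h2 := rt_z hz
  have h : ((‖rp u v p q‖ ^ 2 + ‖rq u v z p q‖ ^ 2 : ℝ) : ℂ) =
      ((‖p‖ ^ 2 + ‖q‖ ^ 2 : ℝ) : ℂ) := by
    rw [Complex.ofReal_add, Complex.ofReal_add, rt_sq, rt_sq, rt_sq, rt_sq]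
    unfold rp rq
    simp only [map_neg, map_add, map_mul, Complex.conj_conj]
    linear_combination (p * conj p + q * conj q) * h1 +
      (-(v * p) + u * q) * (-(conj v * conj p) + conj u * conj q) * h2
  exact_mod_cast h

theorem coord_inner {u v z : ℂ} (huv : ‖u‖ ^ 2 + ‖v‖ ^ 2 = 1) (hz : ‖z‖ = 1) (p q p' q' : ℂ) :
    rp u v p q * conj (rp u v p' q') + rq u v z p q * conj (rq u v z p' q')
      = p * conj p' + q * conj q' := by
  have h1 := rt_uv huv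
  have h2 := rt_z hz
  unfold rp rq
  simp only [map_neg, map_add, map_mul, Complex.conj_conj]
  linear_combination (p * conj p' + q * conj q') * h1 +
      (-(v * p) + u * q) * (-(conj v * conj p') + conj u * conj q') * h2

private theorem rt_av {A : Type*} [CStarAlgebra A] (a₁ a₂ : A) (u v z p q : ℂ) :
    av (av a₁ a₂ u v) (av a₁ a₂ (-(z * conj v)) (z * conj u)) p q =
      av a₁ a₂ (p * u - q * (z * conj v)) (p * v + q * (z * conj u)) := by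
  unfold av
  simp only [map_neg, map_add, map_sub, map_mul, Complex.conj_conj]
  module

private theorem rt_bv {A : Type*} [CStarAlgebra A] (a₁ a₂ : A) (u v z p q : ℂ) :
    bv (bv a₁ a₂ u v) (bv a₁ a₂ (-(z * conj v)) (z * conj u)) p q =
      bv a₁ a₂ (p * u - q * (z * conj v)) (p * v + q * (z * conj u)) := by
  unfold bv
  module

theorem rot_data {A : Type*} [CStarAlgebra A] {N : ℂ → ℂ → ℝ} {a₁ a₂ b₁ b₂ : A}
    (hd : Data N a₁ a₂ b₁ b₂) {u v z : ℂ} (huv : ‖u‖ ^ 2 + ‖v‖ ^ 2 = 1) (hz : ‖z‖ = 1) :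
    Data (rot N u v z) (av a₁ a₂ u v) (av a₁ a₂ (-(z * conj v)) (z * conj u))
      (bv b₁ b₂ u v) (bv b₁ b₂ (-(z * conj v)) (z * conj u)) := by
  refine ⟨⟨hd.com.av_bv _ _ _ _, hd.com.av_bv _ _ _ _, hd.com.av_bv _ _ _ _,
    hd.com.av_bv _ _ _ _, hd.com.av_star_bv _ _ _ _, hd.com.av_star_bv _ _ _ _,
    hd.com.av_star_bv _ _ _ _, hd.com.av_star_bv _ _ _ _⟩, fun p q hpq hN => ?_, fun p q => ?_⟩
  · rw [rt_av]
    exact hd.ha _ _ (by rw [rt_unit huv hz]; exact hpq) hN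
  · rw [rt_bv]
    exact hd.hb _ _

theorem rot_concl {N : ℂ → ℂ → ℝ} {u v z : ℂ} (huv : ‖u‖ ^ 2 + ‖v‖ ^ 2 = 1) (hz : ‖z‖ = 1)
    (h : Concl.{w} (rot N u v z)) : Concl.{w} N := by
  obtain ⟨η, hη, hh⟩ := h
  refine ⟨η, hη, fun A _ a₁ a₂ b₁ b₂ hd => ?_⟩
  have h1 := hh A _ _ _ _ (rot_data hd huv hz)
  have h2 : TT (av a₁ a₂ u v) (av a₁ a₂ (-(z * conj v)) (z * conj u))
      (bv b₁ b₂ u v) (bv b₁ b₂ (-(z * conj v)) (z * conj u)) = TT a₁ a₂ b₁ b₂ := by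
    have g1 := rt_uv huv
    have g2 := rt_z hz
    unfold TT av bv
    simp only [map_neg, map_mul, Complex.conj_conj, add_mul, mul_add, smul_mul_assoc,
      mul_smul_comm, smul_smul]
    match_scalars
    · linear_combination g1 + v * conj v * g2
    · linear_combination -(u * conj v) * g2
    · linear_combination -(v * conj u) * g2
    · linear_combination g1 + u * conj u * g2
  rw [h2] at h1
  exact h1

end Pool.MinMax
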