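import Mathlib

/-!
# MP_9667ca_an: the min-to-max constant of a normed space

Definitions of the problem: the norms of `M_m(min E)` and `M_m(max E)`, the constant `α(E)` and
`α(n)`.  All suprema are taken in `[0, ∞]`.
-/

namespace Pool.MinMax

open scoped ComplexConjugate ENNReal Matrix.Norms.L2Operator

universe u v

section

variable {E : Type u} [NormedAddCommGroup E] [NormedSpace ℂ E]

/-- The norm of the matrix `X = (x_ij)` in `M_m(min E)`: the supremum of the operator norms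
(on `ℓ₂^m`) of the scalar matrices `(ξ(x_ij))` over all functionals `ξ` with `‖ξ‖ ≤ 1`. -/
noncomputable def minNorm {m : ℕ} (X : Matrix (Fin m) (Fin m) E) : ℝ≥0∞ :=
  ⨆ (ξ : E →L[ℂ] ℂ) (_ : ‖ξ‖ ≤ 1), ENNReal.ofReal ‖X.map ξ‖

/-- The operator on `H^m = ℓ₂^m(H)` with the matrix `(T i j)` of operators on `H`:
`(T h) i = ∑ j, T i j (h j)`. -/
noncomputable def blockOp {H : Type v} [NormedAddCommGroup H] [InnerProductSpace ℂ H] {m : ℕ}
    (T : Matrix (Fin m) (Fin m) (H →L[ℂ] H)) :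
    PiLp 2 (fun _ : Fin m => H) →L[ℂ] PiLp 2 (fun _ : Fin m => H) :=
  (PiLp.continuousLinearEquiv 2 ℂ (fun _ : Fin m => H)).symm.toContinuousLinearMap ∘L
    (ContinuousLinearMap.pi fun i => ∑ j, (T i j) ∘L ContinuousLinearMap.proj j) ∘L
    (PiLp.continuousLinearEquiv 2 ℂ (fun _ : Fin m => H)).toContinuousLinearMap

/-- The norm of the matrix `X = (x_ij)` in `M_m(max E)`: the supremum of the norms of the
operators `(u(x_ij))` on `H^m` over all Hilbert spaces `H` and all linear maps `u : E → B(H)`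
with `‖u‖ ≤ 1`. -/
noncomputable def maxNorm {m : ℕ} (X : Matrix (Fin m) (Fin m) E) : ℝ≥0∞ :=
  ⨆ (H : Type v) (_ : NormedAddCommGroup H) (_ : InnerProductSpace ℂ H) (_ : CompleteSpace H)
    (u : E →L[ℂ] (H →L[ℂ] H)) (_ : ‖u‖ ≤ 1), ENNReal.ofReal ‖blockOp (X.map u)‖

variable (E) in
/-- The constant `α(E) = ‖id : min(E) → max(E)‖_cb`. -/
noncomputable def alpha : ℝ≥0∞ :=
  ⨆ (m : ℕ) (_ : 1 ≤ m) (X : Matrix (Fin m) (Fin m) E) (_ : minNorm X ≤ 1), maxNorm.{u, v} X

end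

/-- The constant `α(n) = sup {α(E) : dim E = n}`. -/
noncomputable def alphaDim (n : ℕ) : ℝ≥0∞ :=
  ⨆ (E : Type u) (_ : NormedAddCommGroup E) (_ : NormedSpace ℂ E) (_ : FiniteDimensional ℂ E)
    (_ : Module.finrank ℂ E = n), alpha.{u, v} E

end Pool.MinMax
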